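import Pool.Agent.Helper57.REC.Defs

/-!
# Reciprocity, parts 0-2: exact statements of the modules (basics, ray classes, second inequality)
Proofs: /team-store/rec_blueprint.md   [helper57]
-/

set_option autoImplicit false

open scoped Classical
open NumberField MeasureTheory

namespace REC

open Pool.Agent.Helper13.ZL (Pl q HasMean)
open MU (Gal Zb Over CongPow)

/-! ## Part 0. Basics -/

/-- EV: the multiplicative extension. -/
def ST_EV : Prop :=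
  ∀ (F : Type) [Field F] [NumberField F] (A : Type) [CommMonoid A],
    (∀ f : Pl F → A, ev f ⊤ = 1) ∧
    (∀ (f : Pl F → A) (I J : Ideal (𝓞 F)), I ≠ ⊥ → J ≠ ⊥ → ev f (I * J) = ev f I * ev f J) ∧
    (∀ (f : Pl F → A) (v : Pl F), ev f v.asIdeal = f v) ∧
    (∀ (f g : Pl F → A) (I : Ideal (𝓞 F)), ev (fun v => f v * g v) I = ev f I * ev g I) ∧
    (∀ (f g : Pl F → A) (I : Ideal (𝓞 F)), (∀ v : Pl F, I ≤ v.asIdeal → f v = g v) →
      ev f I = ev g I) ∧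
    (∀ (A' : Type) [CommMonoid A'] (φ : A →* A') (f : Pl F → A) (I : Ideal (𝓞 F)),
      ev (fun v => φ (f v)) I = φ (ev f I)) ∧
    (∀ I : Ideal (𝓞 F), I ≠ ⊥ → ev (fun v => q v) I = Ideal.absNorm I)

/-- OVP: the primes of the ring of all algebraic integers over the places of `F`. -/
def ST_OVP : Prop :=
  ∀ (F : Type) [Field F] [NumberField F],
    (∀ v : Pl F, ∃ 𝔓 : Ideal (Zb F), OverP v 𝔓) ∧
    (∀ (v : Pl F) (𝔓 : Ideal (Zb F)), OverP v 𝔓 → ∃ σ : Gal F, CongPow 𝔓 (q v) σ) ∧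
    (∀ (p : ℕ) (𝔓 : Ideal (Zb F)), p.Prime → Over p 𝔓 → ∃ v : Pl F, OverP v 𝔓) ∧
    (∀ (v : Pl F) (𝔓 : Ideal (Zb F)), OverP v 𝔓 →
      ∃ p f : ℕ, p.Prime ∧ 1 ≤ f ∧ q v = p ^ f ∧ Over p 𝔓 ∧ (p : 𝓞 F) ∈ v.asIdeal) ∧
    (∀ (v v' : Pl F) (𝔓 : Ideal (Zb F)), OverP v 𝔓 → OverP v' 𝔓 → v = v') ∧
    (∀ (v : Pl F) (𝔓 𝔓' : Ideal (Zb F)), OverP v 𝔓 → OverP v 𝔓' → ∃ g : Gal F, ∀ x y : Zb F,
      (y : AlgebraicClosure F) = g (x : AlgebraicClosure F) → (x ∈ 𝔓 ↔ y ∈ 𝔓')) ∧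
    (∀ (v : Pl F) (𝔓 : Ideal (Zb F)), OverP v 𝔓 → ∀ (p k : ℕ) (σ : Gal F), p.Prime → Over p 𝔓 →
      CongPow 𝔓 (p ^ k) σ → ∃ j : ℕ, p ^ k = q v ^ j)

/-- CPW: calculus of `CongPow`. -/
def ST_CPW : Prop :=
  ∀ (F : Type) [Field F] [NumberField F] (p : ℕ) (𝔓 : Ideal (Zb F)), p.Prime → Over p 𝔓 →
    (∀ (a b : ℕ) (σ τ : Gal F), CongPow 𝔓 a σ → CongPow 𝔓 b τ → CongPow 𝔓 (a * b) (σ * τ : Gal F)) ∧
    (∀ (k m : ℕ) (σ τ : Gal F), k ≤ m → CongPow 𝔓 (p ^ k) σ → CongPow 𝔓 (p ^ m) τ →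
      CongPow 𝔓 (p ^ (m - k)) (σ⁻¹ * τ : Gal F)) ∧
    (∀ (g : Gal F) (𝔓' : Ideal (Zb F)), (∀ x y : Zb F,
        (y : AlgebraicClosure F) = g (x : AlgebraicClosure F) → (x ∈ 𝔓 ↔ y ∈ 𝔓')) →
      ∀ (a : ℕ) (σ : Gal F), CongPow 𝔓 a σ → CongPow 𝔓' a (g * σ * g⁻¹ : Gal F))

/-- FRV: the value at the Frobenius (from OVP, CPW). -/
def ST_FRV : Prop :=
  ∀ (F : Type) [Field F] [NumberField F] (A : Type) [CommGroup A] (χ : Gal F →* A) (v : Pl F),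
    (Unr χ v → ∃ a : A, IsFr χ v a) ∧ (∀ a : A, IsFr χ v a → Unr χ v) ∧
    (∀ a b : A, IsFr χ v a → IsFr χ v b → a = b)

/-- FRM: finitely many ramified places. -/
def ST_FRM : Prop :=
  ∀ (F : Type) [Field F] [NumberField F] (A : Type) [Group A] (χ : Gal F →* A),
    IsOpen (χ.ker : Set (Gal F)) → ∃ B : Finset (Pl F), ∀ v : Pl F, v ∉ B → Unr χ v

/-- APX: approximation at finite places and real places. -/
def ST_APX : Prop :=
  ∀ (F : Type) [Field F] [NumberField F] (B : Finset (Pl F)) (N : ℕ) (a : Pl F → 𝓞 F)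
    (ε : (F →+* ℝ) → ℝ), (∀ σ, ε σ ≠ 0) →
    ∃ x : 𝓞 F, x ≠ 0 ∧ (∀ v ∈ B, x - a v ∈ v.asIdeal ^ N) ∧ ∀ σ : F →+* ℝ, 0 < ε σ * σ (x : F)

/-! ## Part 1. Ray classes -/

/-- RCG: the ray class group is finite (from APX). -/
def ST_RCG : Prop :=
  ∀ (F : Type) [Field F] [NumberField F] (B : Finset (Pl F)) (N : ℕ), 0 < N →
    ∃ (G : Type) (_ : CommGroup G) (_ : Finite G) (cl : Ideal (𝓞 F) → G), IsRCG B N G cl

/-- PRT: every class contains ideals prime to a given finite set. -/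
def ST_PRT : Prop :=
  ∀ (F : Type) [Field F] [NumberField F] (B B' : Finset (Pl F)) (N : ℕ), 0 < N →
    ∀ (G : Type) [CommGroup G] [Finite G] (cl : Ideal (𝓞 F) → G), IsRCG B N G cl →
      ∀ g : G, ∃ I : Ideal (𝓞 F), Cop B I ∧ Cop B' I ∧ cl I = g

/-- RDU: ray characters are characters of the ray class group (from EV). -/
def ST_RDU : Prop :=
  ∀ (F : Type) [Field F] [NumberField F] (B : Finset (Pl F)) (N : ℕ), 0 < N →
    ∀ (G : Type) [CommGroup G] [Finite G] (cl : Ideal (𝓞 F) → G), IsRCG B N G cl →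
      (∀ ψ : G →* ℂˣ, IsRay B N (fun v => if v ∈ B then 1 else ψ (cl v.asIdeal)) ∧
        ∀ I : Ideal (𝓞 F), Cop B I →
          ev (fun v => if v ∈ B then 1 else ψ (cl v.asIdeal)) I = ψ (cl I)) ∧
      ∀ f : Pl F → ℂˣ, IsRay B N f → ∃ ψ : G →* ℂˣ, ∀ I : Ideal (𝓞 F), Cop B I → ev f I = ψ (cl I)

/-- XSG: `X` is a finite group (from RCG, RDU, EV). -/
def ST_XSG : Prop :=
  ∀ (F : Type) [Field F] [NumberField F] (Y : Subgroup (Gal F)) (B : Finset (Pl F)) (N : ℕ),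
    ∃ H : Subgroup (Pl F → ℂˣ), (H : Set (Pl F → ℂˣ)) = X Y B N ∧ Finite H

/-- RST: restriction to a larger set of bad places (from RCG, PRT, RDU, EV). -/
def ST_RST : Prop :=
  ∀ (F : Type) [Field F] [NumberField F] (B B' : Finset (Pl F)) (N N' : ℕ), B ⊆ B' → N ≤ N' →
    0 < N' →
    (∀ (Y : Subgroup (Gal F)), ∀ f ∈ X Y B N, (fun v => if v ∈ B' then 1 else f v) ∈ X Y B' N') ∧
    ∀ f g : Pl F → ℂˣ, IsRay B N f → IsRay B N g → (∀ v : Pl F, v ∉ B' → f v = g v) → f = g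

/-! ## Part 2. The second inequality -/

/-- some Frobenius element is in `Y`, `v` is unramified in the field of `Y` -/
def SplY {F : Type} [Field F] [NumberField F] (Y : Subgroup (Gal F)) (v : Pl F) : Prop :=
  ∃ 𝔓 : Ideal (Zb F), OverP v 𝔓 ∧ (∀ σ : Gal F, CongPow 𝔓 1 σ → σ ∈ Y) ∧
    ∃ σ : Gal F, σ ∈ Y ∧ CongPow 𝔓 (q v) σ

/-- SPY: the density of the places which split (from `all_SPL`). -/
def ST_SPY : Prop :=
  ∀ (F : Type) [Field F] [NumberField F] (Y : Subgroup (Gal F)), Y.Normal →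
    IsOpen (Y : Set (Gal F)) →
    HasMean (fun v : Pl F => if SplY Y v then (1 : ℝ) else 0) (1 / (Y.index : ℝ))

/-- DN1: equality of fields with the same split places (from SPY). -/
def ST_DN1 : Prop :=
  ∀ (F : Type) [Field F] [NumberField F] (Y₁ Y₂ : Subgroup (Gal F)), Y₁.Normal → Y₂.Normal →
    IsOpen (Y₁ : Set (Gal F)) → IsOpen (Y₂ : Set (Gal F)) → Y₁ ≤ Y₂ → ∀ B : Finset (Pl F),
    (∀ v : Pl F, v ∉ B → SplY Y₂ v → SplY Y₁ v) → Y₁ = Y₂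

/-- the tent function -/
noncomputable def tent (t : ℝ) : ℝ := max 0 (1 - |t|)

/-- TEN: the tent function. -/
def ST_TEN : Prop :=
  (∀ t, 0 ≤ tent t ∧ tent t ≤ 1) ∧ (∀ t, 1 ≤ |t| → tent t = 0) ∧
    (∀ s t, |tent s - tent t| ≤ |s - t|) ∧ ∀ t, HasSum (fun n : ℤ => tent (t + n)) 1

/-- coordinates of `logMap x` in the basis of the unit lattice -/
noncomputable def uco {F : Type} [Field F] [NumberField F] (x : mixedEmbedding.mixedSpace F)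
    (i : Fin (Units.rank F)) : ℝ :=
  ((Units.basisUnitLattice F).ofZLatticeBasis ℝ (Units.unitLattice F)).repr
    (mixedEmbedding.logMap x) i

/-- the weight: `0` if some real coordinate is not positive, otherwise a product of tents -/
noncomputable def wt {F : Type} [Field F] [NumberField F] (M : ℕ)
    (x : mixedEmbedding.mixedSpace F) : ℝ :=
  if ∀ w, 0 < x.1 w then ∏ i, tent (uco x i / M) else 0

/-- the function to sum -/
noncomputable def gs {F : Type} [Field F] [NumberField F] (M : ℕ) (s : ℝ)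
    (x : mixedEmbedding.mixedSpace F) : ℝ :=
  max 0 (min 1 (‖x‖ - 1)) * wt M x * mixedEmbedding.norm x ^ (-s)

/-- PUN: the sum of the weights over the totally positive units `≡ 1` (from TEN). -/
def ST_PUN : Prop :=
  ∀ (F : Type) [Field F] [NumberField F] (B : Finset (Pl F)) (N : ℕ),
    ∃ M g : ℕ, 0 < M ∧ 0 < g ∧ ∀ x : F, x ≠ 0 → TotPos x →
      HasSum (fun u : {u : (𝓞 F)ˣ // TotPos ((u : 𝓞 F) : F) ∧
        ∀ v ∈ B, (u : 𝓞 F) - 1 ∈ v.asIdeal ^ N} =>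
          wt M (mixedEmbedding F (((u : (𝓞 F)ˣ) : 𝓞 F) * x : F))) (g : ℝ)

/-- WSP: the support of the weight. -/
def ST_WSP : Prop :=
  ∀ (F : Type) [Field F] [NumberField F] (M : ℕ), 0 < M → ∃ c : ℝ, 0 < c ∧
    ∀ x : mixedEmbedding.mixedSpace F, wt M x ≠ 0 → mixedEmbedding.norm x ≠ 0 →
      ∀ w : InfinitePlace F, c * ‖x‖ ≤ mixedEmbedding.normAtPlace w x

/-- GBD: decay of `gs`, uniformly in `s` (from TEN, WSP). -/
def ST_GBD : Prop :=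
  ∀ (F : Type) [Field F] [NumberField F] (M : ℕ), 0 < M → ∃ C : ℝ,
    ∀ (s : ℝ), 1 ≤ s → s ≤ 2 → ∀ x : mixedEmbedding.mixedSpace F,
      0 ≤ gs M s x ∧ gs M s x ≤ C * (1 + ‖x‖) ^ (-(Module.finrank ℚ F * s))

/-- GLP: Lipschitz bound for `gs`, uniformly in `s` (from TEN, WSP, GBD). -/
def ST_GLP : Prop :=
  ∀ (F : Type) [Field F] [NumberField F] (M : ℕ), 0 < M → ∀ ρ : ℝ, ∃ C : ℝ, 0 ≤ C ∧
    ∀ (s : ℝ), 1 ≤ s → s ≤ 2 → ∀ x y : mixedEmbedding.mixedSpace F, ‖x - y‖ ≤ ρ →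
      |gs M s x - gs M s y| ≤ C * ‖x - y‖ * (1 + ‖x‖) ^ (-(Module.finrank ℚ F + 1 : ℝ))

/-- SUMI: sums over lattices and integrals. -/
def ST_SUMI : Prop :=
  ∀ (E : Type) [NormedAddCommGroup E] [NormedSpace ℝ E] [FiniteDimensional ℝ E]
    [MeasurableSpace E] [BorelSpace E] (μ : Measure E) [μ.IsAddHaarMeasure]
    (Λ : Submodule ℤ E) [DiscreteTopology Λ] [IsZLattice ℝ Λ],
    ∃ ρ K : ℝ, 0 < ρ ∧ 0 ≤ K ∧ ∀ (g : E → ℝ) (C : ℝ) (a : E), 0 ≤ C →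
      (∀ x y, ‖x - y‖ ≤ ρ →
        |g x - g y| ≤ C * ‖x - y‖ * (1 + ‖x‖) ^ (-(Module.finrank ℝ E + 1 : ℝ))) →
      Integrable g μ →
      Summable (fun l : Λ => g (a + l)) ∧
        |(∑' l : Λ, g (a + l)) - (ZLattice.covolume Λ μ)⁻¹ * ∫ x, g x ∂μ| ≤ K * C

/-- INTB: the integral of a function with the decay of `gs`. -/
def ST_INTB : Prop :=
  ∀ (E : Type) [NormedAddCommGroup E] [NormedSpace ℝ E] [FiniteDimensional ℝ E] [Nontrivial E]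
    [MeasurableSpace E] [BorelSpace E] (μ : Measure E) [μ.IsAddHaarMeasure],
    ∃ K : ℝ, 0 ≤ K ∧ ∀ (s : ℝ), 1 < s → s ≤ 2 →
      Integrable (fun x : E => (1 + ‖x‖) ^ (-(Module.finrank ℝ E * s))) μ ∧
      ∫ x : E, (1 + ‖x‖) ^ (-(Module.finrank ℝ E * s)) ∂μ ≤ K / (s - 1)

/-- the partial zeta function of a class -/
noncomputable def zc {F : Type} [Field F] [NumberField F] (B : Finset (Pl F)) {G : Type}
    (cl : Ideal (𝓞 F) → G) (c : G) (s : ℝ) (I : Ideal (𝓞 F)) : ℝ :=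
  if Cop B I ∧ cl I = c then (Ideal.absNorm I : ℝ) ^ (-s) else 0

/-- GEN: the partial zeta function of a class as a sum over elements (from PUN, PRT). -/
def ST_GEN : Prop :=
  ∀ (F : Type) [Field F] [NumberField F] (B : Finset (Pl F)) (N : ℕ), 0 < N →
    ∀ (G : Type) [CommGroup G] [Finite G] (cl : Ideal (𝓞 F) → G), IsRCG B N G cl →
    ∃ M g : ℕ, 0 < M ∧ 0 < g ∧ ∀ c : G, ∃ (𝔟 : Ideal (𝓞 F)) (α : 𝓞 F), Cop B 𝔟 ∧
      ∀ s : ℝ, 1 < s →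
        Summable (fun β : (𝔟 * ∏ v ∈ B, v.asIdeal ^ N : Ideal (𝓞 F)) =>
          wt M (mixedEmbedding F ((α + β : 𝓞 F) : F)) *
            mixedEmbedding.norm (mixedEmbedding F ((α + β : 𝓞 F) : F)) ^ (-s)) →
        Summable (zc B cl c s) ∧
        g * ∑' I, zc B cl c s I = (Ideal.absNorm 𝔟 : ℝ) ^ s *
          ∑' β : (𝔟 * ∏ v ∈ B, v.asIdeal ^ N : Ideal (𝓞 F)),
            wt M (mixedEmbedding F ((α + β : 𝓞 F) : F)) *
              mixedEmbedding.norm (mixedEmbedding F ((α + β : 𝓞 F) : F)) ^ (-s)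

/-- PZC: the partial zeta functions of the ray classes differ by bounded functions
(from GEN, GBD, GLP, SUMI, INTB). -/
def ST_PZC : Prop :=
  ∀ (F : Type) [Field F] [NumberField F] (B : Finset (Pl F)) (N : ℕ), 0 < N →
    ∀ (G : Type) [CommGroup G] [Finite G] (cl : Ideal (𝓞 F) → G), IsRCG B N G cl →
      ∃ (J : ℝ → ℝ) (C : ℝ), ∀ (c : G) (s : ℝ), 1 < s → s ≤ 2 →
        Summable (zc B cl c s) ∧ |(∑' I, zc B cl c s I) - J s| ≤ C

/-- the terms of the `L`-series -/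
noncomputable def lt {F : Type} [Field F] [NumberField F] (B : Finset (Pl F)) (f : Pl F → ℂˣ)
    (s : ℝ) (I : Ideal (𝓞 F)) : ℂ :=
  if Cop B I then ((ev f I : ℂˣ) : ℂ) * (((Ideal.absNorm I : ℝ) ^ (-s) : ℝ) : ℂ) else 0

/-- EUL: the logarithm of the Euler product. -/
def ST_EUL : Prop :=
  ∀ (F : Type) [Field F] [NumberField F] (B : Finset (Pl F)) (f : Pl F → ℂˣ),
    (∀ v, ‖(f v : ℂ)‖ = 1) → ∃ C : ℝ, ∀ s : ℝ, 1 < s → s ≤ 2 →
      Summable (lt B f s) ∧ (∑' I, lt B f s I) ≠ 0 ∧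
      ∑' v : Pl F, (f v : ℂ).re * (q v : ℝ) ^ (-s) ≤ Real.log ‖∑' I, lt B f s I‖ + C

/-- LBD: no pole for nontrivial ray characters (from RCG, RDU, PZC, EUL). -/
def ST_LBD : Prop :=
  ∀ (F : Type) [Field F] [NumberField F] (B : Finset (Pl F)) (N : ℕ) (f : Pl F → ℂˣ),
    IsRay B N f → f ≠ 1 → ∃ C : ℝ, ∀ s : ℝ, 1 < s → s ≤ 2 →
      ∑' v : Pl F, (f v : ℂ).re * (q v : ℝ) ^ (-s) ≤ C

/-- SND: the second inequality (from LBD, SPY, XSG). -/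
def ST_SND : Prop :=
  ∀ (F : Type) [Field F] [NumberField F] (Y : Subgroup (Gal F)), Y.Normal →
    IsOpen (Y : Set (Gal F)) → ∀ (B : Finset (Pl F)) (N : ℕ), (X Y B N).ncard ≤ Y.index

end REC
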