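import Pool.Agent.Helper85.REC.Stmts13
import Pool.Agent.Helper27.REC.DefX

/-!
# Reciprocity, part 12: motives with coefficients in a number field
Proofs: /team-store/h57_blueprint12.md   [helper57]
-/

set_option autoImplicit false

open scoped Classical
open NumberField Polynomial

namespace REC

open Pool.Agent.Helper13.ZL (Pl q)
open MU

/-! ## A. Linear algebra -/

/-- the homomorphisms from `r` to `s` -/
def Hmk {G K : Type} [Group G] [Field K] {n m : ℕ} (r : G →* Matrix (Fin n) (Fin n) K)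
    (s : G →* Matrix (Fin m) (Fin m) K) : Submodule K (Matrix (Fin m) (Fin n) K) where
  carrier := {u | ∀ g, u * r g = s g * u}
  add_mem' := fun {a b} ha hb g => by rw [Matrix.add_mul, Matrix.mul_add, ha g, hb g]
  zero_mem' := fun g => by rw [Matrix.zero_mul, Matrix.mul_zero]
  smul_mem' := fun c a ha g => by rw [Matrix.smul_mul, Matrix.mul_smul, ha g]

/-- XDS: homomorphisms and complete reducibility over a larger field. -/
def ST_XDS : Prop :=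
  ∀ (G K Ω : Type) [Group G] [Field K] [Field Ω] (κ : K →+* Ω) (n m : ℕ)
    (r : G →* Matrix (Fin n) (Fin n) K) (s : G →* Matrix (Fin m) (Fin m) K),
    Module.finrank Ω (Hmk (mapk κ r) (mapk κ s)) = Module.finrank K (Hmk r s) ∧
    (IsSS (mapk κ r) → IsSS r)

/-- XLF: lifting endomorphisms by comparing dimensions. -/
def ST_XLF : Prop :=
  ∀ (G : Type) [Group G] (n l : ℕ) [Fact l.Prime]
    (r : G →* Matrix.GeneralLinearGroup (Fin n) ℤ_[l]),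
    Module.finrank (ZMod l) (Hmk (res r) (res r)) ≤ Module.finrank ℚ_[l] (Hmk (rat r) (rat r)) →
    ∀ u : Matrix (Fin n) (Fin n) (ZMod l), (∀ g, u * res r g = res r g * u) →
      ∃ x : Matrix (Fin n) (Fin n) ℤ_[l], x.map (PadicInt.toZMod (p := l)) = u ∧
        ∀ g, x * (r g : Matrix (Fin n) (Fin n) ℤ_[l]) = r g * x

/-- XDC: endomorphisms of a direct sum. -/
def ST_XDC : Prop :=
  ∀ (G K : Type) [Group G] [Field K] (n k : ℕ) (m : Fin k → ℕ) (r : G →* Matrix (Fin n) (Fin n) K)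
    (s : ∀ i, G →* Matrix (Fin (m i)) (Fin (m i)) K) (P : ∀ i, Matrix (Fin (m i)) (Fin n) K)
    (Q : ∀ i, Matrix (Fin n) (Fin (m i)) K), (∀ i, P i * Q i = 1) →
    (∀ i j, i ≠ j → P i * Q j = 0) → ∑ i, Q i * P i = 1 → (∀ i g, P i * r g = s i g * P i) →
    Module.finrank K (Hmk r r) = ∑ i, ∑ j, Module.finrank K (Hmk (s i) (s j))

/-- XCP: the characteristic polynomial of a direct sum. -/
def ST_XCP : Prop :=
  ∀ (K : Type) [Field K] (n k : ℕ) (m : Fin k → ℕ) (r : Matrix (Fin n) (Fin n) K)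
    (s : ∀ i, Matrix (Fin (m i)) (Fin (m i)) K) (P : ∀ i, Matrix (Fin (m i)) (Fin n) K)
    (Q : ∀ i, Matrix (Fin n) (Fin (m i)) K), (∀ i, P i * Q i = 1) →
    (∀ i j, i ≠ j → P i * Q j = 0) → ∑ i, Q i * P i = 1 → (∀ i, P i * r = s i * P i) →
    r.charpoly = ∏ i, (s i).charpoly

/-- XSC: Schur's lemma. -/
def ST_XSC : Prop :=
  ∀ (G K : Type) [Group G] [Field K] [IsAlgClosed K] (n m : ℕ)
    (r : G →* Matrix (Fin n) (Fin n) K) (s : G →* Matrix (Fin m) (Fin m) K), IsIrr r → IsIrr s →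
    Module.finrank K (Hmk r s) ≤ 1 ∧
    ∀ u ∈ Hmk r s, u ≠ 0 → n = m ∧ ∀ g, (r g).trace = (s g).trace

/-- XCS: restriction to a subgroup of finite index in characteristic zero (from CLF, AVS). -/
def ST_XCS : Prop :=
  ∀ (G H K : Type) [Group G] [Group H] [Field K] [CharZero K] (φ : H →* G) (n : ℕ)
    (r : G →* Matrix (Fin n) (Fin n) K), φ.range.index ≠ 0 → IsSS r → IsSS (r.comp φ)

/-- XIG: rational idempotents and integral bases. -/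
def ST_XIG : Prop :=
  ∀ (n : ℕ) (e : Matrix (Fin n) (Fin n) ℚ), e * e = e →
    ∃ (r : ℕ) (P : Matrix (Fin r) (Fin n) ℤ) (C : Matrix (Fin n) (Fin r) ℤ)
      (Q : Matrix (Fin n) (Fin r) ℚ), P * C = 1 ∧ P.map (Int.castRingHom ℚ) * Q = 1 ∧
        Q * P.map (Int.castRingHom ℚ) = e

/-- the values of the variables: `a` and the coefficients of `f` -/
def Cof {A : Type} [CommRing A] (a : A) (f : Polynomial A) : ℕ → A
  | 0 => a
  | i + 1 => f.coeff i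

/-- `H` describes the products of `j` of the `m` roots of a monic polynomial -/
def IsEsp (m j : ℕ) (H : MvPolynomial ℕ ℤ) : Prop :=
  ∀ (Ω : Type) [Field Ω] [IsAlgClosed Ω] (f : Polynomial Ω), f.Monic → f.natDegree = m → ∀ a : Ω,
    MvPolynomial.aeval (Cof a f) H = 0 ↔ ∃ s : Multiset Ω, s ≤ f.roots ∧ s.card = j ∧ s.prod = a

/-- ESP: existence of `H`. -/
def ST_ESP : Prop := ∀ m j : ℕ, ∃ H : MvPolynomial ℕ ℤ, IsEsp m j H

/-! ## B. Blocks -/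

/-- the summands `b i` form a decomposition of `L^n` -/
def IsDcp {n k : ℕ} {L : Type} [Field L] [NumberField L] {m : Fin k → ℕ}
    (b : ∀ i, Blo n (m i) L) : Prop :=
  (∀ i j, i ≠ j → (b i).P * (b j).Q = 0) ∧ ∃ N : ℕ, 0 < N ∧ (∀ i, (b i).N = N) ∧
    ∑ i, (b i).Q * (b i).P = (N : 𝓞 L) • (1 : Matrix (Fin n) (Fin n) (𝓞 L))

/-- `e` is the projection to the sum of the summands in `B` -/
def IsRt {n k : ℕ} {L : Type} [Field L] [NumberField L] {m : Fin k → ℕ}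
    (b : ∀ i, Blo n (m i) L) (B : Finset (Fin k)) (e : Matrix (Fin n) (Fin n) ℚ) : Prop :=
  ∃ N : ℕ, 0 < N ∧ (∀ i, (b i).N = N) ∧
    (N : L) • e.map (algebraMap ℚ L) =
      (∑ i ∈ B, (b i).Q * (b i).P).map (algebraMap (𝓞 L) L)

/-- the same summand over a larger field -/
def Blo.ext {n m : ℕ} {L L' : Type} [Field L] [NumberField L] [Field L'] [NumberField L']
    (b : Blo n m L) (f : L →+* L') : Blo n m L' where
  N := b.N
  P := b.P.map (RingOfIntegers.mapRingHom f)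
  Q := b.Q.map (RingOfIntegers.mapRingHom f)
  pos := b.pos
  PQ := by
    rw [← Matrix.map_mul, b.PQ, Matrix.map_smul' _ _ _ (map_mul _), map_natCast,
      Matrix.map_one _ (map_zero _) (map_one _)]

section

variable {n m : ℕ} {L : Type} [Field L] [NumberField L]

variable {F : Type} [Field F] [NumberField F]

/-- in characteristic zero an open subgroup acts commutatively on the summand -/
def Blo.Ab (b : Blo n m L) (ρ : Fml F n) : Prop :=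
  ∃ H : Subgroup (Gal F), IsOpen (H : Set (Gal F)) ∧ ∀ (l : ℕ) [Fact l.Prime] (Ω : Type) [Field Ω]
    [CharZero Ω] (ϑ : ℤ_[l] →+* Ω) (ι : 𝓞 L →+* Ω) (R : Gal F →* Matrix (Fin m) (Fin m) Ω),
    b.At (ρ l) ϑ ι R → ∀ g ∈ H, ∀ g' ∈ H, R g * R g' = R g' * R g

/-- the summand is irreducible in characteristic zero -/
def Blo.Ir0 (b : Blo n m L) (ρ : Fml F n) : Prop :=
  ∀ (l : ℕ) [Fact l.Prime] (Ω : Type) [Field Ω] [CharZero Ω] (ϑ : ℤ_[l] →+* Ω) (ι : 𝓞 L →+* Ω)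
    (R : Gal F →* Matrix (Fin m) (Fin m) Ω), b.At (ρ l) ϑ ι R → IsIrr R

/-- the summand is irreducible in almost all characteristics -/
def Blo.Irl (b : Blo n m L) (ρ : Fml F n) : Prop :=
  ∃ c : ℕ, ∀ (l : ℕ) [Fact l.Prime], c < l → ∀ (Ω : Type) [Field Ω] (ϑ : ℤ_[l] →+* Ω)
    (ι : 𝓞 L →+* Ω) (R : Gal F →* Matrix (Fin m) (Fin m) Ω), (l : Ω) = 0 → b.At (ρ l) ϑ ι R →
      IsIrr R

/-- The theory of Fontaine and Laffaille for the summand: for large `l` the inertia groups at the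
places over `l` act on the determinants of the stable subspaces of the reductions, and of the
reductions, by products of conjugates of the tame character; the exponents are given by Hodge
types; if `d` holds these are different. -/
def Blo.FLb (b : Blo n m L) (h : Fin n → ℕ) (d : Prop) (ρ : Fml F n) : Prop :=
  ∃ c : ℕ, ∀ (l : ℕ) [Fact l.Prime], c < l → ∀ (Ω : Type) [Field Ω] (ϑ : ℤ_[l] →+* Ω)
    (ι : 𝓞 L →+* Ω) (ι' : 𝓞 (AlgebraicClosure F) →+* Ω) (R : Gal F →* Matrix (Fin m) (Fin m) Ω),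
    (l : Ω) = 0 → b.At (ρ l) ϑ ι R → ∀ (j : ℕ) (B : Matrix (Fin m) (Fin j) Ω)
      (A : Gal F → Matrix (Fin j) (Fin j) Ω), IsSub R B A → ∀ v : Pl F, (l : 𝓞 F) ∈ v.asIdeal →
      ∃ J J' : (F →+* AlgebraicClosure F) → Finset (Fin n),
        (∀ τ, J τ ⊆ J' τ ∧ (J τ).card = j ∧ (J' τ).card = m ∧
          (d → ∀ i ∈ J' τ, ∀ i' ∈ J' τ, h i = h i' → i = i')) ∧
        ∀ (π : 𝓞 F), π ∈ v.asIdeal → π ∉ v.asIdeal ^ 2 → ∀ 𝔓 : Ideal (Zb F), OverP v 𝔓 →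
          ∀ σ : Gal F, CongPow 𝔓 1 σ → ∀ u : 𝓞 F, u ∉ v.asIdeal → Tm v 𝔓 π σ u →
            (A σ).det * tmp ι' v (fun τ => ∑ i ∈ J τ, h i) u = 1 ∧
            (R σ).det * tmp ι' v (fun τ => ∑ i ∈ J' τ, h i) u = 1

/-- The summands of the theorem: potentially abelian; of rank two, regular and irreducible in
characteristic zero; with large image; irreducible in almost all characteristics. -/
def Blo.Typ (b : Blo n m L) (h : Fin n → ℕ) (ρ : Fml F n) : Prop :=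
  b.Ab ρ ∨ (m = 2 ∧ b.Ir0 ρ ∧ b.FLb h True ρ) ∨ (b.Big ρ ∧ b.FLb h False ρ) ∨ b.Irl ρ

/-- continuous families on which inertia outside `l` acts unipotently -/
def IsUn (ρ : Fml F n) : Prop :=
  (∀ (l : ℕ) [Fact l.Prime], Continuous (ρ l)) ∧
  ∀ (l : ℕ) [Fact l.Prime] (p : ℕ), p.Prime → p ≠ l → ∀ 𝔓 : Ideal (Zb F), Over p 𝔓 →
    ∀ σ : Gal F, CongPow 𝔓 1 σ → (rat (ρ l) σ - 1) ^ n = 0

/-- at every element every eigenvalue on `b'` (for `ι`) is an eigenvalue on `b` (for `ι ∘ γ`) -/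
def Blo.Dv (b : Blo n m L) {m' : ℕ} (b' : Blo n m' L) (γ : L →+* L) (ρ : Fml F n) : Prop :=
  ∀ (l : ℕ) [Fact l.Prime] (Ω : Type) [Field Ω] [CharZero Ω] (ϑ : ℤ_[l] →+* Ω) (ι : 𝓞 L →+* Ω)
    (R : Gal F →* Matrix (Fin m) (Fin m) Ω) (R' : Gal F →* Matrix (Fin m') (Fin m') Ω),
    b.At (ρ l) ϑ (ι.comp (RingOfIntegers.mapRingHom γ)) R → b'.At (ρ l) ϑ ι R' →
    ∀ g, (aeval (R' g) (R g).charpoly) ^ m' = 0

end

/-- XEN: enlarging the field of coefficients. -/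
def ST_XEN : Prop :=
  ∀ (L L' : Type) [Field L] [NumberField L] [Field L'] [NumberField L'] (f : L →+* L') (n : ℕ),
    (∀ (k : ℕ) (m : Fin k → ℕ) (b : ∀ i, Blo n (m i) L), IsDcp b →
      IsDcp (fun i => (b i).ext f)) ∧
    ∀ (m : ℕ) (b : Blo n m L) (F : Type) [Field F] [NumberField F] (ρ : Fml F n),
      (b.Stb ρ → (b.ext f).Stb ρ) ∧ (∀ S : Finset ℕ, b.Cmp S ρ → (b.ext f).Cmp S ρ) ∧
      (b.Ab ρ → (b.ext f).Ab ρ) ∧ (b.Ir0 ρ → (b.ext f).Ir0 ρ) ∧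
      (∀ (h : Fin n → ℕ) (d : Prop), b.FLb h d ρ → (b.ext f).FLb h d ρ) ∧
      (b.Big ρ → (b.ext f).Big ρ) ∧ (b.Irl ρ ↔ (b.ext f).Irl ρ)

/-- XGL: Galois extensions of `ℚ` containing two number fields. -/
def ST_XGL : Prop :=
  ∀ (F L : Type) [Field F] [NumberField F] [Field L] [NumberField L],
    ∃ (L' : Type) (_ : Field L') (_ : NumberField L'), IsGalois ℚ L' ∧ Nonempty (L →+* L') ∧
      Nonempty (F →+* L')

/-- XDN: density for polynomial identities (from FRB). -/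
def ST_XDN : Prop :=
  ∀ (F : Type) [Field F] [NumberField F] (n l : ℕ) [Fact l.Prime]
    (r : Gal F →* Matrix.GeneralLinearGroup (Fin n) ℤ_[l]), Continuous r →
    ∀ (Ω : Type) [Field Ω] [CharZero Ω] (ϑ : ℤ_[l] →+* Ω) (Y : MvPolynomial (Fin n × Fin n) Ω)
      (S : Finset ℕ),
      (∀ (p : ℕ) (𝔓 : Ideal (Zb F)) (k : ℕ) (σ : Gal F), p.Prime → p ∉ S → Over p 𝔓 → 1 ≤ k →
        CongPow 𝔓 (p ^ k) σ →
        MvPolynomial.eval (fun i => ϑ ((r σ⁻¹ : Matrix (Fin n) (Fin n) ℤ_[l]) i.1 i.2)) Y = 0) →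
      ∀ g : Gal F, MvPolynomial.eval (fun i => ϑ ((r g : Matrix (Fin n) (Fin n) ℤ_[l]) i.1 i.2)) Y
        = 0

/-- XTR: polynomial identities between the coefficients of the characteristic polynomials on an
open set, from one field of characteristic zero to all residual ones (from FRB; see TRP). -/
def ST_XTR : Prop :=
  ∀ (F L : Type) [Field F] [NumberField F] [Field L] [NumberField L] (n m : ℕ) (b : Blo n m L)
    (S : Finset ℕ) (ρ : Fml F n), (∀ (l : ℕ) [Fact l.Prime], Continuous (ρ l)) → b.Cmp S ρ →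
    ∀ U : Set (Gal F), IsOpen U → ∀ (Y : MvPolynomial ℕ ℤ) (l₀ : ℕ) [Fact l₀.Prime] (Ω₀ : Type)
      [Field Ω₀] [CharZero Ω₀] (ϑ₀ : ℤ_[l₀] →+* Ω₀) (ι₀ : 𝓞 L →+* Ω₀)
      (R₀ : Gal F →* Matrix (Fin m) (Fin m) Ω₀), b.At (ρ l₀) ϑ₀ ι₀ R₀ →
      (∀ σ ∈ U, MvPolynomial.aeval (fun i => (R₀ σ).charpoly.coeff i) Y = 0) →
      ∀ (l : ℕ) [Fact l.Prime] (Ω : Type) [Field Ω] (ϑ : ℤ_[l] →+* Ω) (ι : 𝓞 L →+* Ω)
        (R : Gal F →* Matrix (Fin m) (Fin m) Ω), (l : Ω) = 0 → b.At (ρ l) ϑ ι R →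
        ∀ σ ∈ U, MvPolynomial.aeval (fun i => (R σ).charpoly.coeff i) Y = 0

/-- XEQ: two summands with the same traces modulo infinitely many `l` have the same traces
(from XDN). -/
def ST_XEQ : Prop :=
  ∀ (F L : Type) [Field F] [NumberField F] [Field L] [NumberField L] (n m m' : ℕ) (b : Blo n m L)
    (b' : Blo n m' L) (S : Finset ℕ) (ρ : Fml F n), (∀ (l : ℕ) [Fact l.Prime], Continuous (ρ l)) →
    b.Cmp S ρ → b'.Cmp S ρ →
    (∀ c : ℕ, ∃ (l : ℕ) (_ : Fact l.Prime), c < l ∧ ∃ (Ω : Type) (_ : Field Ω) (ϑ : ℤ_[l] →+* Ω)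
      (ι : 𝓞 L →+* Ω) (R : Gal F →* Matrix (Fin m) (Fin m) Ω)
      (R' : Gal F →* Matrix (Fin m') (Fin m') Ω), (l : Ω) = 0 ∧ b.At (ρ l) ϑ ι R ∧
        b'.At (ρ l) ϑ ι R' ∧ ∀ g, (R g).trace = (R' g).trace) →
    ∀ (l : ℕ) [Fact l.Prime] (Ω : Type) [Field Ω] [CharZero Ω] (ϑ : ℤ_[l] →+* Ω)
      (ι : 𝓞 L →+* Ω) (R : Gal F →* Matrix (Fin m) (Fin m) Ω)
      (R' : Gal F →* Matrix (Fin m') (Fin m') Ω), b.At (ρ l) ϑ ι R → b'.At (ρ l) ϑ ι R' →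
      ∀ g, (R g).trace = (R' g).trace

/-- XDV: the same for the eigenvalues (from XDN; see PAA). -/
def ST_XDV : Prop :=
  ∀ (F L : Type) [Field F] [NumberField F] [Field L] [NumberField L] (n m m' : ℕ) (b : Blo n m L)
    (b' : Blo n m' L) (γ : L →+* L) (S : Finset ℕ) (ρ : Fml F n),
    (∀ (l : ℕ) [Fact l.Prime], Continuous (ρ l)) → b.Cmp S ρ → b'.Cmp S ρ →
    (∀ c : ℕ, ∃ (l : ℕ) (_ : Fact l.Prime), c < l ∧ ∃ (Ω : Type) (_ : Field Ω) (ϑ : ℤ_[l] →+* Ω)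
      (ι : 𝓞 L →+* Ω) (R : Gal F →* Matrix (Fin m) (Fin m) Ω)
      (R' : Gal F →* Matrix (Fin m') (Fin m') Ω), (l : Ω) = 0 ∧
        b.At (ρ l) ϑ (ι.comp (RingOfIntegers.mapRingHom γ)) R ∧ b'.At (ρ l) ϑ ι R' ∧
        ∀ g, aeval (R' g) (R g).charpoly = 0) → b.Dv b' γ ρ

/-- XI0: irreducible reductions give irreducible representations in characteristic zero. -/
def ST_XI0 : Prop :=
  ∀ (F L : Type) [Field F] [NumberField F] [Field L] [NumberField L] (n m : ℕ) (b : Blo n m L)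
    (ρ : Fml F n), b.Irl ρ → ∃ c : ℕ, ∀ (l : ℕ) [Fact l.Prime], c < l → ∀ (Ω : Type) [Field Ω]
      [CharZero Ω] (ϑ : ℤ_[l] →+* Ω) (ι : 𝓞 L →+* Ω) (R : Gal F →* Matrix (Fin m) (Fin m) Ω),
      b.At (ρ l) ϑ ι R → IsIrr R

/-- XPR: homomorphisms between two summands (from XSC, XEQ, XI0, SEM). -/
def ST_XPR : Prop :=
  ∀ (F L : Type) [Field F] [NumberField F] [Field L] [NumberField L] (n m m' : ℕ) (b : Blo n m L)
    (b' : Blo n m' L) (S : Finset ℕ) (ρ : Fml F n), (∀ (l : ℕ) [Fact l.Prime], Continuous (ρ l)) →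
    b.Cmp S ρ → b'.Cmp S ρ → b.Irl ρ → b'.Irl ρ →
    ∃ c : ℕ, ∀ (l : ℕ) [Fact l.Prime], c < l → ∀ (Ω : Type) [Field Ω] [IsAlgClosed Ω]
      (ϑ : ℤ_[l] →+* Ω) (ι : 𝓞 L →+* Ω) (R : Gal F →* Matrix (Fin m) (Fin m) Ω)
      (R' : Gal F →* Matrix (Fin m') (Fin m') Ω), (l : Ω) = 0 → b.At (ρ l) ϑ ι R →
      b'.At (ρ l) ϑ ι R' → ∀ (Ω₀ : Type) [Field Ω₀] [CharZero Ω₀] (ϑ₀ : ℤ_[l] →+* Ω₀)
      (ι₀ : 𝓞 L →+* Ω₀) (R₀ : Gal F →* Matrix (Fin m) (Fin m) Ω₀)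
      (R₀' : Gal F →* Matrix (Fin m') (Fin m') Ω₀), b.At (ρ l) ϑ₀ ι₀ R₀ →
      b'.At (ρ l) ϑ₀ ι₀ R₀' →
      Module.finrank Ω (Hmk R R') ≤ Module.finrank Ω₀ (Hmk R₀ R₀')

/-- XEE: sums of residually irreducible summands (from XPR, XDS, XDC, XLF, SSD). -/
def ST_XEE : Prop :=
  ∀ (F L : Type) [Field F] [NumberField F] [Field L] [NumberField L] (n k : ℕ) (m : Fin k → ℕ)
    (b : ∀ i, Blo n (m i) L) (S : Finset ℕ) (ρ : Fml F n),
    (∀ (l : ℕ) [Fact l.Prime], Continuous (ρ l)) → IsDcp b →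
    (∀ i, (b i).Stb ρ ∧ (b i).Cmp S ρ ∧ (b i).Irl ρ) →
    ∃ c : ℕ, ∀ (l : ℕ) [Fact l.Prime], c < l → Lft (ρ l)

/-! ## C. Summands of rank two -/

section

variable {n m : ℕ} {L : Type} [Field L] [NumberField L] {F : Type} [Field F] [NumberField F]

/-- The reduction at `l` has over `Ω` two characters `δ s` as constituents; on inertia they
are given by different Hodge types. -/
def Blo.Dat (b : Blo n 2 L) (h : Fin n → ℕ) (ρ : Fml F n) (l : ℕ) [Fact l.Prime] : Prop :=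
  ∃ (Ω : Type) (_ : Field Ω) (ϑ : ℤ_[l] →+* Ω) (ι : 𝓞 L →+* Ω)
    (R : Gal F →* Matrix (Fin 2) (Fin 2) Ω) (δ : Fin 2 → Gal F →* Ωˣ)
    (a : Fin 2 → (F →+* L) → Fin n), (l : Ω) = 0 ∧ b.At (ρ l) ϑ ι R ∧
    (∀ τ, h (a 0 τ) ≠ h (a 1 τ)) ∧ (∀ s, IsOpen ((δ s).ker : Set (Gal F))) ∧
    (∀ s (v : Pl F), (l : 𝓞 F) ∉ v.asIdeal → Unr (δ s) v) ∧
    (∀ s (v : Pl F), (l : 𝓞 F) ∈ v.asIdeal → ∀ (π : 𝓞 F), π ∈ v.asIdeal → π ∉ v.asIdeal ^ 2 →
      ∀ 𝔓 : Ideal (Zb F), OverP v 𝔓 → ∀ σ : Gal F, CongPow 𝔓 1 σ → ∀ u : 𝓞 F, u ∉ v.asIdeal →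
        Tm v 𝔓 π σ u → ((δ s σ : Ωˣ) : Ω) * ∏ τ : F →+* L,
          (if RingHom.ker (ι.comp (RingOfIntegers.mapRingHom τ)) = v.asIdeal then
            ι (RingOfIntegers.mapRingHom τ u) ^ h (a s τ) else 1) = 1) ∧
    ∀ g : Gal F, (R g).charpoly = ∏ s, (Polynomial.X - C ((δ s g : Ωˣ) : Ω))

/-- The exact relation: if `(x) = v ^ k`, `x` totally positive, then the numbers
`∏ τ, τ x ^ (e s τ)` are the eigenvalues of the `k`-th power of the geometric Frobenius at `v` on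
the summand (and the same for the `j`-th powers). -/
def Blo.Rlx (b : Blo n 2 L) (ρ : Fml F n) (e : Fin 2 → (F →+* L) → ℕ) : Prop :=
  (∀ τ, e 0 τ ≠ e 1 τ) ∧ ∃ S' : Finset ℕ,
    ∀ (v : Pl F) (p : ℕ) (𝔓 : Ideal (Zb F)) (j k : ℕ) (σ : Gal F) (x : 𝓞 F) (Φ : (𝓞 L)[X]),
      p.Prime → p ∉ S' → (p : 𝓞 F) ∈ v.asIdeal → OverP v 𝔓 → 0 < j → 0 < k →
      CongPow 𝔓 (q v ^ j) σ → TotPos (x : F) → Ideal.span {x} = v.asIdeal ^ k →
      (∀ (l : ℕ) [Fact l.Prime], l ≠ p → ∀ (Ω : Type) [Field Ω] (ϑ : ℤ_[l] →+* Ω)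
        (ι : 𝓞 L →+* Ω) (R : Gal F →* Matrix (Fin 2) (Fin 2) Ω), b.At (ρ l) ϑ ι R →
          (R ((σ ^ k)⁻¹)).charpoly = Φ.map ι) →
      Φ = ∏ s, (Polynomial.X - C (∏ τ : F →+* L, RingOfIntegers.mapRingHom τ x ^ (e s τ * j)))

/-- The reduction at `l` has over `Ω` a constituent of dimension `j` whose determinant `δ` is given
on inertia by Hodge types. -/
def Blo.Dtj (b : Blo n m L) (h : Fin n → ℕ) (ρ : Fml F n) (l : ℕ) [Fact l.Prime] (j : ℕ) : Prop :=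
  ∃ (Ω : Type) (_ : Field Ω) (_ : IsAlgClosed Ω) (ϑ : ℤ_[l] →+* Ω) (ι : 𝓞 L →+* Ω)
    (R : Gal F →* Matrix (Fin m) (Fin m) Ω) (δ : Gal F →* Ωˣ) (J : (F →+* L) → Finset (Fin n)),
    (l : Ω) = 0 ∧ b.At (ρ l) ϑ ι R ∧ IsOpen (δ.ker : Set (Gal F)) ∧
    (∀ v : Pl F, (l : 𝓞 F) ∉ v.asIdeal → Unr δ v) ∧
    (∀ v : Pl F, (l : 𝓞 F) ∈ v.asIdeal → ∀ (π : 𝓞 F), π ∈ v.asIdeal → π ∉ v.asIdeal ^ 2 →
      ∀ 𝔓 : Ideal (Zb F), OverP v 𝔓 → ∀ σ : Gal F, CongPow 𝔓 1 σ → ∀ u : 𝓞 F, u ∉ v.asIdeal →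
        Tm v 𝔓 π σ u → ((δ σ : Ωˣ) : Ω) * ∏ τ : F →+* L,
          (if RingHom.ker (ι.comp (RingOfIntegers.mapRingHom τ)) = v.asIdeal then
            ι (RingOfIntegers.mapRingHom τ u) ^ (∑ i ∈ J τ, h i) else 1) = 1) ∧
    ∀ g : Gal F, ∃ s : Multiset Ω, s ≤ (R g).charpoly.roots ∧ s.card = j ∧
      s.prod = ((δ g : Ωˣ) : Ω)

/-- The exact relation: if `(x) = v ^ k`, `x` totally positive, then `∏ τ, τ x ^ (e τ)` is a product
of eigenvalues (as described by `H`) of the `k`-th power of the geometric Frobenius at `v` on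
the summand (and the same for the `i`-th powers). -/
def Blo.Rlj (b : Blo n m L) (ρ : Fml F n) (H : MvPolynomial ℕ ℤ) (e : (F →+* L) → ℕ) : Prop :=
  ∃ S' : Finset ℕ,
    ∀ (v : Pl F) (p : ℕ) (𝔓 : Ideal (Zb F)) (i k : ℕ) (σ : Gal F) (x : 𝓞 F) (Φ : (𝓞 L)[X]),
      p.Prime → p ∉ S' → (p : 𝓞 F) ∈ v.asIdeal → OverP v 𝔓 → 0 < i → 0 < k →
      CongPow 𝔓 (q v ^ i) σ → TotPos (x : F) → Ideal.span {x} = v.asIdeal ^ k →
      (∀ (l : ℕ) [Fact l.Prime], l ≠ p → ∀ (Ω : Type) [Field Ω] (ϑ : ℤ_[l] →+* Ω)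
        (ι : 𝓞 L →+* Ω) (R : Gal F →* Matrix (Fin m) (Fin m) Ω), b.At (ρ l) ϑ ι R →
          (R ((σ ^ k)⁻¹)).charpoly = Φ.map ι) →
      MvPolynomial.aeval
        (Cof (∏ τ : F →+* L, RingOfIntegers.mapRingHom τ x ^ (e τ * i)) Φ) H = 0

end

/-- XFD: reducible reductions give the data (from OVP, CNV; see FD2). -/
def ST_XFD : Prop :=
  ∀ (F L : Type) [Field F] [NumberField F] [Field L] [NumberField L] [IsGalois ℚ L]
    [Nonempty (F →+* L)] (n : ℕ) (h : Fin n → ℕ) (b : Blo n 2 L) (ρ : Fml F n), IsUn ρ →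
    b.Stb ρ → b.FLb h True ρ → ¬ b.Irl ρ →
    ∀ c : ℕ, ∃ (l : ℕ) (_ : Fact l.Prime), c < l ∧ b.Dat h ρ l

/-- XRL: the exact relation from the data at infinitely many `l`
(from LART, EV, FRV; see REL3). -/
def ST_XRL : Prop :=
  ∀ (F L : Type) [Field F] [NumberField F] [Field L] [NumberField L] [IsGalois ℚ L]
    [Nonempty (F →+* L)] (n : ℕ) (h : Fin n → ℕ) (b : Blo n 2 L) (ρ : Fml F n),
    (∀ c : ℕ, ∃ (l : ℕ) (_ : Fact l.Prime), c < l ∧ b.Dat h ρ l) →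
    ∃ e : Fin 2 → (F →+* L) → ℕ, b.Rlx ρ e

/-- XLN: the exact relation gives a line stable under an open subgroup
(from SPQ, FRB, OVP; see LIN0). -/
def ST_XLN : Prop :=
  ∀ (F L : Type) [Field F] [NumberField F] [Field L] [NumberField L] [IsGalois ℚ L]
    [Nonempty (F →+* L)] (n : ℕ) (b : Blo n 2 L) (S : Finset ℕ) (ρ : Fml F n),
    (∀ (l : ℕ) [Fact l.Prime], Continuous (ρ l)) → b.Stb ρ → b.Cmp S ρ →
    ∀ e : Fin 2 → (F →+* L) → ℕ, b.Rlx ρ e →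
    ∃ (l : ℕ) (_ : Fact l.Prime) (ι : 𝓞 L →+* ℚ_[l]) (R : Gal F →* Matrix (Fin 2) (Fin 2) ℚ_[l])
      (H : Subgroup (Gal F)) (B : Matrix (Fin 2) (Fin 1) ℚ_[l])
      (A : H → Matrix (Fin 1) (Fin 1) ℚ_[l]), b.At (ρ l) (algebraMap ℤ_[l] ℚ_[l]) ι R ∧
        IsOpen (H : Set (Gal F)) ∧ IsSub (R.comp H.subtype) B A

/-- XNF: the data occur for finitely many `l` only (from XRL, XLN, XTR, CL2, PIN, OVP; see NF2). -/
def ST_XNF : Prop :=
  ∀ (F L : Type) [Field F] [NumberField F] [Field L] [NumberField L] [IsGalois ℚ L]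
    [Nonempty (F →+* L)] (n : ℕ) (h : Fin n → ℕ) (b : Blo n 2 L) (S : Finset ℕ) (ρ : Fml F n),
    (∀ (l : ℕ) [Fact l.Prime], Continuous (ρ l)) → b.Stb ρ → b.Cmp S ρ → b.Ir0 ρ →
    ∃ c : ℕ, ∀ (l : ℕ) [Fact l.Prime], c < l → ¬ b.Dat h ρ l

/-- XIR: regular summands of rank two are irreducible in almost all characteristics
(from XEN, XGL, XFD, XNF). -/
def ST_XIR : Prop :=
  ∀ (F L : Type) [Field F] [NumberField F] [Field L] [NumberField L] (n : ℕ) (h : Fin n → ℕ)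
    (b : Blo n 2 L) (S : Finset ℕ) (ρ : Fml F n), IsUn ρ → b.Stb ρ → b.Cmp S ρ → b.Ir0 ρ →
    b.FLb h True ρ → b.Irl ρ

/-! ## D. Summands with large image -/

/-- XWD: reducible reductions give the data (from OVP, CNV; see FD2). -/
def ST_XWD : Prop :=
  ∀ (F L : Type) [Field F] [NumberField F] [Field L] [NumberField L] [IsGalois ℚ L]
    [Nonempty (F →+* L)] (n m : ℕ) (h : Fin n → ℕ) (b : Blo n m L) (ρ : Fml F n), IsUn ρ →
    b.FLb h False ρ → ¬ b.Irl ρ →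
    ∀ c : ℕ, ∃ (l : ℕ) (_ : Fact l.Prime) (j : ℕ), c < l ∧ 0 < j ∧ j < m ∧ b.Dtj h ρ l j

/-- XWR: the exact relation from the data at infinitely many `l`
(from LART, EV, FRV; see REL3). -/
def ST_XWR : Prop :=
  ∀ (F L : Type) [Field F] [NumberField F] [Field L] [NumberField L] [IsGalois ℚ L]
    [Nonempty (F →+* L)] (n m : ℕ) (h : Fin n → ℕ) (b : Blo n m L) (ρ : Fml F n) (j : ℕ)
    (H : MvPolynomial ℕ ℤ), IsEsp m j H →
    (∀ c : ℕ, ∃ (l : ℕ) (_ : Fact l.Prime), c < l ∧ b.Dtj h ρ l j) →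
    ∃ e : (F →+* L) → ℕ, b.Rlj ρ H e

/-- XWC: the exact relation gives rational products of eigenvalues (from FRB, OVP). -/
def ST_XWC : Prop :=
  ∀ (F L : Type) [Field F] [NumberField F] [Field L] [NumberField L] [IsGalois ℚ L]
    [Nonempty (F →+* L)] (n m : ℕ) (b : Blo n m L) (S : Finset ℕ) (ρ : Fml F n),
    (∀ (l : ℕ) [Fact l.Prime], Continuous (ρ l)) → b.Cmp S ρ →
    ∀ (H : MvPolynomial ℕ ℤ) (e : (F →+* L) → ℕ), b.Rlj ρ H e →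
    ∃ k c : ℕ, 0 < k ∧ ∀ (l : ℕ) [Fact l.Prime], c < l → ∀ (ι : 𝓞 L →+* ℚ_[l])
      (R : Gal F →* Matrix (Fin m) (Fin m) ℚ_[l]), b.At (ρ l) (algebraMap ℤ_[l] ℚ_[l]) ι R →
      ∀ g, ∃ a : ℚ_[l], MvPolynomial.aeval (Cof a ((R g) ^ k).charpoly) H = 0

/-- XBG: summands with large image are irreducible in almost all characteristics
(from XEN, XGL, XWD, XWR, XWC, ESP, SLD, SPQ; SLD is in Stmts13). -/
def ST_XBG : Prop :=
  ∀ (F L : Type) [Field F] [NumberField F] [Field L] [NumberField L] (n m : ℕ) (h : Fin n → ℕ)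
    (b : Blo n m L) (S : Finset ℕ) (ρ : Fml F n), IsUn ρ → b.Stb ρ → b.Cmp S ρ → b.Big ρ →
    b.FLb h False ρ → b.Irl ρ

/-! ## E. Potentially abelian summands -/

/-- XPF: potentially abelian families (from PBR, ETL, AVS, AVL; see PPB). -/
def ST_XPF : Prop :=
  ∀ (F : Type) [Field F] [NumberField F] (S : Finset ℕ) (n : ℕ) (ρ : Fml F n), IsFam S ρ →
    (∀ (l : ℕ) [Fact l.Prime], IsSS (rat (ρ l))) →
    ∀ H : Subgroup (Gal F), IsOpen (H : Set (Gal F)) →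
      (∀ (l : ℕ) [Fact l.Prime], ∀ g ∈ H, ∀ g' ∈ H, ρ l g * ρ l g' = ρ l g' * ρ l g) →
      ∃ c : ℕ, ∀ (l : ℕ) [Fact l.Prime], c < l → Lft (ρ l)

/-- XBS: the potentially abelian part (from XDV). -/
def ST_XBS : Prop :=
  ∀ (F L : Type) [Field F] [NumberField F] [Field L] [NumberField L] (n k : ℕ) (m : Fin k → ℕ)
    (b : ∀ i, Blo n (m i) L) (S : Finset ℕ) (ρ : Fml F n),
    (∀ (l : ℕ) [Fact l.Prime], Continuous (ρ l)) →
    (∀ i, (b i).Stb ρ ∧ (b i).Cmp S ρ ∧ ((b i).Ab ρ ∨ (b i).Irl ρ)) →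
    ∃ (B : Finset (Fin k)) (Y : Subgroup (Gal F)), Y.Normal ∧ IsOpen (Y : Set (Gal F)) ∧
      (∀ i ∈ B, ∀ (l : ℕ) [Fact l.Prime] (Ω : Type) [Field Ω] [CharZero Ω] (ϑ : ℤ_[l] →+* Ω)
        (ι : 𝓞 L →+* Ω) (R : Gal F →* Matrix (Fin (m i)) (Fin (m i)) Ω), (b i).At (ρ l) ϑ ι R →
        ∀ x ∈ ⁅Y, Y⁆, IsNilpotent (R x - 1)) ∧
      (∀ i, i ∉ B → (b i).Irl ρ) ∧
      ∃ c : ℕ, ∀ (l : ℕ) [Fact l.Prime], c < l → ∀ (Ω : Type) [Field Ω] [IsAlgClosed Ω]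
        (ϑ : ℤ_[l] →+* Ω) (ι : 𝓞 L →+* Ω) (γ : L →+* L), (l : Ω) = 0 → ∀ i ∈ B, ∀ i', i' ∉ B →
        ∀ (R : Gal F →* Matrix (Fin (m i)) (Fin (m i)) Ω)
          (R' : Gal F →* Matrix (Fin (m i')) (Fin (m i')) Ω),
        (b i).At (ρ l) ϑ (ι.comp (RingOfIntegers.mapRingHom γ)) R → (b i').At (ρ l) ϑ ι R' →
        Hmk R R' = ⊥ ∧ Hmk R' R = ⊥

/-- XRA: the potentially abelian part is rational. -/
def ST_XRA : Prop :=
  ∀ (F L : Type) [Field F] [NumberField F] [Field L] [NumberField L] [IsGalois ℚ L] (n k : ℕ)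
    (m : Fin k → ℕ) (b : ∀ i, Blo n (m i) L) (ρ : Fml F n), IsDcp b → (∀ i, (b i).Stb ρ) →
    ∀ B : Finset (Fin k), (∃ c : ℕ, ∀ (l : ℕ) [Fact l.Prime], c < l → ∀ (Ω : Type) [Field Ω]
        [IsAlgClosed Ω] (ϑ : ℤ_[l] →+* Ω) (ι : 𝓞 L →+* Ω) (γ : L →+* L), (l : Ω) = 0 →
        ∀ i ∈ B, ∀ i', i' ∉ B → ∀ (R : Gal F →* Matrix (Fin (m i)) (Fin (m i)) Ω)
          (R' : Gal F →* Matrix (Fin (m i')) (Fin (m i')) Ω),
        (b i).At (ρ l) ϑ (ι.comp (RingOfIntegers.mapRingHom γ)) R → (b i').At (ρ l) ϑ ι R' →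
        Hmk R R' = ⊥ ∧ Hmk R' R = ⊥) →
      ∃ e : Matrix (Fin n) (Fin n) ℚ, IsRt b B e

/-- XSB: the family on a rational part. -/
def ST_XSB : Prop :=
  ∀ (F L : Type) [Field F] [NumberField F] [Field L] [NumberField L] (n k : ℕ) (m : Fin k → ℕ)
    (b : ∀ i, Blo n (m i) L) (ρ : Fml F n), (∀ (l : ℕ) [Fact l.Prime], Continuous (ρ l)) →
    IsDcp b → (∀ i, (b i).Stb ρ) → ∀ (B : Finset (Fin k)) (e : Matrix (Fin n) (Fin n) ℚ),
    IsRt b B e → ∀ (r : ℕ) (P : Matrix (Fin r) (Fin n) ℤ) (C : Matrix (Fin n) (Fin r) ℤ)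
      (Q : Matrix (Fin n) (Fin r) ℚ), P * C = 1 → P.map (Int.castRingHom ℚ) * Q = 1 →
      Q * P.map (Int.castRingHom ℚ) = e →
    ∀ (k' : ℕ) (φ : Fin k' → Fin k), Function.Injective φ → (∀ i, i ∈ B ↔ ∃ i', φ i' = i) →
    ∃ (ρ' : Fml F r) (b' : ∀ i, Blo r (m (φ i)) L), IsDcp b' ∧
      (∀ (l : ℕ) [Fact l.Prime], Continuous (ρ' l)) ∧
      (∀ (l : ℕ) [Fact l.Prime] (g : Gal F),
        P.map (Int.castRingHom ℤ_[l]) * (ρ l g : Matrix (Fin n) (Fin n) ℤ_[l]) =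
          (ρ' l g : Matrix (Fin r) (Fin r) ℤ_[l]) * P.map (Int.castRingHom ℤ_[l])) ∧
      ∀ (i : Fin k') (l : ℕ) [Fact l.Prime] (Ω : Type) [Field Ω] (ϑ : ℤ_[l] →+* Ω)
        (ι : 𝓞 L →+* Ω) (R : Gal F →* Matrix (Fin (m (φ i))) (Fin (m (φ i))) Ω),
        (b' i).At (ρ' l) ϑ ι R ↔ (b (φ i)).At (ρ l) ϑ ι R

/-- XFM: families which are sums of summands (from XCP). -/
def ST_XFM : Prop :=
  ∀ (F L : Type) [Field F] [NumberField F] [Field L] [NumberField L] [IsGalois ℚ L] (n k : ℕ)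
    (m : Fin k → ℕ) (b : ∀ i, Blo n (m i) L) (S : Finset ℕ) (ρ : Fml F n),
    (∀ (l : ℕ) [Fact l.Prime], Continuous (ρ l)) → IsDcp b →
    (∀ i, (b i).Stb ρ ∧ (b i).Cmp S ρ) → IsFam S ρ

/-- XAC: potentially abelian families from unipotent commutators (from CLF, SEM). -/
def ST_XAC : Prop :=
  ∀ (F L : Type) [Field F] [NumberField F] [Field L] [NumberField L] (n k : ℕ) (m : Fin k → ℕ)
    (b : ∀ i, Blo n (m i) L) (ρ : Fml F n), IsDcp b → (∀ i, (b i).Stb ρ) →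
    (∀ (l : ℕ) [Fact l.Prime], IsSS (rat (ρ l))) → ∀ Y : Subgroup (Gal F), Y.Normal →
    (∀ i, ∀ (l : ℕ) [Fact l.Prime] (Ω : Type) [Field Ω] [CharZero Ω] (ϑ : ℤ_[l] →+* Ω)
        (ι : 𝓞 L →+* Ω) (R : Gal F →* Matrix (Fin (m i)) (Fin (m i)) Ω), (b i).At (ρ l) ϑ ι R →
        ∀ x ∈ ⁅Y, Y⁆, IsNilpotent (R x - 1)) →
    ∀ (l : ℕ) [Fact l.Prime], ∀ g ∈ Y, ∀ g' ∈ Y, ρ l g * ρ l g' = ρ l g' * ρ l g

/-- XSM: sums of potentially abelian and residually irreducible summands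
(from XGL, XEN, XBS, XRA, XIG, XSB, XFM, XAC, XPF, XEE, SUG). -/
def ST_XSM : Prop :=
  ∀ (F L : Type) [Field F] [NumberField F] [Field L] [NumberField L] (n k : ℕ) (m : Fin k → ℕ)
    (b : ∀ i, Blo n (m i) L) (S : Finset ℕ) (ρ : Fml F n),
    (∀ (l : ℕ) [Fact l.Prime], Continuous (ρ l)) →
    (∀ (l : ℕ) [Fact l.Prime], IsSS (rat (ρ l))) → IsDcp b →
    (∀ i, (b i).Stb ρ ∧ (b i).Cmp S ρ ∧ ((b i).Ab ρ ∨ (b i).Irl ρ)) →
    ∃ c : ℕ, ∀ (l : ℕ) [Fact l.Prime], c < l → Lft (ρ l)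

/-! ## F. The theorem -/

/-- The rational realizations are completely reducible, and over some finite extension `K` of `F`
and some number field `L` of coefficients the motive is a direct sum of the summands `Typ`. -/
def Cfs {F : Type} [Field F] [NumberField F] {S : Finset ℕ} {n w : ℕ} {h : Fin n → ℕ}
    (M : Mot F S n w h) : Prop :=
  (∀ (l : ℕ) [Fact l.Prime], IsSS (rat (M.ρ l))) ∧
  ∃ (K : Type) (_ : Field K) (_ : NumberField K) (_ : Algebra F K)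
    (j : AlgebraicClosure F ≃+* AlgebraicClosure K) (r : Gal K →* Gal F) (S' : Finset ℕ)
    (L : Type) (_ : Field L) (_ : NumberField L) (k : ℕ) (m : Fin k → ℕ)
    (b : ∀ i, Blo n (m i) L), IsBC F K j r ∧ IsDcp b ∧
      ∀ i, (b i).Stb (fun l _ => (M.ρ l).comp r) ∧ (b i).Cmp S' (fun l _ => (M.ρ l).comp r) ∧
        (b i).Typ h (fun l _ => (M.ρ l).comp r)

/-- XUN: the restrictions of a motive to extension fields (from BCT, OVP). -/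
def ST_XUN : Prop :=
  ∀ (F K : Type) [Field F] [NumberField F] [Field K] [NumberField K] [Algebra F K]
    (j : AlgebraicClosure F ≃+* AlgebraicClosure K) (r : Gal K →* Gal F), IsBC F K j r →
    ∀ (S : Finset ℕ), (∀ p ∈ S, p.Prime) → ∀ (n w : ℕ) (h : Fin n → ℕ) (M : Mot F S n w h),
      IsUn (F := K) (fun l _ => (M.ρ l).comp r)

/-- XRG: the reductions of the motives of the theorem
(from XUN, XIR, XBG, XSM, XCS, IXB, AVS, AVL, SSL; see SMK). -/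
def ST_XRG : Prop :=
  ∀ (F : Type) [Field F] [NumberField F] (S : Finset ℕ), (∀ p ∈ S, p.Prime) →
    ∀ (n w : ℕ) (h : Fin n → ℕ) (M : Mot F S n w h), Cfs M → Reg2 M

/-- XFN: the final theorem (from FINC, XRG). -/
def ST_XFN : Prop :=
  ∀ (F : Type) [Field F] [NumberField F] (S : Finset ℕ), (∀ p ∈ S, p.Prime) →
    ∀ (n w : ℕ) (h : Fin n → ℕ), ∃ N : ℕ, ∀ 𝒯 : Set (Mot F S n w h), (∀ M ∈ 𝒯, Cfs M) →
      (∃ T : Finset (Mot F S n w h), (T : Set (Mot F S n w h)) ⊆ 𝒯 ∧ T.card ≤ N ∧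
          ∀ M ∈ 𝒯, ∃ M' ∈ T, M.AdelicIso M') ∧
      ((∀ M ∈ 𝒯, ∀ M' ∈ 𝒯, TateHom M M') →
        ∃ T : Finset (Mot F S n w h), (T : Set (Mot F S n w h)) ⊆ 𝒯 ∧
          ∀ M ∈ 𝒯, ∃ M' ∈ T, M.Iso M')

end REC
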