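import Pool.Agent.Helper57.REC.StmtsX
import Pool.Agent.Helper60.REC.TRP

/-!
# REC, part 12X: row XUN
-/

set_option autoImplicit false

open scoped Classical
open NumberField Polynomial Topology

namespace REC

open Pool.Agent.Helper13.ZL (Pl q)
open MU
open Pool.Agent.Helper60.REC8 (exists_openNormal)

theorem xun_cont {F K : Type} [Field F] [NumberField F] [Field K] [NumberField K] [Algebra F K]
    {j : AlgebraicClosure F ≃+* AlgebraicClosure K} {r : Gal K →* Gal F} (h : IsBC F K j r) :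
    Continuous r := by
  apply continuous_of_continuousAt_one
  intro U hU
  rw [map_one] at hU
  obtain ⟨V, hVU, hVo, hV1⟩ := mem_nhds_iff.1 hU
  obtain ⟨Y, -, hYo, hYV⟩ := exists_openNormal F V hVo hV1
  have h1 := h.cont Y hYo
  refine Filter.mem_map.2 (Filter.mem_of_superset (h1.mem_nhds (Subgroup.one_mem _)) ?_)
  intro x hx
  exact hVU (hYV hx)

theorem xun_over {F K : Type} [Field F] [NumberField F] [Field K] [NumberField K] [Algebra F K]
    {j : AlgebraicClosure F ≃+* AlgebraicClosure K} (p : ℕ) (𝔔 : Ideal (Zb K)) (hQ : Over p 𝔔)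
    (𝔓 : Ideal (Zb F)) (h : ∀ (x : Zb F) (y : Zb K),
      (y : AlgebraicClosure K) = j (x : AlgebraicClosure F) → (x ∈ 𝔓 ↔ y ∈ 𝔔)) : Over p 𝔓 := by
  obtain ⟨hQp, hpQ⟩ := hQ
  have hint : ∀ x : Zb F, IsIntegral ℤ (j (x : AlgebraicClosure F)) := fun x =>
    x.2.map (j : AlgebraicClosure F →+* AlgebraicClosure K).toIntAlgHom
  let jz : Zb F →+* Zb K :=
    { toFun := fun x => ⟨j (x : AlgebraicClosure F), hint x⟩
      map_one' := Subtype.ext (map_one j)
      map_mul' := fun x y => Subtype.ext (map_mul j _ _)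
      map_zero' := Subtype.ext (map_zero j)
      map_add' := fun x y => Subtype.ext (map_add j _ _) }
  have h1 : 𝔓 = 𝔔.comap jz := by
    ext x
    rw [Ideal.mem_comap]
    exact h x (jz x) rfl
  have h2 : (𝔔.comap jz).IsPrime := by
    refine ⟨fun h5 => ?_, fun {x y} hxy => ?_⟩
    · have h6 : (1 : Zb F) ∈ 𝔔.comap jz := by rw [h5]; trivial
      rw [Ideal.mem_comap, map_one] at h6
      exact hQp.ne_top ((Ideal.eq_top_iff_one _).2 h6)
    · rw [Ideal.mem_comap, map_mul] at hxy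
      exact hQp.mem_or_mem hxy
  have h3 : (p : Zb F) ∈ 𝔔.comap jz := by
    rw [Ideal.mem_comap, map_natCast]
    exact hpQ
  rw [← h1] at h2 h3
  exact ⟨h2, h3⟩

/-- XUN -/
theorem st_XUN (hBCT : ST_BCT) : ST_XUN := by
  intro F K _ _ _ _ _ j r hbc S hS n w h M
  refine ⟨fun l _ => ?_, fun l _ p hp hpl 𝔔 hQ σ hσ => ?_⟩
  · exact (M.continuous l).comp (xun_cont hbc)
  · obtain ⟨𝔓, h1, h2, -⟩ := hBCT F K j r hbc 𝔔
    have hP := xun_over p 𝔔 hQ 𝔓 h1
    have hσ' := (h2 1 σ).1 hσ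
    by_cases hpS : p ∈ S
    · exact M.semistable l p hpS hpl 𝔓 hP (r σ) hσ'
    · have h3 := M.good l p hp hpS hpl 𝔓 hP (r σ) hσ'
      have h4 : rat ((M.ρ l).comp r) σ = 1 := by
        change ((M.ρ l (r σ) : Matrix.GeneralLinearGroup (Fin n) ℤ_[l]) :
          Matrix (Fin n) (Fin n) ℤ_[l]).map (algebraMap ℤ_[l] ℚ_[l]) = 1
        rw [h3, Units.val_one, Matrix.map_one _ (map_zero _) (map_one _)]
      rw [h4, sub_self]
      rcases Nat.eq_zero_or_pos n with hn | hn
      · subst hn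
        exact Subsingleton.elim _ _
      · exact zero_pow hn.ne'

end REC
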