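import Pool.Agent.Helper57.REC.Stmts1

/-!
# Reciprocity, part 3: the first inequality
Proofs: /team-store/rec_blueprint3.md   [helper57]
-/

set_option autoImplicit false

open scoped Classical
open NumberField

namespace REC

open Pool.Agent.Helper13.ZL (Pl q HasMean)
open MU (Gal Zb Over CongPow)

/-! ## A. Cyclic groups acting on lattices -/

/-- the norm `a ↦ ∏ s ^ i a` -/
noncomputable def nm {A : Type} [CommGroup A] (s : MulAut A) (n : ℕ) : A →* A :=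
  ∏ i ∈ Finset.range n, ((s ^ i : MulAut A) : A →* A)

/-- `a ↦ s a / a` -/
noncomputable def dd {A : Type} [CommGroup A] (s : MulAut A) : A →* A :=
  (s : A →* A) / MonoidHom.id A

/-- the order of the Tate group in degree `0` -/
noncomputable def h0 {A : Type} [CommGroup A] (s : MulAut A) (n : ℕ) : ℕ :=
  (nm s n).range.relIndex (dd s).ker

/-- the order of the Tate group in degree `1` -/
noncomputable def h1 {A : Type} [CommGroup A] (s : MulAut A) (n : ℕ) : ℕ :=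
  (dd s).range.relIndex (nm s n).ker

/-- HRB: an identity of indices. -/
def ST_HRB : Prop :=
  ∀ (A : Type) [CommGroup A] (s : MulAut A) (n : ℕ), 0 < n → s ^ n = 1 →
    ((dd s).ker.map (powMonoidHom n)).relIndex (dd s).ker ≠ 0 →
    ((nm s n).ker.map (dd s)).relIndex (nm s n).ker ≠ 0 →
    h0 s n ≠ 0 ∧ h1 s n ≠ 0 ∧
    h0 s n * ((nm s n).ker.map (dd s)).relIndex (nm s n).ker =
      ((dd s).ker.map (powMonoidHom n)).relIndex (dd s).ker * h1 s n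

/-- `ℓ` is (up to a finite kernel) a lattice in `V` -/
structure IsLat (A : Type) [CommGroup A] (V : Type) [NormedAddCommGroup V] [NormedSpace ℝ V]
    (ℓ : A → V) : Prop where
  mul : ∀ a b, ℓ (a * b) = ℓ a + ℓ b
  fin : ∀ R : ℝ, {a : A | ‖ℓ a‖ ≤ R}.Finite
  span : Submodule.span ℝ (Set.range ℓ) = ⊤

/-- QDV: the index of the image of an endomorphism. -/
def ST_QDV : Prop :=
  ∀ (A : Type) [CommGroup A] (V : Type) [NormedAddCommGroup V] [NormedSpace ℝ V]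
    [FiniteDimensional ℝ V] (ℓ : A → V), IsLat A V ℓ →
    ∀ (φ : A →* A) (Φ : V →ₗ[ℝ] V), (∀ a, ℓ (φ a) = Φ (ℓ a)) → LinearMap.det Φ ≠ 0 →
      Finite φ.ker ∧ φ.range.index ≠ 0 ∧
        (φ.range.index : ℝ) = Nat.card φ.ker * |LinearMap.det Φ|

/-- HEV: the Herbrand quotient depends only on the real representation (from HRB, QDV). -/
def ST_HEV : Prop :=
  ∀ (V : Type) [NormedAddCommGroup V] [NormedSpace ℝ V] [FiniteDimensional ℝ V]
    (T : Module.End ℝ V) (n : ℕ), 0 < n → T ^ n = 1 → ∃ δ : ℝ, 0 < δ ∧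
      ∀ (A : Type) [CommGroup A] (ℓ : A → V) (s : MulAut A), IsLat A V ℓ → s ^ n = 1 →
        (∀ a, ℓ (s a) = T (ℓ a)) → h0 s n ≠ 0 ∧ h1 s n ≠ 0 ∧ (h0 s n : ℝ) * δ = h1 s n

/-- the fibres of `pr` are the orbits of `π` -/
def IsOrb {X Y : Type} (π : Equiv.Perm X) (pr : X → Y) : Prop :=
  Function.Surjective pr ∧ ∀ x x' : X, pr x = pr x' ↔ ∃ k : ℕ, (π ^ k) x = x'

/-- HER: the Herbrand quotient of a lattice in a permutation representation (from HEV). -/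
def ST_HERB : Prop :=
  ∀ (A : Type) [CommGroup A] (X Y : Type) [Fintype X] [Fintype Y] (π : Equiv.Perm X)
    (pr : X → Y) (ℓ : A → X → ℝ) (s : MulAut A) (n : ℕ), 0 < n → s ^ n = 1 → π ^ n = 1 →
    IsOrb π pr → (∀ a x, ℓ (s a) (π x) = ℓ a x) → IsLat A (X → ℝ) ℓ →
    h0 s n ≠ 0 ∧ h1 s n ≠ 0 ∧ h0 s n = (∏ y : Y, n / Nat.card {x // pr x = y}) * h1 s n

/-- HES: the same for a lattice in the hyperplane of the vectors of sum zero (from HERB). -/
def ST_HES : Prop :=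
  ∀ (A : Type) [CommGroup A] (X Y : Type) [Fintype X] [Fintype Y] [Nonempty X]
    (π : Equiv.Perm X) (pr : X → Y) (ℓ : A → X → ℝ) (s : MulAut A) (n : ℕ), 0 < n → s ^ n = 1 →
    π ^ n = 1 → IsOrb π pr → (∀ a x, ℓ (s a) (π x) = ℓ a x) → (∀ a b, ℓ (a * b) = ℓ a + ℓ b) →
    (∀ R : ℝ, {a : A | ‖ℓ a‖ ≤ R}.Finite) →
    (∀ f : X → ℝ, f ∈ Submodule.span ℝ (Set.range ℓ) ↔ ∑ x, f x = 0) →
    h0 s n ≠ 0 ∧ h1 s n ≠ 0 ∧ n * h0 s n = (∏ y : Y, n / Nat.card {x // pr x = y}) * h1 s n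

/-! ## B. Places in Galois extensions -/

/-- POV: places over `v`. -/
def ST_POV : Prop :=
  ∀ (F L : Type) [Field F] [NumberField F] [Field L] [NumberField L] [Algebra F L] [IsGalois F L],
    (∀ P : Pl L, ∃! v : Pl F, OvL v P) ∧
    (∀ v : Pl F, Finite {P : Pl L // OvL v P} ∧ Nonempty {P : Pl L // OvL v P} ∧
      nv L v * Nat.card {P : Pl L // OvL v P} = Module.finrank F L) ∧
    (∀ (τ : L ≃ₐ[F] L) (P : Pl L), ∃! P' : Pl L, ∀ x : L,
      P'.valuation L (τ x) = P.valuation L x) ∧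
    (∀ (τ : L ≃ₐ[F] L) (P P' : Pl L), (∀ x : L, P'.valuation L (τ x) = P.valuation L x) →
      ∀ v : Pl F, OvL v P → OvL v P') ∧
    (∀ (v : Pl F) (P P' : Pl L), OvL v P → OvL v P' → ∃ τ : L ≃ₐ[F] L, ∀ x : L,
      P'.valuation L (τ x) = P.valuation L x) ∧
    {v : Pl F | ¬ UnrL L v}.Finite ∧
    (∀ (v : Pl F) (P : Pl L), OvL v P → ∃ e : ℕ, 0 < e ∧ ∀ x : F,
      P.valuation L (algebraMap F L x) = v.valuation F x ^ e) ∧
    (∀ (v : Pl F) (x : L), (∀ P : Pl L, OvL v P → P.valuation L x = 1) →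
      v.valuation F (Algebra.norm F x) = 1)

/-- UNV: norms at unramified places (from POV). -/
def ST_UNV : Prop :=
  ∀ (F L : Type) [Field F] [NumberField F] [Field L] [NumberField L] [Algebra F L] [IsGalois F L]
    (v : Pl F), UnrL L v →
    (∀ P : Pl L, OvL v P → q P = q v ^ nv L v) ∧
    ∀ x : L, v.valuation F (Algebra.norm F x) =
      (∏ᶠ P : {P : Pl L // OvL v P}, (P : Pl L).valuation L x) ^ nv L v

/-- INFP: infinite places. -/
def ST_INFP : Prop :=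
  ∀ (F L : Type) [Field F] [NumberField F] [Field L] [NumberField L] [Algebra F L] [IsGalois F L],
    (∀ w : InfinitePlace F, Nonempty {u : InfinitePlace L // u.comap (algebraMap F L) = w} ∧
      nw L w * Nat.card {u : InfinitePlace L // u.comap (algebraMap F L) = w} =
        Module.finrank F L) ∧
    (∀ (τ : L ≃ₐ[F] L) (u : InfinitePlace L), ∃! u' : InfinitePlace L, ∀ x : L, u' (τ x) = u x) ∧
    (∀ u u' : InfinitePlace L, u.comap (algebraMap F L) = u'.comap (algebraMap F L) ↔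
      ∃ τ : L ≃ₐ[F] L, ∀ x : L, u' (τ x) = u x) ∧
    (∀ w : InfinitePlace F, nw L w = 1 ∨ (nw L w = 2 ∧ ∃ σ : F →+* ℝ,
      (∀ x, w x = |σ x|) ∧ ∀ x : L, x ≠ 0 → 0 < σ (Algebra.norm F x)))

/-! ## C. `T`-units -/

/-- the `T`-units -/
def SU (K : Type) [Field K] [NumberField K] (T : Finset (Pl K)) : Subgroup Kˣ where
  carrier := {x | ∀ v : Pl K, v ∉ T → v.valuation K (x : K) = 1}
  mul_mem' := by
    intro a b ha hb v hv
    have h1 := ha v hv
    have h2 := hb v hv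
    simp [h1, h2]
  one_mem' := by
    intro v _
    simp
  inv_mem' := by
    intro a ha v hv
    have h1 := ha v hv
    simp [h1]

/-- logarithms of the absolute values -/
noncomputable def lSU (K : Type) [Field K] [NumberField K] (T : Finset (Pl K)) (x : SU K T)
    (y : {v // v ∈ T} ⊕ InfinitePlace K) : ℝ :=
  match y with
  | Sum.inl v => Real.log (NumberField.HeightOneSpectrum.adicAbv K (v : Pl K) ((x : Kˣ) : K))
  | Sum.inr w => w.mult * Real.log (w ((x : Kˣ) : K))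

/-- SUN: the theorem on `T`-units. -/
def ST_SUN : Prop :=
  ∀ (K : Type) [Field K] [NumberField K] (T : Finset (Pl K)),
    (∀ a b, lSU K T (a * b) = lSU K T a + lSU K T b) ∧
    (∀ R : ℝ, {a | ‖lSU K T a‖ ≤ R}.Finite) ∧
    ∀ f : {v // v ∈ T} ⊕ InfinitePlace K → ℝ,
      f ∈ Submodule.span ℝ (Set.range (lSU K T)) ↔ ∑ x, f x = 0

/-- `TL` is the set of the places of `L` over `T` -/
def IsTL {F L : Type} [Field F] [NumberField F] [Field L] [NumberField L] [Algebra F L]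
    (T : Finset (Pl F)) (TL : Finset (Pl L)) : Prop :=
  ∀ P : Pl L, P ∈ TL ↔ ∃ v ∈ T, OvL v P

/-- H1S: Hilbert 90 for `T`-units (from POV). -/
def ST_H1S : Prop :=
  ∀ (F L : Type) [Field F] [NumberField F] [Field L] [NumberField L] [Algebra F L] [IsGalois F L]
    (σ : L ≃ₐ[F] L), (∀ τ : L ≃ₐ[F] L, ∃ k : ℕ, τ = σ ^ k) →
    ∀ (T : Finset (Pl F)) (TL : Finset (Pl L)), IsTL T TL → (∀ v : Pl F, v ∉ T → UnrL L v) →
      ClGen F T → ∀ x ∈ SU L TL, Algebra.norm F (x : L) = 1 →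
        ∃ y ∈ SU L TL, (x : L) = σ (y : L) / (y : L)

/-- the norm on units -/
noncomputable def Nu (F L : Type) [Field F] [Field L] [Algebra F L] : Lˣ →* Fˣ :=
  Units.map (Algebra.norm F : L →* F)

/-- SUX: norms of `T`-units (from HES, POV, INFP, SUN, H1S). -/
def ST_SUX : Prop :=
  ∀ (F L : Type) [Field F] [NumberField F] [Field L] [NumberField L] [Algebra F L] [IsGalois F L]
    (σ : L ≃ₐ[F] L), (∀ τ : L ≃ₐ[F] L, ∃ k : ℕ, τ = σ ^ k) →
    ∀ (T : Finset (Pl F)) (TL : Finset (Pl L)), IsTL T TL → (∀ v : Pl F, v ∉ T → UnrL L v) →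
      ClGen F T → ((SU L TL).map (Nu F L)).relIndex (SU F T) ≠ 0 ∧
        Module.finrank F L * ((SU L TL).map (Nu F L)).relIndex (SU F T) =
          (∏ v ∈ T, nv L v) * ∏ w : InfinitePlace F, nw L w

/-- SEX: existence of `T`. -/
def ST_SEX : Prop :=
  ∀ (F L : Type) [Field F] [NumberField F] [Field L] [NumberField L] [Algebra F L] [IsGalois F L]
    (B : Finset (Pl F)), ∃ (T : Finset (Pl F)) (TL : Finset (Pl L)), Disjoint T B ∧ IsTL T TL ∧
      ClGen F T ∧ ClGen L TL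

/-! ## D. The places in `B` -/

/-- combinations of the conjugates of `θ` with coefficients in `v ^ j`, `v` in `B` -/
def LatB {F L : Type} [Field F] [NumberField F] [Field L] [NumberField L] [Algebra F L]
    (σ : L ≃ₐ[F] L) (B : Finset (Pl F)) (θ : L) (j : ℕ) (x : L) : Prop :=
  ∃ a : ℕ → F, x = ∑ i ∈ Finset.range (Module.finrank F L), a i • (σ ^ i : L ≃ₐ[F] L) θ ∧
    ∀ i, ∀ v ∈ B, v.valuation F (a i) ≤ WithZero.exp (-(j : ℤ))

/-- NBL: a good normal basis. -/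
def ST_NBL : Prop :=
  ∀ (F L : Type) [Field F] [NumberField F] [Field L] [NumberField L] [Algebra F L] [IsGalois F L]
    (σ : L ≃ₐ[F] L), (∀ τ : L ≃ₐ[F] L, ∃ k : ℕ, τ = σ ^ k) → ∀ B : Finset (Pl F), ∃ θ : L,
      (∀ x : L, ∃ a : ℕ → F,
        x = ∑ i ∈ Finset.range (Module.finrank F L), a i • (σ ^ i : L ≃ₐ[F] L) θ) ∧
      (∀ (i j : ℕ) (x y : L), LatB σ B θ i x → LatB σ B θ j y → LatB σ B θ (i + j) (x * y)) ∧
      (∀ (j : ℕ) (a : F), LatB σ B θ j (algebraMap F L a) →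
        ∀ v ∈ B, v.valuation F a ≤ WithZero.exp (-(j : ℤ))) ∧
      (∀ x : L, LatB σ B θ 0 x → ∀ v ∈ B, ∀ P : Pl L, OvL v P → P.valuation L x < 1) ∧
      ∀ j : ℕ, ∃ N : ℕ, ∀ x : L,
        (∀ v ∈ B, ∀ P : Pl L, OvL v P → P.valuation L x ≤ WithZero.exp (-(N : ℤ))) →
        LatB σ B θ j x

/-- VHI: the group `1 + Lat`, Hilbert 90 (from NBL, POV). -/
def ST_VHI : Prop :=
  ∀ (F L : Type) [Field F] [NumberField F] [Field L] [NumberField L] [Algebra F L] [IsGalois F L]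
    (σ : L ≃ₐ[F] L), (∀ τ : L ≃ₐ[F] L, ∃ k : ℕ, τ = σ ^ k) → ∀ B : Finset (Pl F),
    ∃ V : Subgroup Lˣ, (∀ x : Lˣ, x ∈ V → Units.map (σ : L →* L) x ∈ V) ∧
      (∀ x ∈ V, ∀ v ∈ B, ∀ P : Pl L, OvL v P → P.valuation L (x : L) = 1) ∧
      (∃ N : ℕ, ∀ x : Lˣ,
        (∀ v ∈ B, ∀ P : Pl L, OvL v P → P.valuation L ((x : L) - 1) ≤ WithZero.exp (-(N : ℤ))) →
        x ∈ V) ∧
      ∀ b : Lˣ, Units.map (σ : L →* L) b / b ∈ V →
        ∃ a : Fˣ, b / Units.map (algebraMap F L : F →* L) a ∈ V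

/-- CBI: the local index at the places in `B` (from VHI, HERB, POV). -/
def ST_CBI : Prop :=
  ∀ (F L : Type) [Field F] [NumberField F] [Field L] [NumberField L] [Algebra F L] [IsGalois F L]
    (σ : L ≃ₐ[F] L), (∀ τ : L ≃ₐ[F] L, ∃ k : ℕ, τ = σ ^ k) → ∀ B : Finset (Pl F),
    ∃ C : Subgroup Fˣ, (∀ y : Lˣ, Nu F L y ∈ C) ∧ C.index ≠ 0 ∧ ∏ v ∈ B, nv L v ≤ C.index ∧
      ∃ N : ℕ, ∀ x : Fˣ, (∀ v ∈ B, v.valuation F ((x : F) - 1) ≤ WithZero.exp (-(N : ℤ))) → x ∈ C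

/-- CBS: the same with the real places (from CBI, INFP, APX). -/
def ST_CBS : Prop :=
  ∀ (F L : Type) [Field F] [NumberField F] [Field L] [NumberField L] [Algebra F L] [IsGalois F L]
    (σ : L ≃ₐ[F] L), (∀ τ : L ≃ₐ[F] L, ∃ k : ℕ, τ = σ ^ k) → ∀ B : Finset (Pl F),
    ∃ C : Subgroup Fˣ, (∀ y : Lˣ, Nu F L y ∈ C) ∧ C.index ≠ 0 ∧
      (∏ v ∈ B, nv L v) * ∏ w : InfinitePlace F, nw L w ≤ C.index ∧
      ∃ N : ℕ, 0 < N ∧ ∀ x : Fˣ, TotPos (x : F) →
        (∀ v ∈ B, v.valuation F ((x : F) - 1) ≤ WithZero.exp (-(N : ℤ))) → x ∈ C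

/-! ## E. The first inequality -/

/-- the order at `v` -/
noncomputable def ordv {F : Type} [Field F] [NumberField F] (v : Pl F) (x : Fˣ) : ℤ :=
  - WithZero.log (v.valuation F (x : F))

/-- the relations -/
structure IsRel (F L : Type) [Field F] [NumberField F] [Field L] [NumberField L] [Algebra F L]
    (B T : Finset (Pl F)) (N : ℕ) (R : Subgroup (Fˣ × (T → Multiplicative ℤ))) : Prop where
  norm : ∀ (y : Lˣ) (a : T → ℤ), (∀ t : T, (nv L (t : Pl F) : ℤ) ∣ a t) →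
    (Nu F L y, fun t => Multiplicative.ofAdd (a t)) ∈ R
  ray : ∀ x : Fˣ, TotPos (x : F) →
    (∀ v ∈ B, v.valuation F ((x : F) - 1) ≤ WithZero.exp (-(N : ℤ))) → (x, 1) ∈ R
  unit : ∀ x ∈ SU F (B ∪ T), (x, fun t : T => Multiplicative.ofAdd (ordv (t : Pl F) x)) ∈ R

/-- NIX: the index of the group of relations (from CBS, SUX, UNV). -/
def ST_NIX : Prop :=
  ∀ (F L : Type) [Field F] [NumberField F] [Field L] [NumberField L] [Algebra F L] [IsGalois F L]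
    (σ : L ≃ₐ[F] L), (∀ τ : L ≃ₐ[F] L, ∃ k : ℕ, τ = σ ^ k) → ∀ B : Finset (Pl F),
    (∀ v : Pl F, v ∉ B → UnrL L v) → ∃ N₀ : ℕ, 0 < N₀ ∧ ∀ (T : Finset (Pl F)) (TL : Finset (Pl L)),
      Disjoint T B → IsTL T TL → ClGen F T →
      ∃ R : Subgroup (Fˣ × (T → Multiplicative ℤ)), IsRel F L B T N₀ R ∧ R.index ≠ 0 ∧
        Module.finrank F L ≤ R.index

/-- the ray characters which are trivial on norms from `L` -/
def XL {F : Type} [Field F] [NumberField F] (L : Type) [Field L] [NumberField L] [Algebra F L]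
    (B : Finset (Pl F)) (N : ℕ) : Set (Pl F → ℂˣ) :=
  {f | IsRay B N f ∧ ∀ v : Pl F, v ∉ B → f v ^ nv L v = 1}

/-- THE: the characters of the quotient by the relations (from EV, APX, UNV, POV). -/
def ST_THE : Prop :=
  ∀ (F L : Type) [Field F] [NumberField F] [Field L] [NumberField L] [Algebra F L] [IsGalois F L]
    (B T : Finset (Pl F)) (TL : Finset (Pl L)), (∀ v : Pl F, v ∉ B → UnrL L v) → Disjoint T B →
    IsTL T TL → ClGen F T → ClGen L TL →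
    ∀ (N : ℕ), 0 < N → ∀ R : Subgroup (Fˣ × (T → Multiplicative ℤ)), IsRel F L B T N R →
      R.index ≠ 0 → ∀ N' : ℕ, N ≤ N' → (XL L B N').Finite → R.index ≤ (XL L B N').ncard

/-- TRL: from open subgroups to extensions. -/
def ST_TRL : Prop :=
  ∀ (F : Type) [Field F] [NumberField F] (Y : Subgroup (Gal F)), Y.Normal →
    IsOpen (Y : Set (Gal F)) → (∃ g : Gal F, ∀ h : Gal F, ∃ k : ℕ, g ^ k * h ∈ Y) →
    ∃ (L : Type) (_ : Field L) (_ : NumberField L) (_ : Algebra F L) (_ : IsGalois F L)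
      (σ : L ≃ₐ[F] L), (∀ τ : L ≃ₐ[F] L, ∃ k : ℕ, τ = σ ^ k) ∧ Module.finrank F L = Y.index ∧
      ∀ v : Pl F, (∀ 𝔓 : Ideal (Zb F), OverP v 𝔓 → ∀ τ : Gal F, CongPow 𝔓 1 τ → τ ∈ Y) →
        UnrL L v ∧ ∀ 𝔓 : Ideal (Zb F), OverP v 𝔓 → ∀ (j : ℕ) (τ : Gal F),
          CongPow 𝔓 (q v ^ j) τ → τ ∈ Y → nv L v ∣ j

/-- FST: the first inequality (from TRL, SEX, NIX, THE, XSG). -/
def ST_FST : Prop :=
  ∀ (F : Type) [Field F] [NumberField F] (Y : Subgroup (Gal F)), Y.Normal →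
    IsOpen (Y : Set (Gal F)) → (∃ g : Gal F, ∀ h : Gal F, ∃ k : ℕ, g ^ k * h ∈ Y) →
    ∀ B : Finset (Pl F), (∀ v : Pl F, v ∉ B → ∀ 𝔓 : Ideal (Zb F), OverP v 𝔓 → ∀ τ : Gal F,
      CongPow 𝔓 1 τ → τ ∈ Y) → ∃ N₀ : ℕ, 0 < N₀ ∧ ∀ N : ℕ, N₀ ≤ N → Y.index ≤ (X Y B N).ncard

end REC
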