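import Pool.Agent.Helper13.ZL.All
import Pool.Agent.Helper84.MU.CYC
import Pool.Agent.Helper2.REC.DN1
import Pool.Agent.Helper8.REC.TRK1
import Pool.Agent.Helper14.REC.INTB
import Pool.Agent.Helper14.REC.SUMI
import Pool.Agent.Helper18.REC.FRM
import Pool.Agent.Helper18.REC.LAR0
import Pool.Agent.Helper19.REC.LARK
import Pool.Agent.Helper19.REC.LNM
import Pool.Agent.Helper19.REC.POV
import Pool.Agent.Helper19.REC.UNV
import Pool.Agent.Helper20.REC.SPY
import Pool.Agent.Helper22.REC.REC
import Pool.Agent.Helper22.REC.TRK2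
import Pool.Agent.Helper25.REC.HEV
import Pool.Agent.Helper25.REC.HRB
import Pool.Agent.Helper25.REC.QDV
import Pool.Agent.Helper25.REC.RDU
import Pool.Agent.Helper28.REC.RCG
import Pool.Agent.Helper28.REC.THE
import Pool.Agent.Helper34.REC.EUL
import Pool.Agent.Helper34.REC.GEN
import Pool.Agent.Helper40.REC.NBL
import Pool.Agent.Helper40.REC.VHI
import Pool.Agent.Helper48.REC.APX
import Pool.Agent.Helper48.REC.PRT
import Pool.Agent.Helper52.REC.AXP
import Pool.Agent.Helper52.REC.H1S
import Pool.Agent.Helper53.REC.SUN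
import Pool.Agent.Helper59.REC.TRL
import Pool.Agent.Helper61.REC.CYP
import Pool.Agent.Helper61.REC.EV
import Pool.Agent.Helper61.REC.INFP
import Pool.Agent.Helper65.REC.PUN
import Pool.Agent.Helper65.REC.TEN
import Pool.Agent.Helper68.REC.REQ
import Pool.Agent.Helper69.REC.CBI
import Pool.Agent.Helper72.REC.CPW
import Pool.Agent.Helper72.REC.WSP
import Pool.Agent.Helper78.REC.CBS
import Pool.Agent.Helper78.REC.NIX
import Pool.Agent.Helper78.REC.PZC
import Pool.Agent.Helper78.REC.SUX
import Pool.Agent.Helper80.REC.LBD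
import Pool.Agent.Helper80.REC.SND
import Pool.Agent.Helper84.REC.FST
import Pool.Agent.Helper84.REC.SEX
import Pool.Agent.Helper93.REC.HERB
import Pool.Agent.Helper93.REC.HES
import Pool.Agent.Helper95.REC.GLP
import Pool.Agent.Helper98.REC.OVP

/-!
# The reciprocity law: assembly
-/

set_option autoImplicit false

namespace REC

theorem all_EV : ST_EV := Pool.Agent.Helper61.REC.st_EV
theorem all_OVP : ST_OVP := st_OVP
theorem all_CPW : ST_CPW := st_CPW
theorem all_FRV : ST_FRV := st_FRV all_OVP all_CPW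
theorem all_FRM : ST_FRM := Pool.Agent.Helper18.REC.st_FRM
theorem all_APX : ST_APX := Pool.Agent.Helper48.REC.st_APX
theorem all_RCG : ST_RCG := Pool.Agent.Helper28.RC.st_RCG
theorem all_PRT : ST_PRT := Pool.Agent.Helper48.REC.st_PRT
theorem all_RDU : ST_RDU := st_RDU all_EV
theorem all_XSG : ST_XSG := st_XSG all_RCG all_RDU all_EV
theorem all_RST : ST_RST := st_RST all_RCG all_PRT all_RDU all_EV
theorem all_SPY : ST_SPY := Pool.Agent.Helper20.REC.st_SPY
theorem all_DN1 : ST_DN1 := st_DN1 all_SPY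
theorem all_TEN : ST_TEN := st_TEN
theorem all_PUN : ST_PUN := st_PUN all_TEN
theorem all_WSP : ST_WSP := st_WSP all_TEN
theorem all_GBD : ST_GBD := st_GBD all_WSP
theorem all_GLP : ST_GLP := st_GLP all_TEN all_WSP all_GBD
theorem all_SUMI : ST_SUMI := st_SUMI
theorem all_INTB : ST_INTB := st_INTB
theorem all_GEN : ST_GEN := st_GEN all_PUN
theorem all_PZC : ST_PZC := Pool.Agent.Helper78.REC.st_PZC all_GEN all_GBD all_GLP all_SUMI all_INTB
theorem all_EUL : ST_EUL := st_EUL all_EV
theorem all_LBD : ST_LBD := st_LBD all_RCG all_RDU all_PZC all_EUL all_EV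
theorem all_SND : ST_SND := st_SND Pool.Agent.Helper13.ZL.all_PZ all_LBD all_SPY all_XSG
theorem all_HRB : ST_HRB := st_HRB
theorem all_QDV : ST_QDV := st_QDV
theorem all_HEV : ST_HEV := st_HEV all_HRB all_QDV
theorem all_HERB : ST_HERB := Pool.Agent.Helper93.REC.st_HERB all_HEV
theorem all_HES : ST_HES := Pool.Agent.Helper93.REC.st_HES all_HERB
theorem all_POV : ST_POV := st_POV
theorem all_UNV : ST_UNV := st_UNV
theorem all_INFP : ST_INFP := Pool.Agent.Helper61.REC.st_INFP
theorem all_SUN : ST_SUN := st_SUN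
theorem all_H1S : ST_H1S := st_H1S all_POV
theorem all_SUX : ST_SUX := Pool.Agent.Helper78.REC.st_SUX all_HES all_POV all_INFP all_SUN all_H1S
theorem all_SEX : ST_SEX := Pool.Agent.Helper84.REC.st_SEX
theorem all_NBL : ST_NBL := st_NBL
theorem all_VHI : ST_VHI := st_VHI all_NBL all_POV
theorem all_TRL : ST_TRL := st_TRL
theorem all_THE : ST_THE := Pool.Agent.Helper28.TH.st_THE all_EV all_APX all_UNV all_POV
theorem all_CYP : ST_CYP := Pool.Agent.Helper61.REC.st_CYP
theorem all_AXP : ST_AXP := st_AXP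

theorem all_FST_of (CBI : ST_CBI) : ST_FST :=
  Pool.Agent.Helper84.REC.st_FST all_TRL all_SEX
    (Pool.Agent.Helper78.REC.st_NIX (Pool.Agent.Helper78.REC.st_CBS CBI all_INFP all_APX) all_SUX
      all_UNV all_POV) all_THE all_XSG

theorem all_REC_of (CBI : ST_CBI) : ST_REC :=
  st_REC (st_REQ (st_TRK2 (st_TRK1 all_SND (all_FST_of CBI) all_XSG all_DN1 all_FRV) all_CYP
    all_AXP all_DN1 all_RST all_FRV all_OVP) (all_FST_of CBI) all_OVP) all_EV all_FRV all_OVP

theorem all_LAR0_of (CBI : ST_CBI) : ST_LAR0 :=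
  Pool.Agent.Helper18.REC.st_LAR0 (all_REC_of CBI) all_APX all_EV all_FRV all_OVP MU.st_CYC

theorem all_LNM : ST_LNM := st_LNM

theorem all_LARK_of (CBI : ST_CBI) : ST_LARK := st_LARK (all_LAR0_of CBI)

theorem all_CBI : ST_CBI := Pool.Agent.Helper69.REC.st_CBI all_VHI all_HERB all_POV

/-- the first inequality -/
theorem all_FST : ST_FST := all_FST_of all_CBI

/-- the reciprocity law for characters -/
theorem all_REC : ST_REC := all_REC_of all_CBI

theorem all_LAR0 : ST_LAR0 := all_LAR0_of all_CBI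

theorem all_LARK : ST_LARK := all_LARK_of all_CBI

end REC
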