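import Pool.Agent.Helper57.REC.XEN

/-!
# REC, part 12X: row XBG
-/

set_option autoImplicit false

open scoped Classical
open NumberField Polynomial

namespace REC

open Pool.Agent.Helper13.ZL (Pl q)
open MU

/-- pigeonhole for a bounded index -/
theorem xbg_pigeon (m : ℕ) (P : ℕ → ℕ → Prop)
    (h : ∀ c : ℕ, ∃ l j : ℕ, c < l ∧ j < m ∧ P l j) : ∃ j, j < m ∧ ∀ c : ℕ, ∃ l, c < l ∧ P l j := by
  by_contra hcon
  push Not at hcon
  choose! f hf using hcon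
  obtain ⟨l, j, hl, hj, hP⟩ := h (∑ j ∈ Finset.range m, f j)
  have h1 : f j ≤ ∑ j ∈ Finset.range m, f j :=
    Finset.single_le_sum (f := f) (fun _ _ => Nat.zero_le _) (Finset.mem_range.2 hj)
  exact hf j hj l (by omega) hP

/-- XBG -/
theorem st_XBG (hXEN : ST_XEN) (hXGL : ST_XGL) (hXWD : ST_XWD) (hXWR : ST_XWR) (hXWC : ST_XWC)
    (hESP : ST_ESP) (hSLD : ST_SLD) (hSPQ : ST_SPQ) : ST_XBG := by
  intro F L _ _ _ _ n m h b S ρ hun hst hcm hbig hfl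
  obtain ⟨L', _, _, hgal, ⟨f⟩, hne⟩ := hXGL F L
  haveI := hgal
  haveI := hne
  obtain ⟨h1, h2, h3, h4, h5, h6, h7⟩ := (hXEN L L' f n).2 m b F ρ
  rw [h7]
  replace hst := h1 hst
  replace hcm := h2 S hcm
  replace hbig := h6 hbig
  replace hfl := h5 h False hfl
  clear h1 h2 h3 h4 h5 h6 h7
  generalize b.ext f = b' at hst hcm hbig hfl ⊢
  by_contra hcon
  have hd := hXWD F L' n m h b' ρ hun hfl hcon
  obtain ⟨j, hjm, hj⟩ := xbg_pigeon m (fun l j => 0 < j ∧ ∃ _ : Fact l.Prime, b'.Dtj h ρ l j)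
    (fun c => by
      obtain ⟨l, hl, j, hcl, hj0, hjm, hD⟩ := hd c
      exact ⟨l, j, hcl, hjm, hj0, hl, hD⟩)
  obtain ⟨-, -, hj0, -⟩ := hj 0
  obtain ⟨H, hH⟩ := hESP m j
  obtain ⟨e, he⟩ := hXWR F L' n m h b' ρ j H hH (fun c => by
    obtain ⟨l, hcl, -, hl, hD⟩ := hj c
    exact ⟨l, hl, hcl, hD⟩)
  obtain ⟨k, c, hk, hc⟩ := hXWC F L' n m b' S ρ hun.1 hcm H e he
  obtain ⟨cb, hcb⟩ := hbig
  obtain ⟨l, hl, hlt, ⟨g⟩⟩ := hSPQ L' (c + cb + 2 ^ m + k)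
  have hM : 0 < 2 ^ m := Nat.pos_of_ne_zero (by positivity)
  let ι : 𝓞 L' →+* ℚ_[l] := g.comp (algebraMap (𝓞 L') L')
  obtain ⟨R, hR⟩ := hst l ℚ_[l] (algebraMap ℤ_[l] ℚ_[l]) ι (Nat.cast_ne_zero.2 b'.pos.ne')
  obtain ⟨N₀, hN₀⟩ := hcb l (by omega) ι R hR
  have hm2 : 2 ≤ m := by omega
  have hlk : ¬ l ∣ k := fun h => by
    have := Nat.le_of_dvd hk h
    omega
  obtain ⟨C, hC1, hC2⟩ := hSLD m l (N₀ + 1) k hm2 (by omega) hlk (Nat.le_add_left 1 N₀)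
  -- the element of the image
  have hpow : (l : ℤ_[l]) ^ N₀ • ((l : ℤ_[l]) • C) = (l : ℤ_[l]) ^ (N₀ + 1) • C := by
    rw [smul_smul, pow_succ]
  obtain ⟨σ, hσ⟩ := hN₀ ((l : ℤ_[l]) • C) (by rw [hpow]; exact hC1)
  rw [hpow] at hσ
  obtain ⟨a, ha⟩ := hc l (by omega) ι R hR σ
  let K := AlgebraicClosure ℚ_[l]
  let κ : ℚ_[l] →+* K := algebraMap ℚ_[l] K
  let X : Matrix (Fin m) (Fin m) ℚ_[l] := (1 + (l : ℤ_[l]) ^ (N₀ + 1) • C).map (algebraMap ℤ_[l] ℚ_[l])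
  have hX : R σ = X := hσ
  rw [hX] at ha
  have ha' : MvPolynomial.aeval (Cof (κ a) ((X ^ k).charpoly.map κ)) H = 0 := by
    have h1 := congrArg κ ha
    rw [map_zero] at h1
    rw [← h1]
    have h2 : Cof (κ a) ((X ^ k).charpoly.map κ) = fun i => κ (Cof a (X ^ k).charpoly i) := by
      funext i
      cases i with
      | zero => rfl
      | succ i => exact Polynomial.coeff_map κ i
    rw [h2, MvPolynomial.aeval_def, MvPolynomial.aeval_def, MvPolynomial.eval₂_comp_left κ]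
    congr 1
  have hdeg : ((X ^ k).charpoly.map κ).natDegree = m := by
    rw [Polynomial.natDegree_map, Matrix.charpoly_natDegree_eq_dim, Fintype.card_fin]
  obtain ⟨s, hs1, hs2, hs3⟩ := (hH K ((X ^ k).charpoly.map κ) ((Matrix.charpoly_monic _).map _)
    hdeg (κ a)).1 ha'
  refine hC2 C 0 (by rw [smul_zero, add_zero]) s ?_ (by omega) (by omega) a hs3
  have h3 : ((1 + (l : ℤ_[l]) ^ (N₀ + 1) • C) ^ k).map (algebraMap ℤ_[l] ℚ_[l]) = X ^ k := by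
    have h4 : ∀ Y : Matrix (Fin m) (Fin m) ℤ_[l], Y.map (algebraMap ℤ_[l] ℚ_[l]) =
        (algebraMap ℤ_[l] ℚ_[l]).mapMatrix Y := fun Y => rfl
    rw [h4, map_pow]
    rfl
  rw [h3]
  exact hs1

end REC
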