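import Pool.Agent.Helper57.REC.XEN
import Pool.Agent.Helper8.REC.ATP

/-!
# REC, part 12X: row XEE
-/

set_option autoImplicit false

open scoped Classical
open NumberField Polynomial

namespace REC

open Pool.Agent.Helper13.ZL (Pl q)
open MU

/-- homomorphisms from the ring of integers to algebraically closed fields -/
theorem xee_iota (L : Type) [Field L] [NumberField L] (Ω : Type) [Field Ω] [IsAlgClosed Ω] :
    Nonempty (𝓞 L →+* Ω) := by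
  obtain ⟨ι, -⟩ := xen_ext (algebraMap ℤ (𝓞 L)) (FaithfulSMul.algebraMap_injective ℤ (𝓞 L))
    (fun x => RingOfIntegers.isIntegral x) (Int.castRingHom Ω)
  exact ⟨ι⟩

/-- a decomposition over `Ω` -/
theorem dcp_at {n k : ℕ} {L : Type} [Field L] [NumberField L] {m : Fin k → ℕ}
    (b : ∀ i, Blo n (m i) L) (hdc : IsDcp b) {G : Type} [Group G] {l : ℕ} [Fact l.Prime]
    (r : G →* Matrix.GeneralLinearGroup (Fin n) ℤ_[l]) {Ω : Type} [Field Ω] (ϑ : ℤ_[l] →+* Ω)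
    (ι : 𝓞 L →+* Ω) (R : ∀ i, G →* Matrix (Fin (m i)) (Fin (m i)) Ω)
    (hR : ∀ i, (b i).At r ϑ ι (R i)) (hN : ∀ N : ℕ, 0 < N → (∀ i, (b i).N = N) → (N : Ω) ≠ 0) :
    ∃ Q : ∀ i, Matrix (Fin n) (Fin (m i)) Ω, (∀ i, (b i).P.map ι * Q i = 1) ∧
      (∀ i j, i ≠ j → (b i).P.map ι * Q j = 0) ∧ ∑ i, Q i * (b i).P.map ι = 1 ∧
      ∀ i g, (b i).P.map ι * (r g : Matrix (Fin n) (Fin n) ℤ_[l]).map ϑ =
        R i g * (b i).P.map ι := by
  obtain ⟨h0, N, hN0, hbN, hsum⟩ := hdc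
  have hNΩ := hN N hN0 hbN
  refine ⟨fun i => (N : Ω)⁻¹ • (b i).Q.map ι, fun i => ?_, fun i j hij => ?_, ?_,
    fun i g => (hR i).2 g⟩
  · have h1 : (b i).P.map ι * (b i).Q.map ι =
        (N : Ω) • (1 : Matrix (Fin (m i)) (Fin (m i)) Ω) := by
      rw [← Matrix.map_mul, (b i).PQ, Matrix.map_smul' _ _ _ (map_mul _), map_natCast, hbN i,
        Matrix.map_one _ (map_zero _) (map_one _)]
    rw [Matrix.mul_smul, h1, smul_smul, inv_mul_cancel₀ hNΩ, one_smul]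
  · rw [Matrix.mul_smul, ← Matrix.map_mul, h0 i j hij, Matrix.map_zero _ (map_zero _), smul_zero]
  · have h1 := congrArg (fun X : Matrix (Fin n) (Fin n) (𝓞 L) => X.map ι) hsum
    rw [xen_map_sum, Matrix.map_smul' _ _ _ (map_mul _), map_natCast,
      Matrix.map_one _ (map_zero _) (map_one _)] at h1
    have h2 : ∀ i, ((N : Ω)⁻¹ • (b i).Q.map ι) * (b i).P.map ι =
        (N : Ω)⁻¹ • (((b i).Q * (b i).P).map ι) := fun i => by
      rw [Matrix.smul_mul, Matrix.map_mul]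
    rw [Finset.sum_congr rfl fun i _ => h2 i, ← Finset.smul_sum, h1, smul_smul,
      inv_mul_cancel₀ hNΩ, one_smul]

/-- XEE -/
theorem st_XEE (hXPR : ST_XPR) (hXDS : ST_XDS) (hXDC : ST_XDC) (hXLF : ST_XLF) (hSSD : ST_SSD) :
    ST_XEE := by
  intro F L _ _ _ _ n k m b S ρ hcont hdc hb
  have hdc' := hdc
  obtain ⟨h0, N, hN0, hbN, hsum⟩ := hdc
  choose c1 hc1 using fun i j => hXPR F L n (m i) (m j) (b i) (b j) S ρ hcont (hb i).2.1 (hb j).2.1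
    (hb i).2.2 (hb j).2.2
  choose c2 hc2 using fun i => (hb i).2.2
  refine ⟨(∑ i, ∑ j, c1 i j) + (∑ i, c2 i) + N, fun l _ hl => ?_⟩
  have hle : ∀ (f : Fin k → ℕ) (i : Fin k), f i ≤ ∑ i, f i := fun f i =>
    Finset.single_le_sum (f := f) (fun _ _ => Nat.zero_le _) (Finset.mem_univ i)
  have hl1 : ∀ i j, c1 i j < l := fun i j => by
    have h1 := hle (fun i => ∑ j, c1 i j) i
    have h2 := hle (fun j => c1 i j) j
    omega
  have hl2 : ∀ i, c2 i < l := fun i => by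
    have := hle c2 i
    omega
  have hlN : N < l := by omega
  let Ω := AlgebraicClosure (ZMod l)
  let κ : ZMod l →+* Ω := algebraMap (ZMod l) Ω
  let ϑ : ℤ_[l] →+* Ω := κ.comp (PadicInt.toZMod (p := l))
  obtain ⟨ι⟩ := xee_iota L Ω
  let Ω₀ := AlgebraicClosure ℚ_[l]
  let κ₀ : ℚ_[l] →+* Ω₀ := algebraMap ℚ_[l] Ω₀
  let ϑ₀ : ℤ_[l] →+* Ω₀ := κ₀.comp (algebraMap ℤ_[l] ℚ_[l])
  obtain ⟨ι₀⟩ := xee_iota L Ω₀
  haveI : CharZero Ω₀ := charZero_of_injective_algebraMap (algebraMap ℚ_[l] Ω₀).injective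
  have hl0 : (l : Ω) = 0 := by
    rw [← map_natCast κ, ZMod.natCast_self, map_zero]
  have hNΩ : (N : Ω) ≠ 0 := by
    rw [← map_natCast κ]
    intro h
    have h1 : ((N : ℕ) : ZMod l) = 0 := κ.injective (by rw [h, map_zero])
    rw [ZMod.natCast_eq_zero_iff] at h1
    exact absurd (Nat.le_of_dvd hN0 h1) (not_le.2 hlN)
  have hNΩ₀ : (N : Ω₀) ≠ 0 := Nat.cast_ne_zero.2 hN0.ne'
  choose R hR using fun i => (hb i).1 l Ω ϑ ι (by rw [hbN i]; exact hNΩ)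
  choose R₀ hR₀ using fun i => (hb i).1 l Ω₀ ϑ₀ ι₀ (by rw [hbN i]; exact hNΩ₀)
  have hNgen : ∀ N' : ℕ, 0 < N' → (∀ i, (b i).N = N') → k ≠ 0 → N' = N := by
    intro N' _ h1 hk
    rw [← h1 ⟨0, Nat.pos_of_ne_zero hk⟩, hbN]
  rcases Nat.eq_zero_or_pos k with hk | hk
  · -- the zero family
    subst hk
    have hn : n = 0 := by
      by_contra hn
      have h1 := congrFun (congrFun hsum ⟨0, Nat.pos_of_ne_zero hn⟩) ⟨0, Nat.pos_of_ne_zero hn⟩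
      rw [Finset.univ_eq_empty, Finset.sum_empty, Matrix.zero_apply, Matrix.smul_apply,
        Matrix.one_apply_eq, smul_eq_mul, mul_one] at h1
      exact (Nat.cast_ne_zero.2 hN0.ne' : (N : 𝓞 L) ≠ 0) h1.symm
    subst hn
    refine ⟨?_, ?_⟩
    · apply atp_ss
      intro k' B A hBA
      left
      obtain ⟨⟨C, hC⟩, -⟩ := hBA
      by_contra hk
      have hk' : 0 < k' := Nat.pos_of_ne_zero hk
      have := congrFun (congrFun hC ⟨0, hk'⟩) ⟨0, hk'⟩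
      rw [Matrix.one_apply_eq, Matrix.mul_apply] at this
      simp at this
    · intro u _
      exact ⟨0, Subsingleton.elim _ _, fun g => Subsingleton.elim _ _⟩
  obtain ⟨Q, hQ1, hQ2, hQ3, hQ4⟩ := dcp_at b hdc' (ρ l) ϑ ι R hR (fun N' h1 h2 => by
    rw [hNgen N' h1 h2 hk.ne']; exact hNΩ)
  obtain ⟨Q₀, hQ₀1, hQ₀2, hQ₀3, hQ₀4⟩ := dcp_at b hdc' (ρ l) ϑ₀ ι₀ R₀ hR₀ (fun N' h1 h2 => by
    rw [hNgen N' h1 h2 hk.ne']; exact hNΩ₀)
  have hirr : ∀ i, IsIrr (R i) := fun i => hc2 i l (hl2 i) Ω ϑ ι (R i) hl0 (hR i)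
  refine ⟨?_, ?_⟩
  · refine (hXDS (Gal F) (ZMod l) Ω κ n n (res (ρ l)) (res (ρ l))).2 ?_
    exact hSSD (Gal F) Ω n k m (mapk κ (res (ρ l))) R (fun i => (b i).P.map ι) Q hQ1 hQ2 hQ3
      (fun i g => hQ4 i g) (fun i => atp_ss _ (hirr i))
  · apply hXLF (Gal F) n l (ρ l)
    have e1 := (hXDS (Gal F) (ZMod l) Ω κ n n (res (ρ l)) (res (ρ l))).1
    have e2 := hXDC (Gal F) Ω n k m (mapk κ (res (ρ l))) R (fun i => (b i).P.map ι) Q hQ1 hQ2 hQ3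
      (fun i g => hQ4 i g)
    have e3 := (hXDS (Gal F) ℚ_[l] Ω₀ κ₀ n n (rat (ρ l)) (rat (ρ l))).1
    have e4 := hXDC (Gal F) Ω₀ n k m (mapk κ₀ (rat (ρ l))) R₀ (fun i => (b i).P.map ι₀) Q₀ hQ₀1 hQ₀2
      hQ₀3 (fun i g => hQ₀4 i g)
    rw [← e1, ← e3, e2, e4]
    exact Finset.sum_le_sum fun i _ => Finset.sum_le_sum fun j _ =>
      hc1 i j l (hl1 i j) Ω ϑ ι (R i) (R j) hl0 (hR i) (hR j) Ω₀ ϑ₀ ι₀ (R₀ i) (R₀ j) (hR₀ i) (hR₀ j)

end REC
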