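import Pool.Agent.Helper57.REC.StmtsX

/-!
# REC, part 12X: row XEN
-/

set_option autoImplicit false

open scoped Classical
open NumberField Polynomial

namespace REC

open Pool.Agent.Helper13.ZL (Pl q)
open MU

/-- extension of homomorphisms to an algebraically closed field along integral extensions -/
theorem xen_ext {A B Ω : Type} [CommRing A] [CommRing B] [IsDomain B] [Field Ω] [IsAlgClosed Ω]
    (f : A →+* B) (hinj : Function.Injective f) (hint : f.IsIntegral) (ι : A →+* Ω) :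
    ∃ ι' : B →+* Ω, ι'.comp f = ι := by
  letI : Algebra A B := f.toAlgebra
  have hint' : Algebra.IsIntegral A B := ⟨fun x => hint x⟩
  haveI := hint'
  have hinj' : Function.Injective (algebraMap A B) := hinj
  haveI hkp : (RingHom.ker ι).IsPrime := RingHom.ker_isPrime ι
  obtain ⟨P, hP, hPm⟩ := Ideal.exists_ideal_over_prime_of_isIntegral (RingHom.ker ι) (⊥ : Ideal B)
    (by
      intro x hx
      rw [Ideal.mem_comap, Ideal.mem_bot] at hx
      have : x = 0 := hinj' (by rw [hx, map_zero])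
      rw [this]
      exact Ideal.zero_mem _)
  obtain ⟨hPp, hPc⟩ := hPm
  haveI := hPp
  have hker : ∀ x : A, f x ∈ P ↔ ι x = 0 := by
    intro x
    have h1 : x ∈ P.comap (algebraMap A B) ↔ x ∈ RingHom.ker ι := by rw [hPc]
    rw [Ideal.mem_comap, RingHom.mem_ker] at h1
    exact h1
  let g : A ⧸ RingHom.ker ι →+* B ⧸ P := Ideal.quotientMap P f (by
    intro x hx
    rw [Ideal.mem_comap]
    exact (hker x).2 hx)
  have hginj : Function.Injective g := by
    rw [injective_iff_map_eq_zero]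
    intro x
    obtain ⟨y, rfl⟩ := Ideal.Quotient.mk_surjective x
    intro hy
    rw [Ideal.quotientMap_mk, Ideal.Quotient.eq_zero_iff_mem] at hy
    rw [Ideal.Quotient.eq_zero_iff_mem]
    exact (hker y).1 hy
  let j : A ⧸ RingHom.ker ι →+* Ω := Ideal.Quotient.lift _ ι (fun x hx => hx)
  have hjinj : Function.Injective j := RingHom.kerLift_injective ι
  letI : Algebra (A ⧸ RingHom.ker ι) (B ⧸ P) := g.toAlgebra
  letI : Algebra (A ⧸ RingHom.ker ι) Ω := j.toAlgebra
  haveI : FaithfulSMul (A ⧸ RingHom.ker ι) (B ⧸ P) :=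
    (faithfulSMul_iff_algebraMap_injective _ _).2 hginj
  haveI : FaithfulSMul (A ⧸ RingHom.ker ι) Ω :=
    (faithfulSMul_iff_algebraMap_injective _ _).2 hjinj
  have hgint : g.IsIntegral := by
    intro x
    obtain ⟨y, rfl⟩ := Ideal.Quotient.mk_surjective x
    obtain ⟨p, hp, hpy⟩ := hint y
    refine ⟨p.map (Ideal.Quotient.mk _), hp.map _, ?_⟩
    rw [Polynomial.eval₂_map]
    have h1 : g.comp (Ideal.Quotient.mk (RingHom.ker ι)) = (Ideal.Quotient.mk P).comp f := by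
      ext z
      rfl
    rw [h1, ← Polynomial.hom_eval₂, hpy, map_zero]
  haveI : Algebra.IsIntegral (A ⧸ RingHom.ker ι) (B ⧸ P) := ⟨fun x => hgint x⟩
  haveI : Algebra.IsAlgebraic (A ⧸ RingHom.ker ι) (B ⧸ P) := Algebra.IsIntegral.isAlgebraic
  let φ : (B ⧸ P) →ₐ[A ⧸ RingHom.ker ι] Ω := IsAlgClosed.lift
  refine ⟨φ.toRingHom.comp (Ideal.Quotient.mk P), ?_⟩
  ext x
  have h1 : (Ideal.Quotient.mk P) (f x) = algebraMap (A ⧸ RingHom.ker ι) (B ⧸ P)
      (Ideal.Quotient.mk _ x) := rfl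
  change φ ((Ideal.Quotient.mk P) (f x)) = ι x
  rw [h1, φ.commutes]
  rfl

theorem xen_map_sum {k n : ℕ} {A B : Type} [CommRing A] [CommRing B] (f : A →+* B)
    (M : Fin k → Matrix (Fin n) (Fin n) A) : (∑ i, M i).map f = ∑ i, (M i).map f := by
  have h5 : ∀ X : Matrix (Fin n) (Fin n) A, X.map f = f.mapMatrix X := fun X => rfl
  rw [h5, map_sum]
  rfl

theorem xen_at {n m : ℕ} {L L' : Type} [Field L] [NumberField L] [Field L'] [NumberField L']
    (b : Blo n m L) (f : L →+* L') {G : Type} [Group G] {l : ℕ} [Fact l.Prime] {Ω : Type}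
    [Field Ω] (r : G →* Matrix.GeneralLinearGroup (Fin n) ℤ_[l]) (ϑ : ℤ_[l] →+* Ω)
    (ι : 𝓞 L' →+* Ω) (R : G →* Matrix (Fin m) (Fin m) Ω) :
    (b.ext f).At r ϑ ι R ↔ b.At r ϑ (ι.comp (RingOfIntegers.mapRingHom f)) R := Iff.rfl

theorem xen_irr {G K k : Type} [Group G] [Field K] [Field k] {n : ℕ} (κ : K →+* k)
    (r : G →* Matrix (Fin n) (Fin n) K) (h : IsIrr (mapk κ r)) : IsIrr r := by
  intro m B A hBA
  obtain ⟨⟨C, hC⟩, hA⟩ := hBA
  refine h m (B.map κ) (fun g => (A g).map κ) ⟨⟨C.map κ, ?_⟩, fun g => ?_⟩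
  · rw [← Matrix.map_mul, hC, Matrix.map_one _ (map_zero _) (map_one _)]
  · change (r g).map κ * B.map κ = _
    rw [← Matrix.map_mul, hA g, Matrix.map_mul]

/-- XEN -/
theorem st_XEN : ST_XEN := by
  intro L L' _ _ _ _ f n
  have hfinj : Function.Injective (RingOfIntegers.mapRingHom f) := by
    intro x y hxy
    apply RingOfIntegers.ext
    apply f.injective
    exact congrArg (fun z : 𝓞 L' => (z : L')) hxy
  have hfint : (RingOfIntegers.mapRingHom f).IsIntegral := by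
    intro x
    have h1 : IsIntegral ℤ x := RingOfIntegers.isIntegral x
    obtain ⟨p, hp, hpx⟩ := h1
    refine ⟨p.map (Int.castRingHom _), hp.map _, ?_⟩
    rw [Polynomial.eval₂_map]
    have h2 : (RingOfIntegers.mapRingHom f).comp (Int.castRingHom (𝓞 L)) =
        algebraMap ℤ (𝓞 L') := RingHom.ext_int _ _
    rw [h2]
    exact hpx
  refine ⟨?_, ?_⟩
  · intro k m b hb
    obtain ⟨h1, N, hN, h2, h3⟩ := hb
    refine ⟨fun i j hij => ?_, N, hN, h2, ?_⟩
    · change ((b i).P.map (RingOfIntegers.mapRingHom f)) *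
        ((b j).Q.map (RingOfIntegers.mapRingHom f)) = 0
      rw [← Matrix.map_mul, h1 i j hij, Matrix.map_zero _ (map_zero _)]
    · have h4 : ∀ i, ((b i).ext f).Q * ((b i).ext f).P =
          ((b i).Q * (b i).P).map (RingOfIntegers.mapRingHom f) := fun i => by
        rw [Matrix.map_mul]
        rfl
      rw [Finset.sum_congr rfl fun i _ => h4 i, ← xen_map_sum, h3,
        Matrix.map_smul' _ _ _ (map_mul _), map_natCast, Matrix.map_one _ (map_zero _) (map_one _)]
  · intro m b F _ _ ρ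
    refine ⟨?_, ?_, ?_, ?_, ?_, ?_, ?_, ?_⟩
    · intro h l _ Ω _ ϑ ι hN
      exact h l Ω ϑ (ι.comp (RingOfIntegers.mapRingHom f)) hN
    · intro S h p hp hpS 𝔓 ho k σ hk hσ
      obtain ⟨Φ, hΦ⟩ := h p hp hpS 𝔓 ho k σ hk hσ
      refine ⟨Φ.map (RingOfIntegers.mapRingHom f), fun l _ hl Ω _ ϑ ι R hR => ?_⟩
      rw [Polynomial.map_map]
      exact hΦ l hl Ω ϑ _ R hR
    · rintro ⟨H, hH, h⟩
      exact ⟨H, hH, fun l _ Ω _ _ ϑ ι R hR => h l Ω ϑ (ι.comp (RingOfIntegers.mapRingHom f)) R hR⟩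
    · intro h l _ Ω _ _ ϑ ι R hR
      exact h l Ω ϑ (ι.comp (RingOfIntegers.mapRingHom f)) R hR
    · rintro h d ⟨c, hc⟩
      exact ⟨c, fun l _ hl Ω _ ϑ ι ι' R h0 hR => hc l hl Ω ϑ (ι.comp (RingOfIntegers.mapRingHom f)) ι' R h0 hR⟩
    · rintro ⟨c, hc⟩
      exact ⟨c, fun l _ hl ι R hR => hc l hl (ι.comp (RingOfIntegers.mapRingHom f)) R hR⟩
    · rintro ⟨c, hc⟩
      exact ⟨c, fun l _ hl Ω _ ϑ ι R h0 hR => hc l hl Ω ϑ (ι.comp (RingOfIntegers.mapRingHom f)) R h0 hR⟩
    · rintro ⟨c, hc⟩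
      refine ⟨c, fun l _ hl Ω _ ϑ ι R h0 hR => ?_⟩
      let κ : Ω →+* AlgebraicClosure Ω := algebraMap Ω (AlgebraicClosure Ω)
      obtain ⟨ι', hι'⟩ := xen_ext (RingOfIntegers.mapRingHom f) hfinj hfint (κ.comp ι)
      apply xen_irr κ
      refine hc l hl (AlgebraicClosure Ω) (κ.comp ϑ) ι' (mapk κ R) ?_ ?_
      · rw [← map_natCast κ, h0, map_zero]
      · rw [xen_at, hι']
        refine ⟨?_, fun g => ?_⟩
        · rw [← map_natCast κ]
          exact fun h => hR.1 (κ.injective (by rw [h, map_zero]))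
        · have h1 := congrArg (fun X : Matrix (Fin m) (Fin n) Ω => X.map κ) (hR.2 g)
          simp only [Matrix.map_mul, Matrix.map_map] at h1
          exact h1

end REC
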