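import Pool.Agent.Helper57.REC.StmtsX
import Pool.Agent.Helper43.MU.Sub
import Pool.Agent.Helper37.Lin.ALG1

/-!
# REC, part 12X: row XI0
-/

set_option autoImplicit false

open scoped Classical
open NumberField Polynomial

namespace REC

open Pool.Agent.Helper13.ZL (Pl q)
open MU

/-- `R g` in terms of `r g` -/
theorem blo_at_eq {n m : ℕ} {L : Type} [Field L] [NumberField L] (b : Blo n m L) {G : Type}
    [Group G] {l : ℕ} [Fact l.Prime] {Ω : Type} [Field Ω]
    (r : G →* Matrix.GeneralLinearGroup (Fin n) ℤ_[l]) (ϑ : ℤ_[l] →+* Ω) (ι : 𝓞 L →+* Ω)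
    (R : G →* Matrix (Fin m) (Fin m) Ω) (h : b.At r ϑ ι R) (g : G) :
    b.P.map ι * (r g : Matrix (Fin n) (Fin n) ℤ_[l]).map ϑ * b.Q.map ι = (b.N : Ω) • R g := by
  have h1 : b.P.map ι * b.Q.map ι = (b.N : Ω) • (1 : Matrix (Fin m) (Fin m) Ω) := by
    rw [← Matrix.map_mul, b.PQ, Matrix.map_smul' _ _ _ (map_mul _), map_natCast,
      Matrix.map_one _ (map_zero _) (map_one _)]
  rw [h.2 g, Matrix.mul_assoc, h1, Matrix.mul_smul, Matrix.mul_one]

/-- irreducible representations over an algebraically closed field contain a basis of the matrix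
algebra -/
theorem xi0_basis {G K : Type} [Group G] [Field K] [IsAlgClosed K] {m : ℕ} (hm : 0 < m)
    (r : G →* Matrix (Fin m) (Fin m) K) (h : IsIrr r) :
    ∃ g : Fin m × Fin m → G,
      (Matrix.of fun (a b : Fin m × Fin m) => r (g a) b.1 b.2).det ≠ 0 := by
  haveI : Nonempty (Fin m) := ⟨⟨0, hm⟩⟩
  haveI : Nontrivial (Fin m → K) := inferInstance
  let A : Subalgebra K (Module.End K (Fin m → K)) :=
    Algebra.adjoin K (Set.range fun g => Matrix.toLin' (r g))
  have hA : A = ⊤ := by
    apply Pool.Agent.Helper37.Lin.alg1_burnside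
    intro F hF
    exact irr_stable h F fun g v hv => hF _ (Algebra.subset_adjoin ⟨g, rfl⟩) v hv
  -- the span of the image
  let W : Submodule K (Matrix (Fin m) (Fin m) K) := Submodule.span K (Set.range r)
  have hW1 : (1 : Matrix (Fin m) (Fin m) K) ∈ W :=
    Submodule.subset_span ⟨1, map_one r⟩
  have hWm : ∀ x ∈ W, ∀ y ∈ W, x * y ∈ W := by
    intro x hx y hy
    refine Submodule.span_induction₂ (p := fun x y _ _ => x * y ∈ W) ?_ ?_ ?_ ?_ ?_ ?_ ?_ hx hy
    · rintro _ _ ⟨a, rfl⟩ ⟨b, rfl⟩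
      exact Submodule.subset_span ⟨a * b, map_mul r a b⟩
    · intro y _
      rw [zero_mul]
      exact W.zero_mem
    · intro x _
      rw [mul_zero]
      exact W.zero_mem
    · intro x y z _ _ _ h1 h2
      rw [add_mul]
      exact W.add_mem h1 h2
    · intro x y z _ _ _ h1 h2
      rw [mul_add]
      exact W.add_mem h1 h2
    · intro c x y _ _ h1
      rw [smul_mul_assoc]
      exact W.smul_mem c h1
    · intro c x y _ _ h1
      rw [mul_smul_comm]
      exact W.smul_mem c h1
  have hWtop : W = ⊤ := by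
    rw [eq_top_iff]
    intro x _
    have h1 : Matrix.toLin' x ∈ A := by rw [hA]; trivial
    have h2 : ∀ f ∈ A, LinearMap.toMatrix' f ∈ W := by
      intro f hf
      refine Algebra.adjoin_induction (p := fun f _ => LinearMap.toMatrix' f ∈ W) ?_ ?_ ?_ ?_ hf
      · rintro _ ⟨g, rfl⟩
        simp only [LinearMap.toMatrix'_toLin']
        exact Submodule.subset_span ⟨g, rfl⟩
      · intro c
        rw [Algebra.algebraMap_eq_smul_one, map_smul]
        have h3 : LinearMap.toMatrix' (1 : Module.End K (Fin m → K)) = 1 :=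
          LinearMap.toMatrix'_id
        rw [h3]
        exact W.smul_mem c hW1
      · intro a b _ _ ha hb
        rw [map_add]
        exact W.add_mem ha hb
      · intro a b _ _ ha hb
        rw [LinearMap.toMatrix'_mul]
        exact hWm _ ha _ hb
    have h3 := h2 _ h1
    rwa [LinearMap.toMatrix'_toLin'] at h3
  obtain ⟨κ, a, hinj, hspan, hlin⟩ := exists_linearIndependent' K (fun g => r g)
  have hspan' : ⊤ ≤ Submodule.span K (Set.range ((fun g => r g) ∘ a)) := by
    rw [hspan]
    exact hWtop.ge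
  let bas : Module.Basis κ K (Matrix (Fin m) (Fin m) K) := Module.Basis.mk hlin hspan'
  let std := Matrix.stdBasis K (Fin m) (Fin m)
  let e : κ ≃ Fin m × Fin m := bas.indexEquiv std
  refine ⟨fun i => a (e.symm i), ?_⟩
  have hrows : LinearIndependent K (fun i : Fin m × Fin m => r (a (e.symm i))) := by
    have h1 := hlin.comp e.symm e.symm.injective
    exact h1
  let φ : Matrix (Fin m) (Fin m) K ≃ₗ[K] (Fin m × Fin m → K) :=
    { toFun := fun x b => x b.1 b.2
      invFun := fun x i j => x (i, j)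
      map_add' := fun x y => rfl
      map_smul' := fun c x => rfl
      left_inv := fun x => rfl
      right_inv := fun x => rfl }
  have h2 : LinearIndependent K (fun i : Fin m × Fin m => φ (r (a (e.symm i)))) :=
    hrows.map' φ.toLinearMap φ.ker
  have h3 : IsUnit (Matrix.of fun (i b : Fin m × Fin m) => r (a (e.symm i)) b.1 b.2) := by
    rw [← Matrix.linearIndependent_rows_iff_isUnit]
    exact h2
  exact ((Matrix.isUnit_iff_isUnit_det _).1 h3).ne_zero

/-- the converse -/
theorem xi0_irr {G K : Type} [Group G] [Field K] {m : ℕ} (r : G →* Matrix (Fin m) (Fin m) K)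
    (g : Fin m × Fin m → G)
    (hg : (Matrix.of fun (a b : Fin m × Fin m) => r (g a) b.1 b.2).det ≠ 0) : IsIrr r := by
  have h1 := Matrix.linearIndependent_rows_of_det_ne_zero hg
  let φ : (Fin m × Fin m → K) ≃ₗ[K] Matrix (Fin m) (Fin m) K :=
    { toFun := fun x i j => x (i, j)
      invFun := fun x b => x b.1 b.2
      map_add' := fun x y => rfl
      map_smul' := fun c x => rfl
      left_inv := fun x => rfl
      right_inv := fun x => rfl }
  have h2 : LinearIndependent K (fun a => r (g a)) := h1.map' φ.toLinearMap φ.ker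
  have h3 : Submodule.span K (Set.range fun a => r (g a)) = ⊤ := by
    apply h2.span_eq_top_of_card_eq_finrank'
    rw [Module.finrank_matrix, Fintype.card_prod, Module.finrank_self, mul_one]
  intro k B A hBA
  obtain ⟨⟨C, hC⟩, hA⟩ := hBA
  by_contra hcon
  rw [not_or] at hcon
  obtain ⟨hk0, hkm⟩ := hcon
  -- all matrices preserve the image of `B`
  have h4 : ∀ X : Matrix (Fin m) (Fin m) K, X * B = B * (C * (X * B)) := by
    intro X
    have hX : X ∈ Submodule.span K (Set.range fun a => r (g a)) := by rw [h3]; trivial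
    refine Submodule.span_induction (p := fun X _ => X * B = B * (C * (X * B))) ?_ ?_ ?_ ?_ hX
    · rintro _ ⟨a, rfl⟩
      simp only
      rw [hA, ← Matrix.mul_assoc C, hC, Matrix.one_mul]
    · rw [Matrix.zero_mul, Matrix.mul_zero, Matrix.mul_zero]
    · intro x y _ _ hx hy
      rw [Matrix.add_mul, Matrix.mul_add, Matrix.mul_add, ← hx, ← hy]
    · intro c x _ hx
      rw [Matrix.smul_mul, Matrix.mul_smul, Matrix.mul_smul, ← hx]
  have hk : 0 < k := Nat.pos_of_ne_zero hk0
  -- a nonzero entry of `B`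
  have hBne : B ≠ 0 := by
    rintro rfl
    rw [Matrix.mul_zero] at hC
    have := congrFun (congrFun hC ⟨0, hk⟩) ⟨0, hk⟩
    rw [Matrix.one_apply_eq] at this
    exact zero_ne_one this
  obtain ⟨i₀, j₀, hij⟩ : ∃ i j, B i j ≠ 0 := by
    by_contra hcon
    push Not at hcon
    exact hBne (by ext i j; exact hcon i j)
  have h5 : B * C = 1 := by
    ext i j
    have h6 := h4 (Matrix.single j i₀ 1)
    -- compare column `j₀`
    have h7 : ∀ x : Fin m, (Matrix.single j i₀ (1 : K) * B) x j₀ = if x = j then B i₀ j₀ else 0 := by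
      intro x
      by_cases hx : x = j
      · subst hx
        rw [Matrix.single_mul_apply_same, one_mul, if_pos rfl]
      · rw [Matrix.single_mul_apply_of_ne _ _ _ _ _ hx, if_neg hx]
    have h8 := congrFun (congrFun h6 i) j₀
    rw [← Matrix.mul_assoc, h7, Matrix.mul_apply] at h8
    have h9 : ∑ x, (B * C) i x * (Matrix.single j i₀ (1 : K) * B) x j₀ = (B * C) i j * B i₀ j₀ := by
      rw [Finset.sum_eq_single j]
      · rw [h7, if_pos rfl]
      · intro x _ hx
        rw [h7, if_neg hx, mul_zero]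
      · intro hx
        exact absurd (Finset.mem_univ j) hx
    rw [h9] at h8
    rw [Matrix.one_apply]
    split_ifs at h8 ⊢ with h10
    · exact (mul_right_cancel₀ hij (by rw [one_mul]; exact h8)).symm
    · exact (mul_eq_zero.1 h8.symm).resolve_right hij
  apply hkm
  have h10 : (B * C).trace = (C * B).trace := Matrix.trace_mul_comm B C
  have e : Fin k ≃ Fin m := by
    let f : (Fin k → K) ≃ₗ[K] (Fin m → K) :=
      { Matrix.mulVecLin B with
        invFun := fun v => C.mulVec v
        left_inv := fun v => by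
          change C.mulVec (B.mulVec v) = v
          rw [Matrix.mulVec_mulVec, hC, Matrix.one_mulVec]
        right_inv := fun v => by
          change B.mulVec (C.mulVec v) = v
          rw [Matrix.mulVec_mulVec, h5, Matrix.one_mulVec] }
    have hf := f.finrank_eq
    rw [Module.finrank_fin_fun, Module.finrank_fin_fun] at hf
    exact finCongr hf
  simpa using Fintype.card_congr e

/-- XI0 -/
theorem st_XI0 : ST_XI0 := by
  intro F L _ _ _ _ n m b ρ hirl
  obtain ⟨c, hc⟩ := hirl
  refine ⟨max c b.N, fun l _ hl Ω _ _ ϑ ι R hR => ?_⟩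
  have hlc : c < l := lt_of_le_of_lt (le_max_left _ _) hl
  have hlN : b.N < l := lt_of_le_of_lt (le_max_right _ _) hl
  rcases Nat.eq_zero_or_pos m with hm | hm
  · subst hm
    intro k B A hBA
    obtain ⟨⟨C, hC⟩, -⟩ := hBA
    left
    by_contra hk
    have hk' : 0 < k := Nat.pos_of_ne_zero hk
    have := congrFun (congrFun hC ⟨0, hk'⟩) ⟨0, hk'⟩
    rw [Matrix.one_apply_eq, Matrix.mul_apply] at this
    simp at this
  -- the integral closure of `ℤ_l`
  letI : Algebra ℤ_[l] Ω := ϑ.toAlgebra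
  let A : Subalgebra ℤ_[l] Ω := integralClosure ℤ_[l] Ω
  have hϑinj : Function.Injective ϑ := by
    rw [injective_iff_map_eq_zero]
    intro x hx
    by_contra hx0
    have h1 : x = (PadicInt.unitCoeff hx0 : ℤ_[l]) * (l : ℤ_[l]) ^ x.valuation :=
      PadicInt.unitCoeff_spec hx0
    rw [h1, map_mul, map_pow, map_natCast] at hx
    rcases mul_eq_zero.1 hx with h2 | h2
    · exact ((PadicInt.unitCoeff hx0).isUnit.map ϑ).ne_zero h2
    · exact (Nat.cast_ne_zero.2 (Fact.out (p := l.Prime)).ne_zero) (pow_eq_zero_iff'.1 h2).1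
  obtain ⟨Q, hQm, hQc⟩ := Ideal.exists_ideal_over_maximal_of_isIntegral (S := A)
    (IsLocalRing.maximalIdeal ℤ_[l]) (by
      intro x hx
      rw [RingHom.mem_ker] at hx
      have h1 : ϑ x = 0 := congrArg (fun z : A => (z : Ω)) hx
      have h2 : x = 0 := hϑinj (by rw [h1, map_zero])
      rw [h2]
      exact Ideal.zero_mem _)
  haveI := hQm
  letI : Field (A ⧸ Q) := Ideal.Quotient.field Q
  let π : A →+* AlgebraicClosure (A ⧸ Q) :=
    (algebraMap (A ⧸ Q) (AlgebraicClosure (A ⧸ Q))).comp (Ideal.Quotient.mk Q)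
  let ϑA : ℤ_[l] →+* A := algebraMap ℤ_[l] A
  have hιA : ∀ x : 𝓞 L, ι x ∈ A := by
    intro x
    have h1 : IsIntegral ℤ x := RingOfIntegers.isIntegral x
    obtain ⟨p, hp, hpx⟩ := h1
    refine ⟨p.map (Int.castRingHom ℤ_[l]), hp.map _, ?_⟩
    rw [Polynomial.eval₂_map]
    have h2 : (algebraMap ℤ_[l] Ω).comp (Int.castRingHom ℤ_[l]) =
        ι.comp (algebraMap ℤ (𝓞 L)) := RingHom.ext_int _ _
    rw [h2, ← Polynomial.hom_eval₂, hpx, map_zero]
  let ιA : 𝓞 L →+* A := ι.codRestrict A hιA
  obtain ⟨u, hu⟩ : ∃ u : ℤ_[l], u * (b.N : ℤ_[l]) = 1 := by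
    have h1 : IsUnit ((b.N : ℕ) : ℤ_[l]) := by
      rw [PadicInt.isUnit_iff, PadicInt.norm_def]
      have h2 : ¬ l ∣ b.N := fun h => absurd (Nat.le_of_dvd b.pos h) (not_le.2 hlN)
      have h3 : ¬ ‖((b.N : ℕ) : ℤ_[l])‖ < 1 := by
        intro h4
        have h5 : ‖((b.N : ℤ) : ℤ_[l])‖ < 1 := by exact_mod_cast h4
        rw [PadicInt.norm_int_lt_one_iff_dvd] at h5
        exact h2 (by exact_mod_cast h5)
      exact le_antisymm (PadicInt.norm_le_one _) (not_lt.1 h3)
    obtain ⟨v, hv⟩ := h1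
    exact ⟨((v⁻¹ : ℤ_[l]ˣ) : ℤ_[l]), by rw [← hv, Units.inv_mul]⟩
  let s : A →+* Ω := A.val.toRingHom
  have hs : Function.Injective s := Subtype.val_injective
  have hsm : ∀ {a c : ℕ} (X Y : Matrix (Fin a) (Fin c) A), X.map s = Y.map s → X = Y := by
    intro a c X Y h
    ext i j
    exact congrArg (fun z : Ω => z) (congrFun (congrFun h i) j)
  have hsϑ : ∀ x : ℤ_[l], s (ϑA x) = ϑ x := fun x => rfl
  have hsι : ∀ x : 𝓞 L, s (ιA x) = ι x := fun x => rfl
  let RA0 : Gal F → Matrix (Fin m) (Fin m) A := fun g =>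
    ϑA u • (b.P.map ιA * (ρ l g : Matrix (Fin n) (Fin n) ℤ_[l]).map ϑA * b.Q.map ιA)
  have hRA : ∀ g, (RA0 g).map s = R g := by
    intro g
    have h1 := blo_at_eq b (ρ l) ϑ ι R hR g
    change (ϑA u • (b.P.map ιA * (ρ l g : Matrix (Fin n) (Fin n) ℤ_[l]).map ϑA *
      b.Q.map ιA)).map s = R g
    rw [Matrix.map_smul' _ _ _ (map_mul _), Matrix.map_mul, Matrix.map_mul]
    have h2 : (b.P.map ιA).map s = b.P.map ι := rfl
    have h3 : (b.Q.map ιA).map s = b.Q.map ι := rfl
    have h4 : ((ρ l g : Matrix (Fin n) (Fin n) ℤ_[l]).map ϑA).map s =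
      (ρ l g : Matrix (Fin n) (Fin n) ℤ_[l]).map ϑ := rfl
    rw [h2, h3, h4, h1, smul_smul, hsϑ]
    have h5 : ϑ u * (b.N : Ω) = 1 := by
      rw [← map_natCast ϑ, ← map_mul, hu, map_one]
    rw [h5, one_smul]
  let RA : Gal F →* Matrix (Fin m) (Fin m) A :=
    { toFun := RA0
      map_one' := by
        apply hsm
        change (RA0 1).map s = (1 : Matrix (Fin m) (Fin m) A).map s
        rw [hRA, map_one, Matrix.map_one _ (map_zero _) (map_one _)]
      map_mul' := fun x y => by
        apply hsm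
        change (RA0 (x * y)).map s = (RA0 x * RA0 y).map s
        rw [hRA, map_mul, Matrix.map_mul, hRA, hRA] }
  let R' : Gal F →* Matrix (Fin m) (Fin m) (AlgebraicClosure (A ⧸ Q)) :=
    ((π.mapMatrix (m := Fin m)).toMonoidHom).comp RA
  have hl0 : (l : AlgebraicClosure (A ⧸ Q)) = 0 := by
    have h1 : ((l : ℕ) : ℤ_[l]) ∈ IsLocalRing.maximalIdeal ℤ_[l] := by
      rw [PadicInt.maximalIdeal_eq_span_p]
      exact Ideal.subset_span rfl
    rw [← hQc, Ideal.mem_comap, map_natCast] at h1
    rw [← map_natCast π]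
    change (algebraMap (A ⧸ Q) (AlgebraicClosure (A ⧸ Q))) (Ideal.Quotient.mk Q (l : A)) = 0
    rw [Ideal.Quotient.eq_zero_iff_mem.2 h1, map_zero]
  have hat : b.At (ρ l) (π.comp ϑA) (π.comp ιA) R' := by
    refine ⟨fun h0 => ?_, fun g => ?_⟩
    · have h1 : π (ϑA u) * (b.N : AlgebraicClosure (A ⧸ Q)) = 1 := by
        rw [← map_natCast π, ← map_natCast ϑA, ← map_mul, ← map_mul, hu, map_one, map_one]
      rw [h0, mul_zero] at h1
      exact zero_ne_one h1
    · have h1 : b.P.map ιA * (ρ l g : Matrix (Fin n) (Fin n) ℤ_[l]).map ϑA =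
          RA g * b.P.map ιA := by
        apply hsm
        change (b.P.map ιA * (ρ l g : Matrix (Fin n) (Fin n) ℤ_[l]).map ϑA).map s =
          (RA0 g * b.P.map ιA).map s
        rw [Matrix.map_mul, Matrix.map_mul, hRA]
        exact hR.2 g
      have h2 := congrArg (fun X : Matrix (Fin m) (Fin n) A => X.map π) h1
      simp only [Matrix.map_mul, Matrix.map_map] at h2
      exact h2
  have hirr := hc l hlc (AlgebraicClosure (A ⧸ Q)) (π.comp ϑA) (π.comp ιA) R' hl0 hat
  obtain ⟨g, hg⟩ := xi0_basis hm R' hirr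
  apply xi0_irr R g
  intro h0
  apply hg
  have h1 : (Matrix.of fun (a b : Fin m × Fin m) => RA (g a) b.1 b.2).det = 0 := by
    apply hs
    rw [map_zero, RingHom.map_det]
    rw [← h0]
    congr 1
    ext a b
    change s (RA0 (g a) b.1 b.2) = R (g a) b.1 b.2
    rw [← hRA (g a)]
    rfl
  have h2 := congrArg π h1
  rw [map_zero, RingHom.map_det] at h2
  exact h2

end REC
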