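import Pool.Agent.Helper57.REC.StmtsX
import Pool.Agent.Helper8.REC.ATP

/-!
# REC, part 12X: row XPR
-/

set_option autoImplicit false

open scoped Classical
open NumberField Polynomial

namespace REC

open Pool.Agent.Helper13.ZL (Pl q)
open MU

/-- XPR -/
theorem st_XPR (hXSC : ST_XSC) (hXEQ : ST_XEQ) (hXI0 : ST_XI0) (hSEM : ST_SEM) : ST_XPR := by
  intro F L _ _ _ _ n m m' b b' S ρ hcont hcm hcm' hirl hirl'
  obtain ⟨c1, hc1⟩ := hirl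
  obtain ⟨c2, hc2⟩ := hirl'
  obtain ⟨c3, hc3⟩ := hXI0 F L n m b ρ ⟨c1, hc1⟩
  obtain ⟨c4, hc4⟩ := hXI0 F L n m' b' ρ ⟨c2, hc2⟩
  by_cases hbad : ∀ c : ℕ, ∃ (l : ℕ) (_ : Fact l.Prime), c < l ∧ ∃ (Ω : Type) (_ : Field Ω)
      (_ : IsAlgClosed Ω) (ϑ : ℤ_[l] →+* Ω) (ι : 𝓞 L →+* Ω) (R : Gal F →* Matrix (Fin m) (Fin m) Ω)
      (R' : Gal F →* Matrix (Fin m') (Fin m') Ω), (l : Ω) = 0 ∧ b.At (ρ l) ϑ ι R ∧
        b'.At (ρ l) ϑ ι R' ∧ Hmk R R' ≠ ⊥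
  · have key : ∀ (l : ℕ) [Fact l.Prime], c1 < l → c2 < l → ∀ (Ω : Type) [Field Ω] [IsAlgClosed Ω]
        (ϑ : ℤ_[l] →+* Ω) (ι : 𝓞 L →+* Ω) (R : Gal F →* Matrix (Fin m) (Fin m) Ω)
        (R' : Gal F →* Matrix (Fin m') (Fin m') Ω), (l : Ω) = 0 → b.At (ρ l) ϑ ι R →
        b'.At (ρ l) ϑ ι R' → Hmk R R' ≠ ⊥ → m = m' ∧ ∀ g, (R g).trace = (R' g).trace := by
      intro l _ h1 h2 Ω _ _ ϑ ι R R' h0 hR hR' hne
      obtain ⟨u, hu, hu0⟩ := Submodule.exists_mem_ne_zero_of_ne_bot hne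
      exact (hXSC (Gal F) Ω m m' R R' (hc1 l h1 Ω ϑ ι R h0 hR) (hc2 l h2 Ω ϑ ι R' h0 hR')).2 u hu hu0
    have hmm : m = m' := by
      obtain ⟨l, hl, hlt, Ω, _, _, ϑ, ι, R, R', h0, hR, hR', hne⟩ := hbad (max c1 c2)
      exact (key l (lt_of_le_of_lt (le_max_left _ _) hlt) (lt_of_le_of_lt (le_max_right _ _) hlt)
        Ω ϑ ι R R' h0 hR hR' hne).1
    subst hmm
    have htr := hXEQ F L n m m b b' S ρ hcont hcm hcm' (fun c => by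
      obtain ⟨l, hl, hlt, Ω, i1, i2, ϑ, ι, R, R', h0, hR, hR', hne⟩ := hbad (max c (max c1 c2))
      refine ⟨l, hl, lt_of_le_of_lt (le_max_left _ _) hlt, Ω, i1, ϑ, ι, R, R', h0, hR, hR', ?_⟩
      have h3 := lt_of_le_of_lt (le_max_right _ _) hlt
      exact (key l (lt_of_le_of_lt (le_max_left _ _) h3) (lt_of_le_of_lt (le_max_right _ _) h3)
        Ω ϑ ι R R' h0 hR hR' hne).2)
    refine ⟨max (max c1 c2) (max c3 c4), fun l _ hl Ω _ _ ϑ ι R R' h0 hR hR' Ω₀ _ _ ϑ₀ ι₀ R₀ R₀' hR₀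
      hR₀' => ?_⟩
    have hl12 := lt_of_le_of_lt (le_max_left _ _) hl
    have hl34 := lt_of_le_of_lt (le_max_right _ _) hl
    have hl1 := lt_of_le_of_lt (le_max_left _ _) hl12
    have hl2 := lt_of_le_of_lt (le_max_right _ _) hl12
    have hl3 := lt_of_le_of_lt (le_max_left _ _) hl34
    have hl4 := lt_of_le_of_lt (le_max_right _ _) hl34
    have hle := (hXSC (Gal F) Ω m m R R' (hc1 l hl1 Ω ϑ ι R h0 hR) (hc2 l hl2 Ω ϑ ι R' h0 hR')).1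
    rcases Nat.eq_zero_or_pos m with hm | hm
    · subst hm
      have h5 : Hmk R R' = ⊥ := by
        rw [eq_bot_iff]
        intro x _
        rw [Submodule.mem_bot]
        exact Subsingleton.elim _ _
      rw [h5, finrank_bot]
      exact Nat.zero_le _
    · refine hle.trans ?_
      have i1 := hc3 l hl3 Ω₀ ϑ₀ ι₀ R₀ hR₀
      have i2 := hc4 l hl4 Ω₀ ϑ₀ ι₀ R₀' hR₀'
      obtain ⟨u, hu⟩ := hSEM (Gal F) Ω₀ m R₀ R₀' (atp_ss _ i1) (atp_ss _ i2)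
        (htr l Ω₀ ϑ₀ ι₀ R₀ R₀' hR₀ hR₀')
      rw [Nat.one_le_iff_ne_zero]
      intro h6
      have h7 : Hmk R₀ R₀' = ⊥ := Submodule.finrank_eq_zero.1 h6
      have h8 : (u : Matrix (Fin m) (Fin m) Ω₀) ∈ Hmk R₀ R₀' := hu
      rw [h7, Submodule.mem_bot] at h8
      haveI : Nonempty (Fin m) := ⟨⟨0, hm⟩⟩
      exact u.ne_zero h8
  · push Not at hbad
    obtain ⟨c, hc⟩ := hbad
    refine ⟨c, fun l _ hl Ω _ _ ϑ ι R R' h0 hR hR' Ω₀ _ _ ϑ₀ ι₀ R₀ R₀' hR₀ hR₀' => ?_⟩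
    rw [hc l ‹_› hl Ω _ ‹_› ϑ ι R R' h0 hR hR', finrank_bot]
    exact Nat.zero_le _

end REC
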