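import Pool.Agent.Helper57.REC.StmtsX

/-!
# REC, part 12X: rows XRG, XFN, XIR
-/

set_option autoImplicit false

open scoped Classical
open NumberField Polynomial

namespace REC

open Pool.Agent.Helper13.ZL (Pl q)
open MU

/-- XRG -/
theorem st_XRG (hXUN : ST_XUN) (hXIR : ST_XIR) (hXBG : ST_XBG) (hXSM : ST_XSM) (hXCS : ST_XCS)
    (hIXB : ST_IXB) (hAVS : ST_AVS) (hAVL : ST_AVL) (hSSL : ST_SSL) : ST_XRG := by
  intro F _ _ S hS n w h M hM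
  obtain ⟨hss, K, _, _, _, j, r, S', L, _, _, k, m, b, hbc, hdc, hb⟩ := hM
  have hidx : r.range.index ≠ 0 := (hIXB F K j r hbc).2
  have hun := hXUN F K j r hbc S hS n w h M
  have hty : ∀ i, (b i).Ab (fun l _ => (M.ρ l).comp r) ∨ (b i).Irl (fun l _ => (M.ρ l).comp r) := by
    intro i
    obtain ⟨h1, h2, h3⟩ := hb i
    rcases h3 with h3 | ⟨h3, h4, h5⟩ | ⟨h3, h4⟩ | h3
    · exact Or.inl h3
    · right
      generalize hbi : b i = b' at h1 h2 h4 h5 ⊢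
      clear hbi
      generalize m i = m' at b' h1 h2 h3 h4 h5
      subst h3
      exact hXIR K L n h b' S' _ hun h1 h2 h4 h5
    · exact Or.inr (hXBG K L n (m i) h (b i) S' _ hun h1 h2 h3 h4)
    · exact Or.inr h3
  have hss' : ∀ (l : ℕ) [Fact l.Prime], IsSS (rat ((M.ρ l).comp r)) := fun l _ =>
    hXCS (Gal F) (Gal K) ℚ_[l] r n (rat (M.ρ l)) hidx (hss l)
  obtain ⟨c, hc⟩ := hXSM K L n k m b S' (fun l _ => (M.ρ l).comp r) hun.1 hss' hdc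
    (fun i => ⟨(hb i).1, (hb i).2.1, hty i⟩)
  refine ⟨hss, max c r.range.index, fun l _ hl => ?_⟩
  have hlft : Lft ((M.ρ l).comp r) := hc l (lt_of_le_of_lt (le_max_left _ _) hl)
  have hldvd : ¬ l ∣ r.range.index := fun h => by
    have h1 := Nat.le_of_dvd (Nat.pos_of_ne_zero hidx) h
    have h2 := lt_of_le_of_lt (le_max_right c r.range.index) hl
    omega
  refine hSSL (Gal F) n l (M.ρ l) ⟨?_, ?_⟩
  · refine hAVS (Gal F) (Gal K) (ZMod l) r n (res (M.ρ l)) ?_ hlft.1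
    intro h0
    exact hldvd ((ZMod.natCast_eq_zero_iff _ _).1 h0)
  · exact hAVL (Gal F) (Gal K) r n n l (M.ρ l) (M.ρ l) hldvd
      (fun u hu => hlft.2 u hu)

/-- XFN -/
theorem st_XFN (hFINC : ST_FINC) (hXRG : ST_XRG) : ST_XFN := by
  intro F _ _ S hS n w h
  obtain ⟨N, hN⟩ := hFINC F S hS n w h
  exact ⟨N, fun 𝒯 h𝒯 => hN 𝒯 fun M hM => hXRG F S hS n w h M (h𝒯 M hM)⟩

/-- XIR -/
theorem st_XIR (hXEN : ST_XEN) (hXGL : ST_XGL) (hXFD : ST_XFD) (hXNF : ST_XNF) : ST_XIR := by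
  intro F L _ _ _ _ n h b S ρ hun hst hcm hir hfl
  obtain ⟨L', _, _, hgal, ⟨f⟩, hne⟩ := hXGL F L
  haveI := hgal
  haveI := hne
  obtain ⟨h1, h2, h3, h4, h5, h6, h7⟩ := (hXEN L L' f n).2 2 b F ρ
  rw [h7]
  by_contra hcon
  obtain ⟨c, hc⟩ := hXNF F L' n h (b.ext f) S ρ hun.1 (h1 hst) (h2 S hcm) (h4 hir)
  obtain ⟨l, hl, hcl, hd⟩ := hXFD F L' n h (b.ext f) ρ hun (h1 hst) (h5 h True hfl) hcon c
  exact hc l hcl hd

end REC
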