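import Pool.Agent.Helper85.REC.All4
import Pool.Agent.Helper57.REC.XRG
import Pool.Agent.Helper57.REC.XEN
import Pool.Agent.Helper57.REC.XI0
import Pool.Agent.Helper57.REC.XPR
import Pool.Agent.Helper57.REC.XEE
import Pool.Agent.Helper57.REC.XBG
import Pool.Agent.Helper57.REC.XUN
import Pool.Agent.Helper25.REC.XFM
import Pool.Agent.Helper25.REC.XIG
import Pool.Agent.Helper25.REC.XSB
import Pool.Agent.Helper89.REC.XCP
import Pool.Agent.Helper89.REC.XCS
import Pool.Agent.Helper89.REC.XPF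
import Pool.Agent.Helper48.REC.XDC
import Pool.Agent.Helper48.REC.XDS
import Pool.Agent.Helper48.REC.XLF
import Pool.Agent.Helper48.REC.XSC
import Pool.Agent.Helper27.REC.XFD
import Pool.Agent.Helper27.REC.XRL
import Pool.Agent.Helper27.REC.XWD
import Pool.Agent.Helper27.REC.XWR
import Pool.Agent.Helper46.REC.XRA
import Pool.Agent.Helper8.REC.XAC
import Pool.Agent.Helper8.REC.XDV
import Pool.Agent.Helper28.REC.SLD
import Pool.Agent.Helper14.REC.YFF
import Pool.Agent.Helper48.REC.ESP
import Pool.Agent.Helper48.REC.XGL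
import Pool.Agent.Helper48.REC.XWC
import Pool.Agent.Helper39.REC.XDN
import Pool.Agent.Helper39.REC.XEQ
import Pool.Agent.Helper39.REC.XTR
import Pool.Agent.Helper27.REC.XNF
import Pool.Agent.Helper46.REC.XBS
import Pool.Agent.Helper89.REC.XLN
import Pool.Agent.Helper20.REC.XSM

/-!
# Assembly, fifth part: motives with coefficients
-/

set_option autoImplicit false

open NumberField MU

namespace REC

/-! ## Linear algebra -/

theorem all_XDS : ST_XDS := st_XDS
theorem all_XLF : ST_XLF := st_XLF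
theorem all_XDC : ST_XDC := st_XDC
theorem all_XCP : ST_XCP := st_XCP
theorem all_XSC : ST_XSC := st_XSC
theorem all_XCS : ST_XCS := st_XCS all_CLF all_AVS
theorem all_XIG : ST_XIG := st_XIG
theorem all_SLD : ST_SLD := st_SLD st_YFF

/-! ## Blocks -/

theorem all_XEN : ST_XEN := st_XEN
theorem all_XI0 : ST_XI0 := st_XI0
theorem all_XUN : ST_XUN := st_XUN all_BCT
theorem all_XFD : ST_XFD := Pool.Agent.Helper27.REC.st_XFD st_OVP all_CNV
theorem all_XWD : ST_XWD := Pool.Agent.Helper27.REC.st_XWD st_OVP all_CNV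
theorem all_XRL : ST_XRL := Pool.Agent.Helper27.REC.st_XRL all_LART all_EV all_FRV
theorem all_XWR : ST_XWR := Pool.Agent.Helper27.REC.st_XWR all_LART all_EV all_FRV
theorem all_XRA : ST_XRA := st_XRA
theorem all_XSB : ST_XSB := st_XSB
theorem all_XFM : ST_XFM := st_XFM all_XCP
theorem all_XAC : ST_XAC := st_XAC all_CLF all_SEM
theorem all_XPF : ST_XPF := st_XPF all_PBR all_ETL all_AVS all_AVL
theorem all_ESP : ST_ESP := st_ESP
theorem all_XGL : ST_XGL := st_XGL
theorem all_XWC : ST_XWC := st_XWC st_FRB st_OVP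
theorem all_XDN : ST_XDN := st_XDN
theorem all_XEQ : ST_XEQ := st_XEQ all_XDN
theorem all_XTR : ST_XTR := st_XTR
theorem all_XDV : ST_XDV := st_XDV all_XDN
theorem all_XPR : ST_XPR := st_XPR all_XSC all_XEQ all_XI0 all_SEM
theorem all_XEE : ST_XEE := st_XEE all_XPR all_XDS all_XDC all_XLF all_SSD
theorem all_XLN : ST_XLN := st_XLN st_SPQ st_FRB st_OVP
theorem all_XNF : ST_XNF := st_XNF all_XRL all_XLN all_XTR all_CL2 all_PIN st_OVP
theorem all_XIR : ST_XIR := st_XIR all_XEN all_XGL all_XFD all_XNF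
theorem all_XBG : ST_XBG :=
  st_XBG all_XEN all_XGL all_XWD all_XWR all_XWC all_ESP all_SLD st_SPQ
theorem all_XBS : ST_XBS := st_XBS all_XDV
theorem all_XSM : ST_XSM :=
  st_XSM all_XGL all_XEN all_XBS all_XRA all_XIG all_XSB all_XFM all_XAC all_XPF all_XEE all_SUG

/-! ## The theorem -/

theorem all_XRG : ST_XRG :=
  st_XRG all_XUN all_XIR all_XBG all_XSM all_XCS all_IXB all_AVS all_AVL all_SSL
theorem all_XFN : ST_XFN := st_XFN all_FINC all_XRG

end REC
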