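import Pool.Agent.Helper57.REC.Stmts6b
import Pool.Agent.Helper85.REC.LIN0

/-!
# REC, PT2: the discriminants lie in one square class
-/

set_option autoImplicit false
set_option maxHeartbeats 800000

open scoped Classical
open NumberField Polynomial Topology

namespace REC

open Pool.Agent.Helper13.ZL (Pl q)
open MU

namespace PT2

section

variable {F L : Type} [Field F] [NumberField F] [Field L] [NumberField L]

/-- the product of the conjugates -/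
noncomputable def B (e : (F →+* L) → ℕ) (x : 𝓞 F) : L := ∏ τ : F →+* L, τ (x : F) ^ e τ

theorem B_coe (e : (F →+* L) → ℕ) (x : 𝓞 F) :
    ((∏ τ : F →+* L, RingOfIntegers.mapRingHom τ x ^ e τ : 𝓞 L) : L) = B e x := by
  have h : ((∏ τ : F →+* L, RingOfIntegers.mapRingHom τ x ^ e τ : 𝓞 L) : L) =
      ∏ τ : F →+* L, ((RingOfIntegers.mapRingHom τ x ^ e τ : 𝓞 L) : L) :=
    map_prod (algebraMap (𝓞 L) L) _ _
  rw [h]
  unfold B
  refine Finset.prod_congr rfl fun τ _ => ?_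
  exact map_pow (algebraMap (𝓞 L) L) _ _

theorem B_pow (e : (F →+* L) → ℕ) (x : 𝓞 F) (j : ℕ) : B e x ^ j = B (fun τ => e τ * j) x := by
  unfold B
  rw [← Finset.prod_pow]
  refine Finset.prod_congr rfl fun τ _ => ?_
  rw [pow_mul]

theorem B_int (e : (F →+* L) → ℕ) (x : 𝓞 F) : IsIntegral ℤ (B e x) := by
  rw [← B_coe]
  exact RingOfIntegers.isIntegral_coe _

/-- the action on the exponents -/
def act (γ : L ≃ₐ[ℚ] L) (e : (F →+* L) → ℕ) : (F →+* L) → ℕ :=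
  fun τ => e (((γ.symm : L ≃ₐ[ℚ] L) : L →+* L).comp τ)

/-- the action on the embeddings -/
def eqv (γ : L ≃ₐ[ℚ] L) : (F →+* L) ≃ (F →+* L) where
  toFun τ := (γ : L →+* L).comp τ
  invFun τ := ((γ.symm : L ≃ₐ[ℚ] L) : L →+* L).comp τ
  left_inv τ := by
    ext x
    exact γ.symm_apply_apply _
  right_inv τ := by
    ext x
    exact γ.apply_symm_apply _

theorem B_act (γ : L ≃ₐ[ℚ] L) (e : (F →+* L) → ℕ) (x : 𝓞 F) : γ (B e x) = B (act γ e) x := by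
  unfold B
  rw [map_prod]
  refine Fintype.prod_equiv (eqv γ) _ _ fun τ => ?_
  rw [map_pow]
  have h1 : act γ e (eqv γ τ) = e τ := by
    unfold act
    congr 1
    exact (eqv γ).symm_apply_apply τ
  rw [h1]
  rfl

theorem trans [IsGalois ℚ L] (τ τ' : F →+* L) : ∃ γ : L ≃ₐ[ℚ] L, (γ : L →+* L).comp τ = τ' := by
  obtain ⟨φ⟩ : Nonempty (L →+* ℂ) := inferInstance
  obtain ⟨Ψ, hΨ⟩ := ext_emb τ (φ.comp τ')
  obtain ⟨g, rfl⟩ := emb_conj φ Ψ
  refine ⟨g, ?_⟩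
  ext x
  exact φ.injective (RingHom.congr_fun hΨ x)

/-- integral elements fixed by the Galois group -/
theorem fixed [IsGalois ℚ L] (z : L) (hz : IsIntegral ℤ z) (h : ∀ γ : L ≃ₐ[ℚ] L, γ z = z) :
    ∃ a : ℤ, (a : L) = z := by
  have h1 : z ∈ (⊥ : IntermediateField ℚ L) := by
    rw [← IsGalois.fixedField_top (F := ℚ) (E := L)]
    rw [IntermediateField.mem_fixedField_iff]
    intro γ _
    exact h γ
  rw [IntermediateField.mem_bot] at h1
  obtain ⟨r, hr⟩ := h1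
  have h2 : IsIntegral ℤ r := by
    rw [← hr] at hz
    exact (isIntegral_algebraMap_iff (FaithfulSMul.algebraMap_injective ℚ L)).mp hz
  obtain ⟨a, ha⟩ := (IsIntegrallyClosed.isIntegral_iff (R := ℤ) (K := ℚ)).mp h2
  refine ⟨a, ?_⟩
  rw [← hr, ← ha]
  simp

end

theorem coeffs {R : Type} [CommRing R] [Nontrivial R] (A : Matrix (Fin 2) (Fin 2) R) (P : ℤ[X])
    (h1 : A.charpoly = P.map (Int.castRingHom R)) :
    A.trace = ((-P.coeff 1 : ℤ) : R) ∧ A.det = ((P.coeff 0 : ℤ) : R) := by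
  rw [Matrix.charpoly_fin_two] at h1
  constructor
  · have h2 := congrArg (fun f => Polynomial.coeff f 1) h1
    simp only [coeff_map, coeff_add, coeff_sub, coeff_X_pow, coeff_C_mul, coeff_X, coeff_C] at h2
    simp only [OfNat.one_ne_ofNat, ↓reduceIte, mul_one, zero_sub, one_ne_zero, add_zero,
      eq_intCast] at h2
    push_cast
    rw [← h2]
    ring
  · have h2 := congrArg (fun f => Polynomial.coeff f 0) h1
    simp only [coeff_map, coeff_add, coeff_sub, coeff_X_pow, coeff_C_mul, coeff_X, coeff_C] at h2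
    simp only [OfNat.zero_ne_ofNat, ↓reduceIte, one_ne_zero, mul_zero, sub_zero, zero_add,
      eq_intCast] at h2
    exact h2

theorem ev2 {R : Type} [CommRing R] (z : R) (a b : ℤ) :
    aeval z (Polynomial.X ^ 2 + C a * Polynomial.X + C b : ℤ[X]) = z ^ 2 + (a : R) * z + (b : R) := by
  simp only [map_add, map_mul, map_pow, aeval_X, aeval_C, algebraMap_int_eq, Int.coe_castRingHom]

/-- the data at a power of a Frobenius element -/
theorem data {F L : Type} [Field F] [NumberField F] [Field L] [NumberField L] {S S' : Finset ℕ}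
    {w : ℕ} {h : Fin 2 → ℕ} (M : Mot F S 2 w h) (e : (F →+* L) → ℕ) (hSS' : S ⊆ S')
    (hrel : ∀ (v : Pl F) (p : ℕ) (𝔓 : Ideal (Zb F)) (j m : ℕ) (σ : Gal F) (x : 𝓞 F) (P : ℤ[X]),
      p.Prime → p ∉ S' → (p : 𝓞 F) ∈ v.asIdeal → OverP v 𝔓 → 0 < j → 0 < m →
      CongPow 𝔓 (q v ^ j) σ → TotPos (x : F) → Ideal.span {x} = v.asIdeal ^ m →
      (∀ (l : ℕ) [Fact l.Prime], l ≠ p →
        (((M.ρ l (σ ^ m))⁻¹ : Matrix.GeneralLinearGroup (Fin 2) ℤ_[l]) :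
          Matrix (Fin 2) (Fin 2) ℤ_[l]).charpoly = P.map (Int.castRingHom ℤ_[l])) →
      aeval (∏ τ : F →+* L, RingOfIntegers.mapRingHom τ x ^ (e τ * j) : 𝓞 L) P = 0)
    (v : Pl F) (p : ℕ) (𝔓 : Ideal (Zb F)) (j k m : ℕ) (σ : Gal F) (x : 𝓞 F) (hp : p.Prime)
    (hpS' : p ∉ S') (hpv : (p : 𝓞 F) ∈ v.asIdeal) (hv : OverP v 𝔓) (h𝔓 : Over p 𝔓) (hj : 0 < j)
    (hk : 1 ≤ k) (hm : 0 < m) (hqk : q v ^ j = p ^ k) (hσ : CongPow 𝔓 (p ^ k) σ)
    (hx1 : TotPos (x : F)) (hx2 : Ideal.span {x} = v.asIdeal ^ m) :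
    ∃ t n c : ℤ, n = c ^ 2 ∧ n ≠ 0 ∧
      (B e (x ^ 2) ^ j) ^ 2 - t * (B e (x ^ 2) ^ j) + n = 0 ∧
      (∀ z : ℂ, z ^ 2 - t * z + n = 0 → ‖z‖ ^ 2 = (p : ℝ) ^ (k * (2 * m) * w)) ∧
      ∀ (l : ℕ) [Fact l.Prime], l ≠ p →
        dsc ((M.ρ l σ⁻¹ : Matrix (Fin 2) (Fin 2) ℤ_[l]) ^ (2 * m)) =
          ((t ^ 2 - 4 * n : ℤ) : ℤ_[l]) := by
  have hpS : p ∉ S := fun h => hpS' (hSS' h)
  obtain ⟨P, hP1, hP2⟩ := M.pure p hp hpS 𝔓 h𝔓 (k * (2 * m)) (σ ^ (2 * m))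
    (Nat.mul_pos hk (by omega)) (by rw [pow_mul]; exact congPow_pow 𝔓 (p ^ k) σ hσ (2 * m))
  obtain ⟨P₁, -, hP₁⟩ := M.pure p hp hpS 𝔓 h𝔓 (k * m) (σ ^ m)
    (Nat.mul_pos hk hm) (by rw [pow_mul]; exact congPow_pow 𝔓 (p ^ k) σ hσ m)
  -- coefficients
  have htr : ∀ (l : ℕ) [Fact l.Prime], l ≠ p →
      ((M.ρ l (σ ^ (2 * m))⁻¹ : Matrix.GeneralLinearGroup (Fin 2) ℤ_[l]) :
        Matrix (Fin 2) (Fin 2) ℤ_[l]).trace = ((-P.coeff 1 : ℤ) : ℤ_[l]) ∧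
      ((M.ρ l (σ ^ (2 * m))⁻¹ : Matrix.GeneralLinearGroup (Fin 2) ℤ_[l]) :
        Matrix (Fin 2) (Fin 2) ℤ_[l]).det = ((P.coeff 0 : ℤ) : ℤ_[l]) :=
    fun l _ hl => coeffs _ P (hP2 l hl)
  have htr₁ : ∀ (l : ℕ) [Fact l.Prime], l ≠ p →
      ((M.ρ l (σ ^ m)⁻¹ : Matrix.GeneralLinearGroup (Fin 2) ℤ_[l]) :
        Matrix (Fin 2) (Fin 2) ℤ_[l]).det = ((P₁.coeff 0 : ℤ) : ℤ_[l]) :=
    fun l _ hl => (coeffs _ P₁ (hP₁ l hl)).2
  -- an auxiliary prime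
  obtain ⟨l₀, hl₀, hl₀p⟩ : ∃ (l₀ : ℕ) (_ : Fact l₀.Prime), l₀ ≠ p := by
    by_cases h2 : p = 2
    · exact ⟨3, ⟨Nat.prime_three⟩, by omega⟩
    · exact ⟨2, ⟨Nat.prime_two⟩, fun h => h2 h.symm⟩
  have hinj : Function.Injective (Int.castRingHom ℤ_[l₀]) := (Int.castRingHom ℤ_[l₀]).injective_int
  have hPeq : P = Polynomial.X ^ 2 + C (P.coeff 1) * Polynomial.X + C (P.coeff 0) := by
    apply Polynomial.map_injective _ hinj
    rw [← hP2 l₀ hl₀p, Matrix.charpoly_fin_two, (htr l₀ hl₀p).1, (htr l₀ hl₀p).2]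
    simp
  refine ⟨-P.coeff 1, P.coeff 0, P₁.coeff 0, ?_, ?_, ?_, ?_, ?_⟩
  · have h1 := (htr l₀ hl₀p).2
    have h2 : (σ ^ (2 * m))⁻¹ = ((σ ^ m)⁻¹) ^ 2 := by
      rw [inv_pow, ← pow_mul, mul_comm]
    rw [h2, map_pow, Units.val_pow_eq_pow_val, Matrix.det_pow, htr₁ l₀ hl₀p] at h1
    exact_mod_cast h1.symm
  · intro h0
    have h1 := (htr l₀ hl₀p).2
    rw [h0, Int.cast_zero] at h1
    have h2 : IsUnit ((M.ρ l₀ (σ ^ (2 * m))⁻¹ : Matrix.GeneralLinearGroup (Fin 2) ℤ_[l₀]) :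
        Matrix (Fin 2) (Fin 2) ℤ_[l₀]).det :=
      (Matrix.isUnit_iff_isUnit_det _).mp (M.ρ l₀ (σ ^ (2 * m))⁻¹).isUnit
    rw [h1] at h2
    exact not_isUnit_zero h2
  · have h1 := hrel v p 𝔓 j (2 * m) σ (x ^ 2) P hp hpS' hpv hv hj (by omega)
      (by rw [hqk]; exact hσ) (by
        intro s
        have h3 : s (((x ^ 2 : 𝓞 F)) : F) = (s (x : F)) ^ 2 := by
          have h5 : (((x ^ 2 : 𝓞 F)) : F) = (x : F) ^ 2 := rfl
          rw [h5, map_pow]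
        rw [h3]
        exact pow_pos (hx1 s) 2) (by
        rw [← Ideal.span_singleton_pow, hx2, ← pow_mul, mul_comm]) (by
        intro l _ hl
        rw [← map_inv]
        exact hP2 l hl)
    have h3 : ((∏ τ : F →+* L, RingOfIntegers.mapRingHom τ (x ^ 2) ^ (e τ * j) : 𝓞 L) : L) =
        B e (x ^ 2) ^ j := by
      rw [B_coe (fun τ => e τ * j) (x ^ 2), B_pow]
    have h2 : aeval (B e (x ^ 2) ^ j) P = 0 := by
      rw [← h3]
      have h5 : aeval (algebraMap (𝓞 L) L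
          (∏ τ : F →+* L, RingOfIntegers.mapRingHom τ (x ^ 2) ^ (e τ * j) : 𝓞 L)) P = 0 := by
        rw [aeval_algebraMap_apply, h1, map_zero]
      exact h5
    have h4 : (B e (x ^ 2) ^ j) ^ 2 + (P.coeff 1 : L) * (B e (x ^ 2) ^ j) + (P.coeff 0 : L) = 0 := by
      rw [← ev2, ← hPeq, h2]
    push_cast
    linear_combination h4
  · intro z hz
    refine hP1 z ?_
    rw [IsRoot.def, eval_map]
    have h1 : aeval z P = 0 := by
      rw [hPeq, ev2]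
      push_cast at hz
      linear_combination hz
    exact h1
  · intro l _ hl
    have h1 : ((M.ρ l σ⁻¹ : Matrix (Fin 2) (Fin 2) ℤ_[l]) ^ (2 * m)) =
        ((M.ρ l (σ ^ (2 * m))⁻¹ : Matrix.GeneralLinearGroup (Fin 2) ℤ_[l]) :
        Matrix (Fin 2) (Fin 2) ℤ_[l]) := by
      rw [← inv_pow, map_pow, Units.val_pow_eq_pow_val]
    rw [h1, dsc_eq, (htr l hl).1, (htr l hl).2]
    push_cast
    ring

/-- quadratic equations -/
theorem vieta {L : Type} [Field L] (t n a b : L) (ha : a ^ 2 - t * a + n = 0)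
    (hb : b ^ 2 - t * b + n = 0) (hab : a ≠ b) : a + b = t := by
  have h1 : (a - b) * (a + b - t) = 0 := by linear_combination ha - hb
  rcases mul_eq_zero.mp h1 with h2 | h2
  · exact absurd (sub_eq_zero.mp h2) hab
  · linear_combination h2

theorem root_or {L : Type} [Field L] (t n a b c : L) (ha : a ^ 2 - t * a + n = 0)
    (hb : b ^ 2 - t * b + n = 0) (hc : c ^ 2 - t * c + n = 0) (hab : a ≠ b) : c = a ∨ c = b := by
  have h1 := vieta t n a b ha hb hab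
  have h2 : (c - a) * (c - b) = 0 := by
    subst h1
    linear_combination hc - ha
  rcases mul_eq_zero.mp h2 with h3 | h3
  · exact Or.inl (sub_eq_zero.mp h3)
  · exact Or.inr (sub_eq_zero.mp h3)

/-- integral quadratic equations with a double root in the absolute value sense -/
theorem int_case (t n c b : ℤ) (q : ℝ) (hn : n = c ^ 2) (hn0 : n ≠ 0)
    (hpur : ∀ z : ℂ, z ^ 2 - t * z + n = 0 → ‖z‖ ^ 2 = q) (hb : b ^ 2 - t * b + n = 0) :
    t ^ 2 - 4 * n = 0 := by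
  have h1 : ((t - b : ℤ)) ^ 2 - t * (t - b) + n = 0 := by linear_combination hb
  have h2 := hpur (b : ℂ) (by exact_mod_cast hb)
  have h3 := hpur ((t - b : ℤ) : ℂ) (by exact_mod_cast h1)
  rw [Complex.norm_intCast] at h2 h3
  have h4 : ((b : ℝ)) ^ 2 = ((t - b : ℤ) : ℝ) ^ 2 := by
    rw [← sq_abs (b : ℝ), ← sq_abs ((t - b : ℤ) : ℝ), h2, h3]
  have h5 : b ^ 2 = (t - b) ^ 2 := by exact_mod_cast h4
  have h6 : n = b * (t - b) := by linear_combination hb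
  have h7 : 0 < n := by
    rw [hn]
    have : c ≠ 0 := by
      rintro rfl
      exact hn0 (by rw [hn]; ring)
    positivity
  have h8 : (b - (t - b)) * (b + (t - b)) = 0 := by linear_combination h5
  rcases mul_eq_zero.mp h8 with h9 | h9
  · have h10 : t = 2 * b := by linear_combination -h9
    rw [h6, h10]
    ring
  · exfalso
    have h10 : t - b = -b := by linear_combination h9
    rw [h10] at h6
    have h11 : 0 ≤ b ^ 2 := sq_nonneg b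
    nlinarith

/-- constant exponents and purity -/
theorem const_case {F L : Type} [Field F] [NumberField F] [Field L] [NumberField L] [IsGalois ℚ L]
    [Nonempty (F →+* L)] (v : Pl F) (p j k m w : ℕ) (x : 𝓞 F) (hp : p.Prime) (hk : 1 ≤ k)
    (hm : 0 < m) (hqk : q v ^ j = p ^ k) (hx2 : Ideal.span {x} = v.asIdeal ^ m) (t n : ℤ) (c : ℕ)
    (hroot : (B (fun _ : F →+* L => c) (x ^ 2) ^ j) ^ 2 -
      t * (B (fun _ : F →+* L => c) (x ^ 2) ^ j) + n = 0)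
    (hpur : ∀ z : ℂ, z ^ 2 - t * z + n = 0 → ‖z‖ ^ 2 = (p : ℝ) ^ (k * (2 * m) * w)) :
    2 * c = w := by
  obtain ⟨φ⟩ : Nonempty (L →+* ℂ) := inferInstance
  set N₀ : ℤ := Algebra.norm ℤ x with hN₀
  have hnorm : φ (B (fun _ : F →+* L => c) (x ^ 2)) = ((N₀ : ℂ) ^ 2) ^ c := by
    unfold B
    rw [map_prod]
    have h5 : ∏ τ : F →+* L, φ (τ ((x ^ 2 : 𝓞 F) : F) ^ c) =
        (∏ τ : F →+* L, φ (τ (x : F))) ^ (2 * c) := by
      rw [← Finset.prod_pow]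
      refine Finset.prod_congr rfl fun τ _ => ?_
      have h7 : ((x ^ 2 : 𝓞 F) : F) = (x : F) ^ 2 := map_pow (algebraMap (𝓞 F) F) _ _
      rw [h7, map_pow, map_pow, map_pow, ← pow_mul]
    have h8 : ∏ τ : F →+* L, φ (τ (x : F)) = (N₀ : ℂ) := by
      have h9 : ∏ τ : F →+* L, φ (τ (x : F)) = ∏ ψ : F →+* ℂ, ψ (x : F) :=
        Fintype.prod_bijective (fun τ : F →+* L => φ.comp τ) (comp_bij φ) _ _ fun τ => rfl
      have h10 := Algebra.norm_eq_prod_embeddings ℚ ℂ (x : F)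
      rw [← Algebra.coe_norm_int, map_intCast] at h10
      rw [h9, hN₀, h10]
      exact Fintype.prod_equiv (RingHom.equivRatAlgHom F ℂ) _ _ fun ψ => rfl
    rw [h5, h8, pow_mul]
  have h5 := hpur (φ (B (fun _ : F →+* L => c) (x ^ 2)) ^ j) (by
    have h6 := congrArg φ hroot
    simpa using h6)
  have h6 : ((N₀.natAbs : ℕ) : ℝ) = (q v : ℝ) ^ m := by
    have h7 := congrArg Ideal.absNorm hx2
    rw [Ideal.absNorm_span_singleton, map_pow] at h7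
    have h8 : Ideal.absNorm v.asIdeal = q v := rfl
    rw [h8] at h7
    rw [hN₀, h7]
    push_cast
    rfl
  rw [Nat.cast_natAbs, Int.cast_abs] at h6
  have h7 : (‖φ (B (fun _ : F →+* L => c) (x ^ 2)) ^ j‖ ^ 2 : ℝ) = (p : ℝ) ^ (k * m * (2 * c) * 2) := by
    have hqk' : (q v : ℝ) ^ j = (p : ℝ) ^ k := by exact_mod_cast hqk
    rw [hnorm, norm_pow, norm_pow, norm_pow, Complex.norm_intCast, h6]
    calc (((((q v : ℝ) ^ m) ^ 2) ^ c) ^ j) ^ 2 = ((q v : ℝ) ^ j) ^ (m * (2 * c) * 2) := by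
          simp only [← pow_mul]
          congr 1
          ring
      _ = (p : ℝ) ^ (k * m * (2 * c) * 2) := by
          rw [hqk', ← pow_mul]
          congr 1
          ring
  rw [h5] at h7
  have h8 : 1 < (p : ℝ) := by exact_mod_cast hp.one_lt
  have h9 := pow_right_injective₀ (by positivity) h8.ne' h7
  have h10 : 0 < k * m * 2 := Nat.mul_pos (Nat.mul_pos hk hm) two_pos
  have h11 : (k * m * 2) * (2 * c) = (k * m * 2) * w := by
    linarith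
  exact Nat.eq_of_mul_eq_mul_left h10 h11

end PT2

theorem st_PT2 (hEDT : ST_EDT) (hHS2 : ST_HS2) (hFRB : ST_FRB) (hOVP : ST_OVP) : ST_PT2 := by
  intro F L _ _ _ _ _ _ S hS w h M e h01 hRel
  obtain ⟨he, S', hSS', hrel⟩ := hRel
  obtain ⟨m, hm, hgen⟩ := lin_gen F
  obtain ⟨hO1, hO2, hO3, hO4, hO5, -, hO7⟩ := hOVP F
  -- the exceptional place
  obtain ⟨v₀, p₀, hp₀, hp₀S, hpv₀, hED⟩ := hEDT F L S'
  obtain ⟨𝔓₀, h𝔓₀⟩ := hO1 v₀
  obtain ⟨σ₀, hσ₀⟩ := hO2 v₀ 𝔓₀ h𝔓₀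
  obtain ⟨p', f, hp', hf, hq, hO, hpv'⟩ := hO4 v₀ 𝔓₀ h𝔓₀
  have hpp : p' = p₀ := by
    by_contra hne'
    have hc : Nat.Coprime p' p₀ := (Nat.coprime_primes hp' hp₀).2 hne'
    obtain ⟨a, b, hab⟩ := Nat.isCoprime_iff_coprime.2 hc
    have h5 : (1 : 𝓞 F) ∈ v₀.asIdeal := by
      have h6 : (1 : 𝓞 F) = (a : 𝓞 F) * (p' : 𝓞 F) + (b : 𝓞 F) * (p₀ : 𝓞 F) := by
        have := congrArg (fun t : ℤ => (t : 𝓞 F)) hab
        simp only [Int.cast_add, Int.cast_mul, Int.cast_natCast, Int.cast_one] at this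
        exact this.symm
      rw [h6]
      exact Ideal.add_mem _ (Ideal.mul_mem_left _ _ hpv') (Ideal.mul_mem_left _ _ hpv₀)
    exact v₀.isPrime.ne_top ((Ideal.eq_top_iff_one _).2 h5)
  subst hpp
  obtain ⟨x₀, hx₀1, hx₀2⟩ := hgen v₀
  obtain ⟨t₀, n₀, c₀, hn₀, hn₀0, hroot₀, hpur₀, -⟩ := PT2.data M e hSS' hrel v₀ p' 𝔓₀ 1 f m σ₀ x₀
    hp₀ hp₀S hpv₀ h𝔓₀ hO one_pos hf hm (by rw [pow_one, hq]) (by rw [← hq]; exact hσ₀) hx₀1 hx₀2
  simp only [pow_one] at hroot₀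
  -- injectivity
  have hinj : ∀ a b : (F →+* L) → ℕ, PT2.B a (x₀ ^ 2) = PT2.B b (x₀ ^ 2) → a = b := by
    intro a b hab
    refine hED (2 * m) (x₀ ^ 2) (by omega) (by
      rw [← Ideal.span_singleton_pow, hx₀2, ← pow_mul, mul_comm]) a b ?_
    apply RingOfIntegers.ext
    rw [PT2.B_coe, PT2.B_coe, hab]
  have hactroot : ∀ (γ : L ≃ₐ[ℚ] L) (z : L) (t n : ℤ), z ^ 2 - t * z + n = 0 →
      (γ z) ^ 2 - t * (γ z) + n = 0 := by
    intro γ z t n hz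
    have h1 := congrArg γ hz
    simpa using h1
  -- some exponents are moved
  obtain ⟨γ₁, hγ₁⟩ : ∃ γ₁ : L ≃ₐ[ℚ] L, PT2.act γ₁ e ≠ e := by
    by_contra hcon
    push Not at hcon
    obtain ⟨τ₀⟩ := ‹Nonempty (F →+* L)›
    have hne : Nonempty (F →+* L) := ⟨τ₀⟩
    have hconst : e = fun _ => e τ₀ := by
      funext τ
      obtain ⟨γ, hγ⟩ := PT2.trans τ τ₀
      have h1 := congrFun (hcon γ.symm) τ
      unfold PT2.act at h1
      rw [AlgEquiv.symm_symm, hγ] at h1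
      exact h1.symm
    rw [hconst] at hroot₀
    have h1 := PT2.const_case v₀ p' 1 f m w x₀ hp₀ hf hm (by rw [pow_one, hq]) hx₀2 t₀ n₀ (e τ₀)
      (by simpa only [pow_one] using hroot₀) hpur₀
    have h2 := hHS2 F S hS w h M
    obtain ⟨i, hi⟩ := he τ₀
    rw [hi] at h1
    fin_cases i
    · exact h01 (by
        have : 2 * h 0 = w := h1
        omega)
    · exact h01 (by
        have : 2 * h 1 = w := h1
        omega)
  set e₁ := PT2.act γ₁ e with he₁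
  have hne0 : PT2.B e (x₀ ^ 2) ≠ PT2.B e₁ (x₀ ^ 2) := fun h => hγ₁ (hinj _ _ h).symm
  have hroot₁ : (PT2.B e₁ (x₀ ^ 2)) ^ 2 - t₀ * (PT2.B e₁ (x₀ ^ 2)) + n₀ = 0 := by
    have h1 := hactroot γ₁ _ _ _ hroot₀
    rwa [PT2.B_act] at h1
  have hsum₀ := PT2.vieta _ _ _ _ hroot₀ hroot₁ hne0
  -- the orbit has two elements
  have horb : ∀ γ : L ≃ₐ[ℚ] L, PT2.act γ e = e ∨ PT2.act γ e = e₁ := by
    intro γ
    have h1 := hactroot γ _ _ _ hroot₀
    rw [PT2.B_act] at h1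
    rcases PT2.root_or _ _ _ _ _ hroot₀ hroot₁ h1 hne0 with h2 | h2
    · exact Or.inl (hinj _ _ h2)
    · exact Or.inr (hinj _ _ h2)
  obtain ⟨δ, hδ⟩ : ∃ δ : L, δ = PT2.B e (x₀ ^ 2) - PT2.B e₁ (x₀ ^ 2) := ⟨_, rfl⟩
  have hδ0 : δ ≠ 0 := by
    rw [hδ]
    exact sub_ne_zero.mpr hne0
  have hδint : IsIntegral ℤ δ := by
    rw [hδ]
    exact (PT2.B_int _ _).sub (PT2.B_int _ _)
  have hδ2 : δ ^ 2 = ((t₀ ^ 2 - 4 * n₀ : ℤ) : L) := by
    push_cast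
    rw [← hsum₀] at hroot₀ ⊢
    rw [hδ]
    linear_combination 4 * hroot₀
  have hd0 : t₀ ^ 2 - 4 * n₀ ≠ 0 := by
    intro h0
    rw [h0, Int.cast_zero] at hδ2
    exact hδ0 (pow_eq_zero_iff (two_ne_zero) |>.mp hδ2)
  have hδact : ∀ γ : L ≃ₐ[ℚ] L, (PT2.act γ e = e → γ δ = δ) ∧ (PT2.act γ e = e₁ → γ δ = -δ) := by
    intro γ
    have h1 : γ (PT2.B e (x₀ ^ 2)) + γ (PT2.B e₁ (x₀ ^ 2)) = t₀ := by
      rw [← map_add, hsum₀, map_intCast]
    constructor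
    · intro h2
      rw [PT2.B_act, h2] at h1
      rw [hδ, map_sub, PT2.B_act, h2]
      linear_combination hsum₀ - h1
    · intro h2
      rw [PT2.B_act, h2] at h1
      rw [hδ, map_sub, PT2.B_act, h2]
      linear_combination hsum₀ - h1
  -- Frobenius elements
  have key : ∀ (l : ℕ) [Fact l.Prime] (p : ℕ) (𝔓 : Ideal (Zb F)) (k : ℕ) (σ : Gal F), p.Prime →
      p ∉ insert l S' → Over p 𝔓 → 1 ≤ k → CongPow 𝔓 (p ^ k) σ →
      IsSquare (((t₀ ^ 2 - 4 * n₀ : ℤ) : ℤ_[l]) *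
        dsc ((M.ρ l σ⁻¹ : Matrix (Fin 2) (Fin 2) ℤ_[l]) ^ (2 * m))) := by
    intro l _ p 𝔓 k σ hp hpS h𝔓 hk hσ
    simp only [Finset.mem_insert, not_or] at hpS
    obtain ⟨v, hv⟩ := hO3 p 𝔓 hp h𝔓
    obtain ⟨j, hj⟩ := hO7 v 𝔓 hv p k σ hp h𝔓 hσ
    have hj0 : 0 < j := by
      rcases Nat.eq_zero_or_pos j with h0 | h0
      · rw [h0, pow_zero] at hj
        have := Nat.one_lt_pow (by omega : k ≠ 0) hp.one_lt
        omega
      · exact h0
    obtain ⟨x, hx1, hx2⟩ := hgen v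
    have hpv : (p : 𝓞 F) ∈ v.asIdeal := by
      have := (hv.2 (p : 𝓞 F) (p : Zb F) (by simp)).mp h𝔓.2
      exact this
    obtain ⟨t, n, c, hn, hn0, hroot, hpur, hdsc⟩ := PT2.data M e hSS' hrel v p 𝔓 j k m σ x hp hpS.2
      hpv hv h𝔓 hj0 hk hm hj.symm hσ hx1 hx2
    rw [hdsc l (fun h => hpS.1 h.symm)]
    have hroot' : (PT2.B e₁ (x ^ 2) ^ j) ^ 2 - t * (PT2.B e₁ (x ^ 2) ^ j) + n = 0 := by
      have h1 := hactroot γ₁ _ _ _ hroot
      rwa [map_pow, PT2.B_act] at h1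
    by_cases hββ : PT2.B e (x ^ 2) ^ j = PT2.B e₁ (x ^ 2) ^ j
    · -- the root is an integer
      obtain ⟨b, hb⟩ := PT2.fixed (PT2.B e (x ^ 2) ^ j) ((PT2.B_int _ _).pow j) (by
        intro γ
        rw [map_pow, PT2.B_act]
        rcases horb γ with h2 | h2
        · rw [h2]
        · rw [h2, hββ])
      rw [← hb] at hroot
      have h2 : b ^ 2 - t * b + n = 0 := by
        have h3 : ((b ^ 2 - t * b + n : ℤ) : L) = 0 := by
          push_cast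
          exact hroot
        exact_mod_cast h3
      rw [PT2.int_case t n c b _ hn hn0 hpur h2, Int.cast_zero, mul_zero]
      exact IsSquare.zero
    · have hsum := PT2.vieta _ _ _ _ hroot hroot' hββ
      obtain ⟨a, ha⟩ := PT2.fixed (δ * (PT2.B e (x ^ 2) ^ j - PT2.B e₁ (x ^ 2) ^ j))
        (hδint.mul (((PT2.B_int _ _).pow j).sub ((PT2.B_int _ _).pow j))) (by
        intro γ
        have h1 : γ (PT2.B e (x ^ 2) ^ j) + γ (PT2.B e₁ (x ^ 2) ^ j) = t := by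
          rw [← map_add, hsum, map_intCast]
        rw [map_mul, map_sub]
        rcases horb γ with h2 | h2
        · rw [(hδact γ).1 h2]
          have h3 : γ (PT2.B e (x ^ 2) ^ j) = PT2.B e (x ^ 2) ^ j := by
            rw [map_pow, PT2.B_act, h2]
          rw [h3] at h1 ⊢
          have h4 : γ (PT2.B e₁ (x ^ 2) ^ j) = PT2.B e₁ (x ^ 2) ^ j := by
            linear_combination h1 - hsum
          rw [h4]
        · rw [(hδact γ).2 h2]
          have h3 : γ (PT2.B e (x ^ 2) ^ j) = PT2.B e₁ (x ^ 2) ^ j := by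
            rw [map_pow, PT2.B_act, h2]
          rw [h3] at h1 ⊢
          have h4 : γ (PT2.B e₁ (x ^ 2) ^ j) = PT2.B e (x ^ 2) ^ j := by
            linear_combination h1 - hsum
          rw [h4]
          ring)
      have h5 : (t₀ ^ 2 - 4 * n₀) * (t ^ 2 - 4 * n) = a ^ 2 := by
        have h6 : (((t₀ ^ 2 - 4 * n₀) * (t ^ 2 - 4 * n) : ℤ) : L) = ((a ^ 2 : ℤ) : L) := by
          rw [Int.cast_mul, ← hδ2, Int.cast_pow, ha]
          push_cast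
          rw [← hsum] at hroot ⊢
          linear_combination (-4 * δ ^ 2) * hroot
        exact_mod_cast h6
      refine ⟨(a : ℤ_[l]), ?_⟩
      rw [← Int.cast_mul, h5]
      push_cast
      ring
  refine ⟨t₀ ^ 2 - 4 * n₀, 2 * m, hd0, by omega, ?_⟩
  intro l _ g
  by_contra hne
  have hopen : IsOpen {x : Gal F | ¬ IsSquare (((t₀ ^ 2 - 4 * n₀ : ℤ) : ℤ_[l]) *
      dsc ((M.ρ l (g * x) : Matrix (Fin 2) (Fin 2) ℤ_[l]) ^ (2 * m)))} := by
    have h3 : IsClosed {x : Gal F | IsSquare (((t₀ ^ 2 - 4 * n₀ : ℤ) : ℤ_[l]) *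
        dsc ((M.ρ l (g * x) : Matrix (Fin 2) (Fin 2) ℤ_[l]) ^ (2 * m)))} :=
      gl_sq_closed.preimage (continuous_const.mul ((lin_continuous M l (2 * m)).comp
        (continuous_const_mul g)))
    exact h3.isOpen_compl
  have hmem : {x : Gal F | ¬ IsSquare (((t₀ ^ 2 - 4 * n₀ : ℤ) : ℤ_[l]) *
      dsc ((M.ρ l (g * x) : Matrix (Fin 2) (Fin 2) ℤ_[l]) ^ (2 * m)))} ∈ 𝓝 (1 : Gal F) := by
    apply hopen.mem_nhds
    simpa using hne
  obtain ⟨E, hE, hEn, hEs⟩ :=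
    (krullTopology_mem_nhds_one_iff_of_normal F (AlgebraicClosure F) _).1 hmem
  have hEgal : IsGalois F E := { }
  have hUn : E.fixingSubgroup.Normal := (InfiniteGalois.normal_iff_isGalois E).2 hEgal
  obtain ⟨p, 𝔓, k, σ, hp, hpS, h𝔓, hk, hσ, hgσ⟩ := hFRB F E.fixingSubgroup hUn
    E.fixingSubgroup_isOpen (insert l S') g⁻¹
  rw [inv_inv] at hgσ
  have h4 : g⁻¹ * σ⁻¹ ∈ E.fixingSubgroup := by
    have h5 := hUn.conj_mem _ (E.fixingSubgroup.inv_mem hgσ) g⁻¹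
    have h6 : g⁻¹ * (g * σ)⁻¹ * g⁻¹⁻¹ = g⁻¹ * σ⁻¹ := by group
    rwa [h6] at h5
  have h7 := hEs h4
  apply h7
  have h8 : g * (g⁻¹ * σ⁻¹) = σ⁻¹ := by group
  change IsSquare (((t₀ ^ 2 - 4 * n₀ : ℤ) : ℤ_[l]) *
    dsc ((M.ρ l (g * (g⁻¹ * σ⁻¹)) : Matrix (Fin 2) (Fin 2) ℤ_[l]) ^ (2 * m)))
  rw [h8]
  exact key l p 𝔓 k σ hp hpS h𝔓 hk hσ

end REC
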