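import Pool.Agent.Helper85.REC.All2
import Pool.Agent.Helper57.REC.PT2
import Pool.Agent.Helper8.REC.CMC
import Pool.Agent.Helper17.REC.FSS
import Pool.Agent.Helper17.REC.ISK
import Pool.Agent.Helper65.REC.GLD
import Pool.Agent.Helper56.REC.LMD
import Pool.Agent.Helper56.REC.MAT
import Pool.Agent.Helper32.REC.ORD
import Pool.Agent.Helper32.REC.ADK
import Pool.Agent.Helper76.REC.TIS
import Pool.Agent.Helper76.REC.DIS
import Pool.Agent.Helper76.REC.CMG
import Pool.Agent.Helper82.REC.INC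
import Pool.Agent.Helper68.REC.INF
import Pool.Agent.Helper7.REC.EDT

/-!
# Assembly: semisimple motives of rank two
-/

set_option autoImplicit false

open NumberField MU

namespace REC

theorem all_EDT : ST_EDT := st_EDT st_SPQ
theorem all_PT2 : ST_PT2 := st_PT2 all_EDT st_HS2 st_FRB st_OVP
theorem all_GLD : ST_GLD := st_GLD
theorem all_CMG : ST_CMG := Pool.Agent.Helper76.REC.st_CMG all_CL2
theorem all_INC : ST_INC := st_INC st_INR st_FRE st_CYC st_IDX
theorem all_INF : ST_INF := st_INF all_INC st_FRE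
theorem all_CMC : ST_CMC := st_CMC all_LLN all_RELK all_PT2 all_GLD all_CMG all_TRP all_INF
theorem all_MAT : ST_MAT := st_MAT
theorem all_ADK : ST_ADK := Pool.Agent.Helper32.REC.st_ADK all_TRP all_MAT
theorem all_LMD : ST_LMD := st_LMD
theorem all_ORD : ST_ORD := Pool.Agent.Helper32.REC.st_ORD all_TRP
theorem all_DIS : ST_DIS := Pool.Agent.Helper76.REC.st_DIS
theorem all_TIS : ST_TIS := Pool.Agent.Helper76.REC.st_TIS
theorem all_ISK : ST_ISK := st_ISK all_ADK all_ORD all_DIS all_LMD all_TIS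
theorem all_FSS : ST_FSS := st_FSS all_CMC all_IRB all_FIN0 all_ADK all_ISK all_TIS

/-- irreducible representations are completely reducible -/
theorem isSS_of_isIrr {G K : Type} [Group G] [Field K] {n : ℕ} (r : G →* Matrix (Fin n) (Fin n) K)
    (h : IsIrr r) : IsSS r := by
  intro m B A hBA
  rcases h m B A hBA with h0 | h0
  · subst h0
    refine ⟨0, Subsingleton.elim _ _, fun g => ?_⟩
    ext i
    exact i.elim0
  · subst h0
    obtain ⟨⟨C, hC⟩, hA⟩ := hBA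
    have hC' : B * C = 1 := mul_eq_one_comm.mp hC
    refine ⟨C, hC, fun g => ?_⟩
    calc C * r g = C * (r g * B) * C := by rw [Matrix.mul_assoc, Matrix.mul_assoc, hC', Matrix.mul_one]
      _ = A g * C := by rw [hA, ← Matrix.mul_assoc, hC, Matrix.one_mul]

/-- finiteness for semisimple motives of rank two -/
theorem finiteness_two_ss {F : Type} [Field F] [NumberField F] {S : Finset ℕ}
    (hS : ∀ p ∈ S, p.Prime) (w : ℕ) (h : Fin 2 → ℕ) (hh : h 0 ≠ h 1) :
    ∃ N : ℕ, ∀ 𝒯 : Set (Mot F S 2 w h),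
      (NoCM F ∨ ∀ M ∈ 𝒯, ∀ (l : ℕ) [Fact l.Prime], IsSS (rat (M.ρ l))) →
      (∃ T : Finset (Mot F S 2 w h), (T : Set (Mot F S 2 w h)) ⊆ 𝒯 ∧ T.card ≤ N ∧
        ∀ M ∈ 𝒯, ∃ M' ∈ T, M.AdelicIso M') ∧
      ((∀ M ∈ 𝒯, ∀ M' ∈ 𝒯, TateHom M M') →
        ∃ T : Finset (Mot F S 2 w h), (T : Set (Mot F S 2 w h)) ⊆ 𝒯 ∧ T.card ≤ N ∧
          ∀ M ∈ 𝒯, ∃ M' ∈ T, M.Iso M') := by
  obtain ⟨N, hN⟩ := all_FSS F S hS w h hh
  refine ⟨N, fun 𝒯 h𝒯 => hN 𝒯 fun M hM => ?_⟩
  intro l _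
  rcases h𝒯 with h1 | h1
  · exact isSS_of_isIrr _ ((reg_two hS M hh (Or.inl h1)).1 l)
  · exact h1 M hM l

end REC
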