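import Pool.Agent.Helper85.MU.Stmts2
import Pool.Agent.Helper13.ZL.Stmts

/-!
# Reciprocity (global class field theory in terms of characters): definitions
Proofs: /team-store/rec_blueprint.md   [helper57]
-/

set_option autoImplicit false

open scoped Classical
open NumberField

namespace REC

open Pool.Agent.Helper13.ZL (Pl q HasMean)
open MU (Gal Zb Over CongPow)

variable {F : Type} [Field F] [NumberField F]

/-! ## Places, Frobenius elements -/

/-- the prime `𝔓` of the ring of all algebraic integers lies over the place `v` of `F` -/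
def OverP (v : Pl F) (𝔓 : Ideal (Zb F)) : Prop :=
  𝔓.IsPrime ∧ ∀ (x : 𝓞 F) (y : Zb F),
    (y : AlgebraicClosure F) = algebraMap F (AlgebraicClosure F) (x : F) → (y ∈ 𝔓 ↔ x ∈ v.asIdeal)

/-- `χ` is unramified at `v` -/
def Unr {A : Type} [Group A] (χ : Gal F →* A) (v : Pl F) : Prop :=
  ∀ 𝔓 : Ideal (Zb F), OverP v 𝔓 → ∀ σ : Gal F, CongPow 𝔓 1 σ → χ σ = 1

/-- `χ` is unramified at `v` and `χ (Frob v) = a` -/
def IsFr {A : Type} [Group A] (χ : Gal F →* A) (v : Pl F) (a : A) : Prop :=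
  ∀ 𝔓 : Ideal (Zb F), OverP v 𝔓 → ∀ (j : ℕ) (σ : Gal F), CongPow 𝔓 (q v ^ j) σ → χ σ = a ^ j

/-! ## Ray characters -/

/-- the multiplicative extension of a function on the places to the ideals -/
noncomputable def ev {A : Type} [CommMonoid A] (f : Pl F → A) (I : Ideal (𝓞 F)) : A :=
  ((UniqueFactorizationMonoid.normalizedFactors I).map
    (fun P => if h : P.IsPrime ∧ P ≠ ⊥ then f ⟨P, h.1, h.2⟩ else 1)).prod

/-- totally positive -/
def TotPos (x : F) : Prop := ∀ σ : F →+* ℝ, 0 < σ x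

/-- `x` is a nonzero totally positive integer, congruent to `1` modulo the `N`-th powers of the
places in `B` -/
def Ray (B : Finset (Pl F)) (N : ℕ) (x : 𝓞 F) : Prop :=
  x ≠ 0 ∧ TotPos (x : F) ∧ ∀ v ∈ B, x - 1 ∈ v.asIdeal ^ N

/-- `I` is a nonzero ideal, prime to `B` -/
def Cop (B : Finset (Pl F)) (I : Ideal (𝓞 F)) : Prop := I ≠ ⊥ ∧ ∀ v ∈ B, ¬ I ≤ v.asIdeal

/-- `f` is a ray character modulo the product of the `v ^ N`, `v` in `B`, and of the real places -/
def IsRay (B : Finset (Pl F)) (N : ℕ) (f : Pl F → ℂˣ) : Prop :=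
  (∀ v ∈ B, f v = 1) ∧ ∀ x : 𝓞 F, Ray B N x → ev f (Ideal.span {x}) = 1

/-- `f` is trivial on the norms (outside `B`) of the extension with group `Gal F / Y` -/
def InX (Y : Subgroup (Gal F)) (B : Finset (Pl F)) (f : Pl F → ℂˣ) : Prop :=
  ∀ v : Pl F, v ∉ B → ∀ 𝔓 : Ideal (Zb F), OverP v 𝔓 → ∀ (j : ℕ) (σ : Gal F),
    CongPow 𝔓 (q v ^ j) σ → σ ∈ Y → f v ^ j = 1

/-- the ray characters which are trivial on norms -/
def X (Y : Subgroup (Gal F)) (B : Finset (Pl F)) (N : ℕ) : Set (Pl F → ℂˣ) :=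
  {f | IsRay B N f ∧ InX Y B f}

/-- `G` is the ray class group, `cl` is the class of an ideal prime to `B` -/
structure IsRCG (B : Finset (Pl F)) (N : ℕ) (G : Type) [CommGroup G]
    (cl : Ideal (𝓞 F) → G) : Prop where
  mul : ∀ I J : Ideal (𝓞 F), Cop B I → Cop B J → cl (I * J) = cl I * cl J
  ray : ∀ x : 𝓞 F, Ray B N x → cl (Ideal.span {x}) = 1
  rel : ∀ I J : Ideal (𝓞 F), Cop B I → Cop B J → cl I = cl J →
    ∃ x y : 𝓞 F, Ray B N x ∧ Ray B N y ∧ Ideal.span {x} * I = Ideal.span {y} * J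
  sur : ∀ g : G, ∃ I : Ideal (𝓞 F), Cop B I ∧ cl I = g

/-! ## Finite extensions -/

/-- the place `P` of `L` lies over `v` -/
def OvL {L : Type} [Field L] [NumberField L] [Algebra F L] (v : Pl F) (P : Pl L) : Prop :=
  ∀ x : 𝓞 F, algebraMap (𝓞 F) (𝓞 L) x ∈ P.asIdeal ↔ x ∈ v.asIdeal

/-- `v` is unramified in `L`: the valuations agree -/
def UnrL (L : Type) [Field L] [NumberField L] [Algebra F L] (v : Pl F) : Prop :=
  ∀ P : Pl L, OvL v P → ∀ x : F, P.valuation L (algebraMap F L x) = v.valuation F x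

/-- the local degree at a finite place (for Galois `L / F`) -/
noncomputable def nv (L : Type) [Field L] [NumberField L] [Algebra F L] (v : Pl F) : ℕ :=
  Module.finrank F L / Nat.card {P : Pl L // OvL v P}

/-- the local degree at an infinite place (for Galois `L / F`) -/
noncomputable def nw (L : Type) [Field L] [NumberField L] [Algebra F L] (u : InfinitePlace F) : ℕ :=
  Module.finrank F L / Nat.card {w : InfinitePlace L // w.comap (algebraMap F L) = u}

/-- the class group is generated by the places in `T` -/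
def ClGen (F : Type) [Field F] [NumberField F] (T : Finset (Pl F)) : Prop :=
  ∀ I : Ideal (𝓞 F), I ≠ ⊥ → ∃ x : 𝓞 F, x ≠ 0 ∧ ∀ v : Pl F, v ∉ T →
    ∀ k : ℕ, x ∈ v.asIdeal ^ k ↔ I ≤ v.asIdeal ^ k

end REC
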