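import Pool.Agent.Helper57.REC.Stmts3

/-!
# Reciprocity, part 4: Artin's trick and the reciprocity law for characters
Proofs: /team-store/rec_blueprint4.md   [helper57]
-/

set_option autoImplicit false

open scoped Classical
open NumberField

namespace REC

open Pool.Agent.Helper13.ZL (Pl q HasMean)
open MU (Gal Zb Over CongPow cyc)

/-- the cyclotomic character modulo the prime `m` -/
noncomputable def cm (F : Type) [Field F] [NumberField F] (m : ℕ) [Fact m.Prime] :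
    Gal F →* (ZMod m)ˣ :=
  (Units.map (PadicInt.toZMod (p := m) : ℤ_[m] →* ZMod m)).comp (cyc m F)

/-- `φ` is the Frobenius function of `χ`, with bad places `B` -/
def IsPhi {F : Type} [Field F] [NumberField F] {A : Type} [Group A] (χ : Gal F →* A)
    (B : Finset (Pl F)) (φ : Pl F → A) : Prop :=
  (∀ v ∈ B, φ v = 1) ∧ ∀ v : Pl F, v ∉ B → IsFr χ v (φ v)

/-- CYP: cyclotomic characters (from `MU.ST_CYC`, EV). -/
def ST_CYP : Prop :=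
  ∀ (F : Type) [Field F] [NumberField F], ∃ D : ℕ, 0 < D ∧ ∀ (m : ℕ) [Fact m.Prime], ¬ m ∣ D →
    ∀ (lam : (ZMod m)ˣ →* ℂˣ),
      IsOpen ((lam.comp (cm F m)).ker : Set (Gal F)) ∧
      (∀ v : Pl F, (m : 𝓞 F) ∉ v.asIdeal → ∃ u : (ZMod m)ˣ, (u : ZMod m) = q v ∧
        IsFr (lam.comp (cm F m)) v (lam u)) ∧
      (∀ (A : Type) [Group A] (χ : Gal F →* A), IsOpen (χ.ker : Set (Gal F)) →
        (∀ v : Pl F, (m : 𝓞 F) ∈ v.asIdeal → Unr χ v) → ∀ u : (ZMod m)ˣ, ∃ σ : Gal F,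
          χ σ = 1 ∧ cm F m σ = u) ∧
      ∀ (B : Finset (Pl F)), (∀ v : Pl F, (m : 𝓞 F) ∈ v.asIdeal → v ∈ B) → ∀ N : ℕ, 0 < N →
        ∀ φ : Pl F → ℂˣ, IsPhi (lam.comp (cm F m)) B φ → IsRay B N φ

/-- AXP: auxiliary primes. -/
def ST_AXP : Prop :=
  ∀ (p f l k D : ℕ), p.Prime → 0 < f → l.Prime → 0 < D → ∀ ζ : ℂˣ, ζ ^ l ^ k = 1 →
    ∃ (m : ℕ) (_ : Fact m.Prime) (lam : (ZMod m)ˣ →* ℂˣ), ¬ m ∣ D ∧ m ≠ p ∧
      (∃ a : ℕ, lam ^ l ^ a = 1) ∧ ∀ u : (ZMod m)ˣ, (u : ZMod m) = (p : ZMod m) ^ f → lam u = ζ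

/-- TRK1: Artin's trick for one auxiliary character (from SND, FST, XSG, DN1, FRV, OVP). -/
def ST_TRK1 : Prop :=
  ∀ (F : Type) [Field F] [NumberField F] (l : ℕ), l.Prime → ∀ (χ ψ : Gal F →* ℂˣ),
    IsOpen (χ.ker : Set (Gal F)) → IsOpen (ψ.ker : Set (Gal F)) →
    (∃ a : ℕ, χ ^ l ^ a = 1) → (∃ a : ℕ, ψ ^ l ^ a = 1) →
    (∀ σ τ : Gal F, ∃ g : Gal F, χ g = χ σ ∧ ψ g = ψ τ) →
    ∀ (B : Finset (Pl F)) (φψ : Pl F → ℂˣ), (∀ v : Pl F, v ∉ B → Unr χ v) → IsPhi ψ B φψ →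
      (∃ N : ℕ, IsRay B N φψ) → ∀ N : ℕ, ∀ f ∈ X χ.ker B N, ∃ i : ℕ,
        ∀ v : Pl F, v ∉ B → ∀ 𝔓 : Ideal (Zb F), OverP v 𝔓 → ∀ (j : ℕ) (σ : Gal F),
          CongPow 𝔓 (q v ^ j) σ → χ σ * ψ σ = 1 → f v ^ j = χ σ ^ i

/-- TRK2: the ray characters in `X` are powers of the Frobenius function
(from TRK1, CYP, AXP, DN1, RST, FRV, OVP). -/
def ST_TRK2 : Prop :=
  ∀ (F : Type) [Field F] [NumberField F] (l : ℕ), l.Prime → ∀ χ : Gal F →* ℂˣ,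
    IsOpen (χ.ker : Set (Gal F)) → (∃ a : ℕ, χ ^ l ^ a = 1) →
    ∀ (B : Finset (Pl F)) (φ : Pl F → ℂˣ), IsPhi χ B φ →
      ∀ N : ℕ, ∀ f ∈ X χ.ker B N, ∃ i : ℕ, f = φ ^ i

/-- REQ: the reciprocity law for characters of prime power order (from TRK2, FST, XSG). -/
def ST_REQ : Prop :=
  ∀ (F : Type) [Field F] [NumberField F] (l : ℕ), l.Prime → ∀ χ : Gal F →* ℂˣ,
    IsOpen (χ.ker : Set (Gal F)) → (∃ a : ℕ, χ ^ l ^ a = 1) →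
    ∀ (B : Finset (Pl F)) (φ : Pl F → ℂˣ), IsPhi χ B φ → ∃ N : ℕ, 0 < N ∧ IsRay B N φ

/-- REC: the reciprocity law (from REQ, EV, FRV, OVP). -/
def ST_REC : Prop :=
  ∀ (F : Type) [Field F] [NumberField F] (A : Type) [CommGroup A] (χ : Gal F →* A),
    IsOpen (χ.ker : Set (Gal F)) → ∀ (B : Finset (Pl F)) (φ : Pl F → A), IsPhi χ B φ →
      ∃ N : ℕ, 0 < N ∧ ∀ x : 𝓞 F, Ray B N x → ev φ (Ideal.span {x}) = 1

end REC
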