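import Pool.Agent.Helper57.REC.Stmts4

/-!
# Reciprocity, part 5: characters with cyclotomic exponents at the places over `l`
Proofs: /team-store/rec_blueprint5.md   [helper57]
-/

set_option autoImplicit false

open scoped Classical
open NumberField

namespace REC

open Pool.Agent.Helper13.ZL (Pl q HasMean)
open MU (Gal Zb Over CongPow cyc)

/-- the cyclotomic character modulo `l ^ k` -/
noncomputable def cyk (F : Type) [Field F] [NumberField F] (l : ℕ) [Fact l.Prime] (k : ℕ) :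
    Gal F →* (ZMod (l ^ k))ˣ :=
  (Units.map (PadicInt.toZModPow (p := l) k : ℤ_[l] →* ZMod (l ^ k))).comp (cyc l F)

/-- `ε` is unramified outside `l` with Frobenius function `φ`, and on the inertia groups at the places
`v` over `l` it is the power `- e v` of the character `c` of the cyclotomic character. `Bl` is the
set of the places over `l`. -/
structure IsCyE {F : Type} [Field F] [NumberField F] (l : ℕ) [Fact l.Prime] (k : ℕ) {A : Type}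
    [CommGroup A] (ε : Gal F →* A) (c : (ZMod (l ^ k))ˣ →* A) (e : Pl F → ℤ)
    (Bl : Finset (Pl F)) (φ : Pl F → A) : Prop where
  pl : ∀ v : Pl F, v ∈ Bl ↔ (l : 𝓞 F) ∈ v.asIdeal
  op : IsOpen (ε.ker : Set (Gal F))
  phi : IsPhi ε Bl φ
  exp : ∀ v ∈ Bl, ∀ 𝔓 : Ideal (Zb F), OverP v 𝔓 → ∀ σ : Gal F, CongPow 𝔓 1 σ →
    ε σ * c (cyk F l k σ) ^ e v = 1

/-- `y v` is close to `x` at `v` and close to `1` at the other places of `Bl` -/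
def IsSep {F : Type} [Field F] [NumberField F] (Bl : Finset (Pl F)) (N : ℕ) (x : 𝓞 F)
    (y : Pl F → 𝓞 F) : Prop :=
  ∀ v ∈ Bl, y v - x ∈ v.asIdeal ^ N ∧ ∀ v' ∈ Bl, v' ≠ v → y v - 1 ∈ v'.asIdeal ^ N

/-- LAR0: the local-global formula (from REC, APX, EV, FRV, OVP, `MU.ST_CYC`). -/
def ST_LAR0 : Prop :=
  ∀ (F : Type) [Field F] [NumberField F] (l : ℕ) [Fact l.Prime] (k : ℕ) (A : Type) [CommGroup A]
    (ε : Gal F →* A) (c : (ZMod (l ^ k))ˣ →* A) (e : Pl F → ℤ) (Bl : Finset (Pl F))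
    (φ : Pl F → A), IsCyE l k ε c e Bl φ →
    ∃ N : ℕ, 0 < N ∧ ∀ (x : 𝓞 F) (y : Pl F → 𝓞 F), x ≠ 0 → TotPos (x : F) →
      (∀ v ∈ Bl, x ∉ v.asIdeal) → IsSep Bl N x y →
      ∀ u : Pl F → (ZMod (l ^ k))ˣ,
        (∀ v ∈ Bl, ((u v : (ZMod (l ^ k))ˣ) : ZMod (l ^ k)) = (Algebra.norm ℤ (y v) : ℤ)) →
        ev φ (Ideal.span {x}) * ∏ v ∈ Bl, c (u v) ^ e v = 1

/-- the place of `F` induced by the embedding `τ` and the prime `𝔩` -/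
def IsPlOf {F L : Type} [Field F] [NumberField F] [Field L] [NumberField L] (𝔩 : Ideal (𝓞 L))
    (pl : (F →+* L) → Pl F) : Prop :=
  ∀ (τ : F →+* L) (x : 𝓞 F), x ∈ (pl τ).asIdeal ↔ RingOfIntegers.mapRingHom τ x ∈ 𝔩

/-- LNM: local norms and embeddings. -/
def ST_LNM : Prop :=
  ∀ (F L : Type) [Field F] [NumberField F] [Field L] [NumberField L] [IsGalois ℚ L]
    [Nonempty (F →+* L)] (l : ℕ) [Fact l.Prime] (Bl : Finset (Pl F)),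
    (∀ v : Pl F, v ∈ Bl ↔ (l : 𝓞 F) ∈ v.asIdeal) → ∀ (𝔩 : Ideal (𝓞 L)), 𝔩.IsPrime →
    (l : 𝓞 L) ∈ 𝔩 → ∀ pl : (F →+* L) → Pl F, IsPlOf 𝔩 pl → ∀ (k : ℕ), 0 < k → ∀ (e : Pl F → ℕ)
    (x : 𝓞 F) (y : Pl F → 𝓞 F), IsSep Bl k x y →
      ((∏ v ∈ Bl, (Algebra.norm ℤ (y v)) ^ e v : ℤ) : 𝓞 L) -
        ∏ τ : F →+* L, RingOfIntegers.mapRingHom τ x ^ e (pl τ) ∈ 𝔩 ^ k

/-- LARK: the formula for characters with values in `(ℤ / l ^ k)ˣ`, in terms of embeddings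
(from LAR0, LNM, APX). -/
def ST_LARK : Prop :=
  ∀ (F L : Type) [Field F] [NumberField F] [Field L] [NumberField L] [IsGalois ℚ L]
    [Nonempty (F →+* L)] (l : ℕ) [Fact l.Prime] (k : ℕ), 0 < k →
    ∀ (ε : Gal F →* (ZMod (l ^ k))ˣ) (e : Pl F → ℕ) (Bl : Finset (Pl F))
    (φ : Pl F → (ZMod (l ^ k))ˣ),
    IsCyE l k ε (MonoidHom.id _) (fun v => (e v : ℤ)) Bl φ → ∀ (𝔩 : Ideal (𝓞 L)), 𝔩.IsPrime →
    (l : 𝓞 L) ∈ 𝔩 → ∀ pl : (F →+* L) → Pl F, IsPlOf 𝔩 pl → ∀ x : 𝓞 F, x ≠ 0 →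
      TotPos (x : F) → (∀ v ∈ Bl, x ∉ v.asIdeal) → ∀ t : ℤ,
      (t : ZMod (l ^ k)) = ((ev φ (Ideal.span {x}) : (ZMod (l ^ k))ˣ) : ZMod (l ^ k)) →
      (t : 𝓞 L) * ∏ τ : F →+* L, RingOfIntegers.mapRingHom τ x ^ e (pl τ) - 1 ∈ 𝔩 ^ k

end REC
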