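import Pool.Agent.Helper85.REC.Stmts8

/-!
# Reciprocity, part 6b: semisimple motives of rank two (the commutative case)
Proofs: /team-store/rec_blueprint6b.md   [helper57]
-/

set_option autoImplicit false

open scoped Classical
open NumberField Polynomial

namespace REC

open Pool.Agent.Helper13.ZL (Pl q)
open MU

/-- completely reducible representations: every stable subspace (with basis the columns of `B`) is
the image of an equivariant projection -/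
def IsSS {G K : Type} [Group G] [Field K] {n : ℕ} (r : G →* Matrix (Fin n) (Fin n) K) : Prop :=
  ∀ (m : ℕ) (B : Matrix (Fin n) (Fin m) K) (A : G → Matrix (Fin m) (Fin m) K), IsSub r B A →
    ∃ C : Matrix (Fin m) (Fin n) K, C * B = 1 ∧ ∀ g, C * r g = A g * C

section

variable {F : Type} [Field F] [NumberField F] {S : Finset ℕ} {n w : ℕ} {h : Fin n → ℕ}

/-- `u` is a homomorphism of rational motives: it commutes with the Galois action on all `l`-adic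
realizations -/
def Hm (M M' : Mot F S n w h) (u : Matrix (Fin n) (Fin n) ℚ) : Prop :=
  ∀ (l : ℕ) [Fact l.Prime] (g : Gal F),
    u.map (algebraMap ℚ ℚ_[l]) * rat (M.ρ l) g = rat (M'.ρ l) g * u.map (algebraMap ℚ ℚ_[l])

/-- the Tate conjecture for the homomorphisms from `M` to `M'` -/
def TateHom (M M' : Mot F S n w h) : Prop :=
  ∀ (l : ℕ) [Fact l.Prime] (y : Matrix (Fin n) (Fin n) ℚ_[l]),
    (∀ g : Gal F, y * rat (M.ρ l) g = rat (M'.ρ l) g * y) →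
    y ∈ Submodule.span ℚ_[l] {z : Matrix (Fin n) (Fin n) ℚ_[l] |
      ∃ u : Matrix (Fin n) (Fin n) ℚ, Hm M M' u ∧ z = u.map (algebraMap ℚ ℚ_[l])}

end

section

variable {F : Type} [Field F] [NumberField F] {S : Finset ℕ} {w : ℕ} {h : Fin 2 → ℕ}

/-- commutative motives of rank two with a regular element -/
def Cm (M : Mot F S 2 w h) : Prop :=
  (∀ (l : ℕ) [Fact l.Prime] (g g' : Gal F), M.ρ l g * M.ρ l g' = M.ρ l g' * M.ρ l g) ∧
  ∃ (l : ℕ) (_ : Fact l.Prime) (g : Gal F), dsc (M.ρ l g : Matrix (Fin 2) (Fin 2) ℤ_[l]) ≠ 0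

/-- `ω` generates the ring of the endomorphisms of the lattice, at all `l` -/
def IsGen (M : Mot F S 2 w h) (ω : Matrix (Fin 2) (Fin 2) ℤ) : Prop :=
  dsc ω ≠ 0 ∧ ∀ (l : ℕ) [Fact l.Prime],
    (∀ g : Gal F, ω.map (algebraMap ℤ ℤ_[l]) * (M.ρ l g : Matrix (Fin 2) (Fin 2) ℤ_[l]) =
      (M.ρ l g : Matrix (Fin 2) (Fin 2) ℤ_[l]) * ω.map (algebraMap ℤ ℤ_[l])) ∧
    ∀ y : Matrix (Fin 2) (Fin 2) ℤ_[l],
      (∀ g : Gal F, y * (M.ρ l g : Matrix (Fin 2) (Fin 2) ℤ_[l]) =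
        (M.ρ l g : Matrix (Fin 2) (Fin 2) ℤ_[l]) * y) →
      ∃ a b : ℤ_[l], y = a • (1 : Matrix (Fin 2) (Fin 2) ℤ_[l]) + b • ω.map (algebraMap ℤ ℤ_[l])

end

/-! ## A. The quadratic field -/

/-- EDT: a place at which the products determine the exponents (from SPQ). -/
def ST_EDT : Prop :=
  ∀ (F L : Type) [Field F] [NumberField F] [Field L] [NumberField L] [IsGalois ℚ L]
    [Nonempty (F →+* L)] (S : Finset ℕ), ∃ (v : Pl F) (p : ℕ), p.Prime ∧ p ∉ S ∧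
      (p : 𝓞 F) ∈ v.asIdeal ∧ ∀ (m : ℕ) (x : 𝓞 F), 0 < m → Ideal.span {x} = v.asIdeal ^ m →
        ∀ e e' : (F →+* L) → ℕ,
          ∏ τ : F →+* L, RingOfIntegers.mapRingHom τ x ^ e τ =
            ∏ τ : F →+* L, RingOfIntegers.mapRingHom τ x ^ e' τ → e = e'

/-- PT2: the discriminants lie in one square class (from EDT, HS2, FRB, OVP; see LIN0). -/
def ST_PT2 : Prop :=
  ∀ (F L : Type) [Field F] [NumberField F] [Field L] [NumberField L] [IsGalois ℚ L]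
    [Nonempty (F →+* L)] (S : Finset ℕ), (∀ p ∈ S, p.Prime) →
    ∀ (w : ℕ) (h : Fin 2 → ℕ) (M : Mot F S 2 w h) (e : (F →+* L) → ℕ), h 0 ≠ h 1 → Rel M L e →
      ∃ (d : ℤ) (N : ℕ), d ≠ 0 ∧ 0 < N ∧ ∀ (l : ℕ) [Fact l.Prime] (g : Gal F),
        IsSquare ((d : ℤ_[l]) * dsc ((M.ρ l g : Matrix (Fin 2) (Fin 2) ℤ_[l]) ^ N))

/-- GLD: the group lemma for a square class (from `gl2_line`). -/
def ST_GLD : Prop :=
  ∀ (Γ : Type) [Group Γ] [TopologicalSpace Γ] [IsTopologicalGroup Γ] (l : ℕ) [Fact l.Prime]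
    (r : Γ →* Matrix.GeneralLinearGroup (Fin 2) ℤ_[l]), Continuous r →
    ∀ (d : ℤ_[l]) (N : ℕ), d ≠ 0 → N ≠ 0 →
      (∀ g : Γ, IsSquare (d * dsc ((r g : Matrix (Fin 2) (Fin 2) ℤ_[l]) ^ N))) →
      ∃ H : Subgroup Γ, IsOpen (H : Set Γ) ∧
        ((∃ v : Fin 2 → ℤ_[l], v ≠ 0 ∧ ∀ g ∈ H,
          v 0 * (r g : Matrix (Fin 2) (Fin 2) ℤ_[l]).mulVec v 1 =
            v 1 * (r g : Matrix (Fin 2) (Fin 2) ℤ_[l]).mulVec v 0) ∨
        ∀ g ∈ H, ∀ g' ∈ H, r g * r g' = r g' * r g)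

/-- CMG: a completely reducible representation of rank two which is triangular or commutative on a
normal subgroup (from CL2). -/
def ST_CMG : Prop :=
  ∀ (G K : Type) [Group G] [Field K] [CharZero K] (r : G →* Matrix (Fin 2) (Fin 2) K)
    (H : Subgroup G), H.Normal → IsSS r →
    ((∃ (B : Matrix (Fin 2) (Fin 1) K) (A : H → Matrix (Fin 1) (Fin 1) K),
        IsSub (r.comp H.subtype) B A) ∨ ∀ g ∈ H, ∀ g' ∈ H, r g * r g' = r g' * r g) →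
    (∃ G' : Subgroup G, H ≤ G' ∧ G' ≠ ⊤ ∧ ∀ g : G, g ∉ G' → (r g).trace = 0) ∨
    (∀ g ∈ H, (r g).trace ^ 2 = 4 * (r g).det) ∨
    ∀ g g' : G, r g * r g' = r g' * r g

/-- INC: the cyclotomic character on the inertia groups over `l` (from INR, FRE, CYC, IDX). -/
def ST_INC : Prop :=
  ∀ (F : Type) [Field F] [NumberField F] (l : ℕ) [Fact l.Prime] (𝔓 : Ideal (Zb F)), Over l 𝔓 →
    ∀ H : Subgroup (Gal F), IsOpen (H : Set (Gal F)) →
      ∃ σ ∈ H, CongPow 𝔓 1 σ ∧ ∀ K : ℕ, 0 < K → cyc l F σ ^ K ≠ 1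

/-- INF: the two characters of a triangular motive differ on every open subgroup
(from INC, FRE). -/
def ST_INF : Prop :=
  ∀ (F : Type) [Field F] [NumberField F] (S : Finset ℕ), (∀ p ∈ S, p.Prime) →
    ∀ (w : ℕ) (h : Fin 2 → ℕ) (M : Mot F S 2 w h), h 0 ≠ h 1 → ∀ (l : ℕ) [Fact l.Prime]
      (B : Matrix (Fin 2) (Fin 1) ℚ_[l]) (A : Gal F → Matrix (Fin 1) (Fin 1) ℚ_[l]),
      IsSub (rat (M.ρ l)) B A → ∀ H : Subgroup (Gal F), IsOpen (H : Set (Gal F)) →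
        ∃ σ ∈ H, (rat (M.ρ l) σ).trace ^ 2 ≠ 4 * (rat (M.ρ l) σ).det

/-- CMC: semisimple motives of rank two are irreducible or commutative
(from LLN, RELK, PT2, GLD, CMG, TRP, INF). -/
def ST_CMC : Prop :=
  ∀ (F : Type) [Field F] [NumberField F] (S : Finset ℕ), (∀ p ∈ S, p.Prime) →
    ∀ (w : ℕ) (h : Fin 2 → ℕ) (M : Mot F S 2 w h), h 0 ≠ h 1 →
      (∀ (l : ℕ) [Fact l.Prime], IsSS (rat (M.ρ l))) →
      (∀ (l : ℕ) [Fact l.Prime], IsIrr (rat (M.ρ l))) ∨ Cm M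

/-! ## B. Lattices -/

/-- MAT: matrices over `ℤ_l` with a given characteristic polynomial of non zero discriminant, up to
conjugation. -/
def ST_MAT : Prop :=
  ∀ (l : ℕ) [Fact l.Prime] (t n : ℤ_[l]), t ^ 2 - 4 * n ≠ 0 →
    ∃ (κ : Type) (_ : Finite κ) (col : Matrix (Fin 2) (Fin 2) ℤ_[l] → κ),
      (IsUnit (t ^ 2 - 4 * n) → ∀ A A', col A = col A') ∧
      ∀ A A' : Matrix (Fin 2) (Fin 2) ℤ_[l], A.trace = t → A'.trace = t → A.det = n →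
        A'.det = n → col A = col A' → ∃ u : Matrix.GeneralLinearGroup (Fin 2) ℤ_[l],
          (u : Matrix (Fin 2) (Fin 2) ℤ_[l]) * A = A' * u

/-- ADK: finitely many adelic realizations of commutative motives (from FAL, TRQ, FRB, TRP,
MAT). -/
def ST_ADK : Prop :=
  ∀ (F : Type) [Field F] [NumberField F] (S : Finset ℕ), (∀ p ∈ S, p.Prime) →
    ∀ (w : ℕ) (h : Fin 2 → ℕ), ∃ (κ : Type) (_ : Finite κ) (col : Mot F S 2 w h → κ),
      ∀ M M' : Mot F S 2 w h, Cm M → Cm M' → col M = col M' → M.AdelicIso M'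

/-- LMD: integral matrices with bounded discriminant, up to conjugation and translation. -/
def ST_LMD : Prop :=
  ∀ D : ℕ, ∃ T : Finset (Matrix (Fin 2) (Fin 2) ℤ), ∀ A : Matrix (Fin 2) (Fin 2) ℤ,
    dsc A ≠ 0 → (dsc A).natAbs ≤ D → ∃ t ∈ T, ∃ (c : ℤ) (u : Matrix.GeneralLinearGroup (Fin 2) ℤ),
      (u : Matrix (Fin 2) (Fin 2) ℤ) * A = (t + c • (1 : Matrix (Fin 2) (Fin 2) ℤ)) * u

/-- ORD: the ring of endomorphisms (from TRP). -/
def ST_ORD : Prop :=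
  ∀ (F : Type) [Field F] [NumberField F] (S : Finset ℕ), (∀ p ∈ S, p.Prime) →
    ∀ (w : ℕ) (h : Fin 2 → ℕ) (M : Mot F S 2 w h), Cm M → TateHom M M →
      ∃ ω : Matrix (Fin 2) (Fin 2) ℤ, IsGen M ω

/-- DIS: the discriminant depends only on the adelic realization. -/
def ST_DIS : Prop :=
  ∀ (F : Type) [Field F] [NumberField F] (S : Finset ℕ) (w : ℕ) (h : Fin 2 → ℕ)
    (M M' : Mot F S 2 w h) (ω ω' : Matrix (Fin 2) (Fin 2) ℤ), IsGen M ω → IsGen M' ω' →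
      M.AdelicIso M' → (dsc ω).natAbs = (dsc ω').natAbs

/-- TIS: the Tate conjecture gives isogenies. -/
def ST_TIS : Prop :=
  ∀ (F : Type) [Field F] [NumberField F] (S : Finset ℕ) (n w : ℕ) (h : Fin n → ℕ)
    (M M' : Mot F S n w h), TateHom M M' → M.AdelicIso M' → M.Isog M'

/-- ISK: finitely many isomorphism classes of commutative motives (from ADK, ORD, DIS, LMD, TIS). -/
def ST_ISK : Prop :=
  ∀ (F : Type) [Field F] [NumberField F] (S : Finset ℕ), (∀ p ∈ S, p.Prime) →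
    ∀ (w : ℕ) (h : Fin 2 → ℕ), ∃ N : ℕ, ∀ 𝒯 : Set (Mot F S 2 w h), (∀ M ∈ 𝒯, Cm M) →
      (∀ M ∈ 𝒯, ∀ M' ∈ 𝒯, TateHom M M') →
      ∃ T : Finset (Mot F S 2 w h), (T : Set (Mot F S 2 w h)) ⊆ 𝒯 ∧ T.card ≤ N ∧
        ∀ M ∈ 𝒯, ∃ M' ∈ T, M.Iso M'

/-- FSS: finiteness for semisimple motives of rank two (from CMC, IRB, ADE0, FIN0, ADK, ISK,
TIS). -/
def ST_FSS : Prop :=
  ∀ (F : Type) [Field F] [NumberField F] (S : Finset ℕ), (∀ p ∈ S, p.Prime) →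
    ∀ (w : ℕ) (h : Fin 2 → ℕ), h 0 ≠ h 1 → ∃ N : ℕ, ∀ 𝒯 : Set (Mot F S 2 w h),
      (∀ M ∈ 𝒯, ∀ (l : ℕ) [Fact l.Prime], IsSS (rat (M.ρ l))) →
      (∃ T : Finset (Mot F S 2 w h), (T : Set (Mot F S 2 w h)) ⊆ 𝒯 ∧ T.card ≤ N ∧
          ∀ M ∈ 𝒯, ∃ M' ∈ T, M.AdelicIso M') ∧
      ((∀ M ∈ 𝒯, ∀ M' ∈ 𝒯, TateHom M M') →
        ∃ T : Finset (Mot F S 2 w h), (T : Set (Mot F S 2 w h)) ⊆ 𝒯 ∧ T.card ≤ N ∧
          ∀ M ∈ 𝒯, ∃ M' ∈ T, M.Iso M')

end REC
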